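import Pool.Agent.Lib.H48U.E1

set_option autoImplicit false

/-! # H48U, chunk E2 (M/L): integration of the signed Jacobian

PROOF. Let `V⁺, V⁻` be the open sets `{det > 0}`, `{det < 0}` of `V` (`det ∘ fderiv` is continuous on `V`). On `V` outside
`V⁺ ∪ V⁻` the integrand vanishes, so the left side is `∫_{V⁺} H(F) |det| - ∫_{V⁻} H(F) |det|`; both are finite, the
integrand is bounded and vanishes outside the compact `K`. By `area_lintegral` with `g = ENNReal.ofReal ∘ H` they are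
`∫⁻ ofReal (H y) n⁺(y)` and `∫⁻ ofReal (H y) n⁻(y)`, finite. By Sard
(`addHaar_image_eq_zero_of_det_fderiv_eq_zero` for `{x ∈ V | det = 0}`) and `hN`, for almost every `y` with `H y ≠ 0`:
the fibre is contained in `K`, consists of regular points, is discrete and compact (closed: limits in `K ⊆ V`), so it is
finite, and `n⁺(y) ≤ n⁻(y) + 1`. So `∫⁻ ofReal H n⁺ ≤ ∫⁻ ofReal H n⁻ + ∫⁻ ofReal H`, which is the claim
(`ofReal_integral_eq_lintegral_ofReal`, `HasCompactSupport` and continuity give integrability of `H`). -/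

open Set Filter Topology MeasureTheory Metric
open scoped ContDiff ENNReal

namespace H48U

open Pool.Agent.Lib.PenroseSph (E3)

theorem fiber_finite (V : Set E3) (hV : IsOpen V) (F : E3 → E3) (hF : ContDiffOn ℝ 1 F V) (K : Set E3) (hK : IsCompact K)
    (hKV : K ⊆ V) (y : E3) (hy : ∀ x ∈ V, F x = y → x ∈ K) (hr : ∀ x ∈ V, F x = y → (fderiv ℝ F x).det ≠ 0) :
    {x | x ∈ V ∧ F x = y}.Finite := by
  classical
  have hS : {x | x ∈ V ∧ F x = y} = K ∩ F ⁻¹' {y} := by
    ext x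
    constructor
    · rintro ⟨h1, h2⟩
      exact ⟨hy x h1 h2, h2⟩
    · rintro ⟨h1, h2⟩
      exact ⟨hKV h1, h2⟩
  have hc : IsCompact {x | x ∈ V ∧ F x = y} := by
    rw [hS]
    exact hK.of_isClosed_subset
      ((hF.continuousOn.mono hKV).preimage_isClosed_of_isClosed hK.isClosed isClosed_singleton) inter_subset_left
  have h1 : ∀ x : E3, ∃ U : Set E3, (x ∈ V ∧ F x = y) → (IsOpen U ∧ x ∈ U ∧ U ⊆ V ∧ InjOn F U) := by
    intro x
    by_cases hx : x ∈ V ∧ F x = y
    · obtain ⟨U, hU⟩ := e1_loc V hV F hF x hx.1 (hr x hx.1 hx.2)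
      exact ⟨U, fun _ => hU⟩
    · exact ⟨∅, fun h => absurd h hx⟩
  choose U hU using h1
  obtain ⟨t, ht, hcov⟩ := hc.elim_nhds_subcover U (fun x hx => (hU x hx).1.mem_nhds (hU x hx).2.1)
  have h2 : {x | x ∈ V ∧ F x = y} ⊆ ⋃ x ∈ t, ({x | x ∈ V ∧ F x = y} ∩ U x) := by
    intro x hx
    have := hcov hx
    simp only [mem_iUnion] at this ⊢
    obtain ⟨z, hz, hxz⟩ := this
    exact ⟨z, hz, hx, hxz⟩
  refine Set.Finite.subset ?_ h2
  apply Set.Finite.biUnion t.finite_toSet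
  intro z hz
  apply Set.Subsingleton.finite
  intro a ha b hb
  exact (hU z (ht z hz)).2.2.2 ha.2 hb.2 (by rw [ha.1.2, hb.1.2])

theorem area_le (V : Set E3) (hV : IsOpen V) (F : E3 → E3) (hF : ContDiffOn ℝ 1 F V) (H : E3 → ℝ) (hH : Continuous H)
    (hHc : HasCompactSupport H) (hH0 : ∀ y, 0 ≤ H y) (K : Set E3) (hK : IsCompact K) (hKV : K ⊆ V)
    (hs : ∀ x ∈ V, H (F x) ≠ 0 → x ∈ K)
    (hN : ∀ᵐ y : E3, H y ≠ 0 → (∀ x ∈ V, F x = y → (fderiv ℝ F x).det ≠ 0) →
      {x | x ∈ V ∧ F x = y ∧ 0 < (fderiv ℝ F x).det}.ncard ≤ {x | x ∈ V ∧ F x = y ∧ (fderiv ℝ F x).det < 0}.ncard + 1) :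
    ∫ x in V, H (F x) * (fderiv ℝ F x).det ≤ ∫ y, H y := by
  classical
  have hdc : ContinuousOn (fun x => (fderiv ℝ F x).det) V :=
    ContinuousLinearMap.continuous_det.comp_continuousOn (hF.continuousOn_fderiv_of_isOpen hV le_rfl)
  have hVm : MeasurableSet V := hV.measurableSet
  set Vp : Set E3 := V ∩ (fun x => (fderiv ℝ F x).det) ⁻¹' Ioi 0 with hVp
  set Vn : Set E3 := V ∩ (fun x => (fderiv ℝ F x).det) ⁻¹' Iio 0 with hVn
  have hVpo : IsOpen Vp := hdc.isOpen_inter_preimage hV isOpen_Ioi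
  have hVno : IsOpen Vn := hdc.isOpen_inter_preimage hV isOpen_Iio
  have hgm : Measurable (fun y => ENNReal.ofReal (H y)) := hH.measurable.ennreal_ofReal
  obtain ⟨hmp, hap⟩ := area_lintegral Vp hVpo F (hF.mono inter_subset_left)
    (fun x hx => ne_of_gt hx.2) (fun y => ENNReal.ofReal (H y)) hgm
  obtain ⟨hmn, han⟩ := area_lintegral Vn hVno F (hF.mono inter_subset_left)
    (fun x hx => ne_of_lt hx.2) (fun y => ENNReal.ofReal (H y)) hgm
  -- the two parts
  have hA : ∫⁻ x in V, ENNReal.ofReal (H (F x) * (fderiv ℝ F x).det) =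
      ∫⁻ x in Vp, ENNReal.ofReal (H (F x)) * ENNReal.ofReal |(fderiv ℝ F x).det| := by
    rw [← lintegral_indicator hVm, ← lintegral_indicator hVpo.measurableSet]
    apply lintegral_congr
    intro x
    by_cases hx : x ∈ V
    · rw [indicator_of_mem hx]
      by_cases hp : x ∈ Vp
      · rw [indicator_of_mem hp, abs_of_pos hp.2, ENNReal.ofReal_mul (hH0 _)]
      · rw [indicator_of_notMem hp]
        have h1 : (fderiv ℝ F x).det ≤ 0 := by
          by_contra h
          exact hp ⟨hx, not_le.1 h⟩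
        exact ENNReal.ofReal_eq_zero.2 (mul_nonpos_of_nonneg_of_nonpos (hH0 _) h1)
    · rw [indicator_of_notMem hx, indicator_of_notMem (fun h => hx h.1)]
  have hB : ∫⁻ x in V, ENNReal.ofReal (-(H (F x) * (fderiv ℝ F x).det)) =
      ∫⁻ x in Vn, ENNReal.ofReal (H (F x)) * ENNReal.ofReal |(fderiv ℝ F x).det| := by
    rw [← lintegral_indicator hVm, ← lintegral_indicator hVno.measurableSet]
    apply lintegral_congr
    intro x
    by_cases hx : x ∈ V
    · rw [indicator_of_mem hx]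
      by_cases hp : x ∈ Vn
      · rw [indicator_of_mem hp, abs_of_neg hp.2, ← ENNReal.ofReal_mul (hH0 _), mul_neg]
      · rw [indicator_of_notMem hp]
        have h1 : 0 ≤ (fderiv ℝ F x).det := by
          by_contra h
          exact hp ⟨hx, not_le.1 h⟩
        exact ENNReal.ofReal_eq_zero.2 (neg_nonpos.2 (mul_nonneg (hH0 _) h1))
    · rw [indicator_of_notMem hx, indicator_of_notMem (fun h => hx h.1)]
  -- integrability
  have hFc : ContinuousOn F V := hF.continuousOn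
  have hfc : ContinuousOn (fun x => H (F x) * (fderiv ℝ F x).det) V :=
    (hH.comp_continuousOn hFc).mul hdc
  have hint : IntegrableOn (fun x => H (F x) * (fderiv ℝ F x).det) V := by
    refine IntegrableOn.of_forall_diff_eq_zero ((hfc.mono hKV).integrableOn_compact hK) hVm ?_
    intro x hx
    have : H (F x) = 0 := by
      by_contra h
      exact hx.2 (hs x hx.1 h)
    simp only [this, zero_mul]
  have hHi : Integrable H := hH.integrable_of_hasCompactSupport hHc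
  -- Sard
  have hZ : (volume : Measure E3) (F '' {x | x ∈ V ∧ (fderiv ℝ F x).det = 0}) = 0 := by
    apply addHaar_image_eq_zero_of_det_fderivWithin_eq_zero volume (f' := fderiv ℝ F)
    · intro x hx
      exact ((hF.differentiableOn (by norm_num) x hx.1).differentiableAt
        (hV.mem_nhds hx.1)).hasFDerivAt.hasFDerivWithinAt
    · intro x hx
      exact hx.2
  have hZ' : ∀ᵐ y : E3, y ∉ F '' {x | x ∈ V ∧ (fderiv ℝ F x).det = 0} := measure_eq_zero_iff_ae_notMem.1 hZ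
  have hkey : ∀ᵐ y : E3, ENNReal.ofReal (H y) * (({x | x ∈ Vp ∧ F x = y}.encard : ℕ∞) : ℝ≥0∞) ≤
      ENNReal.ofReal (H y) * (({x | x ∈ Vn ∧ F x = y}.encard : ℕ∞) : ℝ≥0∞) + ENNReal.ofReal (H y) := by
    filter_upwards [hN, hZ'] with y h1 h2
    by_cases hy : H y = 0
    · simp [hy]
    · have hreg : ∀ x ∈ V, F x = y → (fderiv ℝ F x).det ≠ 0 := by
        intro x hx hxy h0
        exact h2 ⟨x, ⟨hx, h0⟩, hxy⟩
      have hfin := fiber_finite V hV F hF K hK hKV y
        (fun x hx hxy => hs x hx (by rw [hxy]; exact hy)) hreg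
      have h3 := h1 hy hreg
      have e1 : {x | x ∈ Vp ∧ F x = y} = {x | x ∈ V ∧ F x = y ∧ 0 < (fderiv ℝ F x).det} := by
        ext x
        constructor
        · rintro ⟨⟨h4, h5⟩, h6⟩
          exact ⟨h4, h6, h5⟩
        · rintro ⟨h4, h5, h6⟩
          exact ⟨⟨h4, h6⟩, h5⟩
      have e2 : {x | x ∈ Vn ∧ F x = y} = {x | x ∈ V ∧ F x = y ∧ (fderiv ℝ F x).det < 0} := by
        ext x
        constructor
        · rintro ⟨⟨h4, h5⟩, h6⟩
          exact ⟨h4, h6, h5⟩
        · rintro ⟨h4, h5, h6⟩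
          exact ⟨⟨h4, h6⟩, h5⟩
      have f1 : {x | x ∈ V ∧ F x = y ∧ 0 < (fderiv ℝ F x).det}.Finite :=
        hfin.subset (fun x hx => ⟨hx.1, hx.2.1⟩)
      have f2 : {x | x ∈ V ∧ F x = y ∧ (fderiv ℝ F x).det < 0}.Finite :=
        hfin.subset (fun x hx => ⟨hx.1, hx.2.1⟩)
      rw [e1, e2, ← f1.cast_ncard_eq, ← f2.cast_ncard_eq]
      calc ENNReal.ofReal (H y) * ((({x | x ∈ V ∧ F x = y ∧ 0 < (fderiv ℝ F x).det}.ncard : ℕ) : ℕ∞) : ℝ≥0∞)
          ≤ ENNReal.ofReal (H y) *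
            (((({x | x ∈ V ∧ F x = y ∧ (fderiv ℝ F x).det < 0}.ncard : ℕ) : ℕ∞) : ℝ≥0∞) + 1) := by
            gcongr
            have h7 : ((({x | x ∈ V ∧ F x = y ∧ 0 < (fderiv ℝ F x).det}.ncard : ℕ)) : ℝ≥0∞) ≤
                (({x | x ∈ V ∧ F x = y ∧ (fderiv ℝ F x).det < 0}.ncard : ℕ) : ℝ≥0∞) + 1 := by
              exact_mod_cast h3
            simpa using h7
        _ = _ := by rw [mul_add, mul_one]
  have hle : ∫⁻ x in V, ENNReal.ofReal (H (F x) * (fderiv ℝ F x).det) ≤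
      (∫⁻ x in V, ENNReal.ofReal (-(H (F x) * (fderiv ℝ F x).det))) + ∫⁻ y, ENNReal.ofReal (H y) := by
    rw [hA.trans hap, hB.trans han, ← lintegral_add_right _ hgm]
    exact lintegral_mono_ae hkey
  have hf1 : ∫⁻ x in V, ENNReal.ofReal (-(H (F x) * (fderiv ℝ F x).det)) ≠ ⊤ :=
    (hint.neg.lintegral_lt_top).ne
  have hf2 : ∫⁻ y, ENNReal.ofReal (H y) ≠ ⊤ := hHi.lintegral_lt_top.ne
  rw [integral_eq_lintegral_pos_part_sub_lintegral_neg_part hint,
    integral_eq_lintegral_of_nonneg_ae (Eventually.of_forall hH0) hH.aestronglyMeasurable]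
  rw [sub_le_iff_le_add', ← ENNReal.toReal_add hf1 hf2]
  exact ENNReal.toReal_mono (ENNReal.add_ne_top.2 ⟨hf1, hf2⟩) hle

end H48U
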