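import Pool.Agent.Lib.H48U.E3

set_option autoImplicit false

/-! # H48U, chunk E4 (M): distinct heights for almost every value

PROOF. `W = {x ∈ V | det ≠ 0}` is open. Every `x ∈ W` has an open neighbourhood `U ⊆ W` such that `F` is injective on `U`,
`F '' U` is open and the inverse `ψ` is `C¹` on `F '' U` (`ContDiffAt.toOpenPartialHomeomorph`,
`ContDiffAt.to_localInverse`), `fderiv ψ y = (fderiv F (ψ y))⁻¹`. Countably many `U_n` cover `W`. The bad set is contained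
in the union over `m, n` of the sets of `y ∈ F '' U_m ∩ F '' U_n` with `ψ_m y ≠ ψ_n y`, `⟪y, ψ_m y - ψ_n y⟫ = 0`. For
`w y = ⟪y, ψ_m y - ψ_n y⟫` and `v = ψ_m y - ψ_n y`, `⟪y, v⟫ = 0`, `v ≠ 0`: `fderiv w y v = ⟪v, v⟫ + ⟪y, ψ_m' v⟫ - ⟪y, ψ_n' v⟫`;
by `hp` at `x = ψ_m y` with the vector `ψ_m' v` (`⟪F x, F'(x) ψ_m' v⟫ = ⟪y, v⟫ = 0`) the second term vanishes, the third
too. So `fderiv w y v = ‖v‖² ≠ 0`, and `zero_null` applies. -/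

open Set Filter Topology MeasureTheory Metric
open scoped ContDiff

namespace H48U

open Pool.Agent.Lib.PenroseSph (E3)

/-- a local inverse on an open set -/
theorem e4_local (V : Set E3) (hV : IsOpen V) (F : E3 → E3) (hF : ContDiffOn ℝ 1 F V) (x : E3)
    (hx : x ∈ V) (hdet : (fderiv ℝ F x).det ≠ 0) :
    ∃ U ∈ 𝓝 x, ∃ O : Set E3, IsOpen O ∧ ∃ ψ : E3 → E3, (∀ z ∈ U, F z ∈ O ∧ ψ (F z) = z) ∧
      ContDiffOn ℝ 1 ψ O ∧ ∀ y ∈ O, F (ψ y) = y ∧ ψ y ∈ V := by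
  have hc : ContDiffAt ℝ 1 F x := hF.contDiffAt (hV.mem_nhds hx)
  have hd0 : HasFDerivAt F (fderiv ℝ F x) x := (hc.differentiableAt one_ne_zero).hasFDerivAt
  have hd : HasFDerivAt F (((fderiv ℝ F x).toContinuousLinearEquivOfDetNeZero hdet : E3 ≃L[ℝ] E3)
      : E3 →L[ℝ] E3) x := by
    rw [ContinuousLinearMap.coe_toContinuousLinearEquivOfDetNeZero]
    exact hd0
  set ψ := hc.localInverse hd one_ne_zero with hψ
  have hψc : ContDiffAt ℝ 1 ψ (F x) := hc.to_localInverse hd one_ne_zero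
  have h1 : ∀ᶠ y in 𝓝 (F x), ContDiffAt ℝ 1 ψ y := hψc.eventually (by simp)
  have h2 : ∀ᶠ y in 𝓝 (F x), F (ψ y) = y :=
    (hc.hasStrictFDerivAt' hd one_ne_zero).eventually_right_inverse
  have h3 : ∀ᶠ y in 𝓝 (F x), ψ y ∈ V := by
    have h4 : Tendsto ψ (𝓝 (F x)) (𝓝 x) :=
      (hc.hasStrictFDerivAt' hd one_ne_zero).localInverse_tendsto
    exact h4.eventually (hV.mem_nhds hx)
  have h5 : ∀ᶠ z in 𝓝 x, ψ (F z) = z :=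
    (hc.hasStrictFDerivAt' hd one_ne_zero).eventually_left_inverse
  obtain ⟨O, hO1, hO2, hO3⟩ := _root_.mem_nhds_iff.1 (h1.and (h2.and h3))
  refine ⟨{z | F z ∈ O ∧ ψ (F z) = z}, ?_, O, hO2, ψ, fun z hz => hz, ?_, ?_⟩
  · exact (hc.continuousAt.eventually (hO2.mem_nhds hO3)).and h5
  · intro y hy
    exact (hO1 hy).1.contDiffWithinAt
  · intro y hy
    exact (hO1 hy).2

theorem e4_pair (V : Set E3) (F : E3 → E3) (hV : IsOpen V) (hF : ContDiffOn ℝ 1 F V)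
    (hp : ∀ x ∈ V, ∀ v : E3, inner ℝ (F x) (fderiv ℝ F x v) = (0 : ℝ) → inner ℝ (F x) v = (0 : ℝ))
    (O : Set E3) (hO : IsOpen O) (ψ : E3 → E3) (hψ : ContDiffOn ℝ 1 ψ O)
    (h : ∀ y ∈ O, F (ψ y) = y ∧ ψ y ∈ V) (y : E3) (hy : y ∈ O) (v : E3)
    (hv : inner ℝ y v = (0 : ℝ)) : inner ℝ y (fderiv ℝ ψ y v) = (0 : ℝ) := by
  have hψd : HasFDerivAt ψ (fderiv ℝ ψ y) y :=
    ((hψ.contDiffAt (hO.mem_nhds hy)).differentiableAt one_ne_zero).hasFDerivAt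
  have hFd : HasFDerivAt F (fderiv ℝ F (ψ y)) (ψ y) :=
    ((hF.contDiffAt (hV.mem_nhds (h y hy).2)).differentiableAt one_ne_zero).hasFDerivAt
  have h1 := hFd.comp y hψd
  have h2 : (F ∘ ψ) =ᶠ[𝓝 y] id := by
    filter_upwards [hO.mem_nhds hy] with z hz
    exact (h z hz).1
  have h3 := (hasFDerivAt_id (𝕜 := ℝ) y).congr_of_eventuallyEq h2
  have h4 := h1.unique h3
  have h5 : fderiv ℝ F (ψ y) (fderiv ℝ ψ y v) = v := by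
    have := congrArg (fun A : E3 →L[ℝ] E3 => A v) h4
    simpa using this
  have h6 := hp (ψ y) (h y hy).2 (fderiv ℝ ψ y v) (by rw [h5, (h y hy).1]; exact hv)
  rw [(h y hy).1] at h6
  exact h6

theorem e4_null (V : Set E3) (hV : IsOpen V) (F : E3 → E3) (hF : ContDiffOn ℝ 1 F V)
    (hp : ∀ x ∈ V, ∀ v : E3, inner ℝ (F x) (fderiv ℝ F x v) = (0 : ℝ) → inner ℝ (F x) v = (0 : ℝ))
    (O1 O2 : Set E3) (hO1 : IsOpen O1) (hO2 : IsOpen O2) (ψ1 ψ2 : E3 → E3)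
    (hψ1 : ContDiffOn ℝ 1 ψ1 O1) (hψ2 : ContDiffOn ℝ 1 ψ2 O2)
    (h1 : ∀ y ∈ O1, F (ψ1 y) = y ∧ ψ1 y ∈ V) (h2 : ∀ y ∈ O2, F (ψ2 y) = y ∧ ψ2 y ∈ V) :
    volume {y : E3 | y ∈ O1 ∧ y ∈ O2 ∧ ψ1 y ≠ ψ2 y ∧ inner ℝ y (ψ1 y) = (inner ℝ y (ψ2 y) : ℝ)}
      = 0 := by
  set w : E3 → ℝ := fun y => inner ℝ y (ψ1 y - ψ2 y) with hw
  have hsub : ContDiffOn ℝ 1 (fun y => ψ1 y - ψ2 y) (O1 ∩ O2) :=
    (hψ1.mono inter_subset_left).sub (hψ2.mono inter_subset_right)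
  have hwc : ContDiffOn ℝ 1 w (O1 ∩ O2) := contDiffOn_id.inner ℝ hsub
  refine measure_mono_null ?_ (zero_null (O1 ∩ O2) (hO1.inter hO2) w hwc)
  rintro y ⟨hy1, hy2, hne, heq⟩
  have hw0 : (inner ℝ y (ψ1 y - ψ2 y) : ℝ) = 0 := by
    rw [inner_sub_right, heq, sub_self]
  refine ⟨⟨hy1, hy2⟩, hw0, ?_⟩
  intro hfd
  set v := ψ1 y - ψ2 y with hv
  have hv0 : v ≠ 0 := sub_ne_zero.2 hne
  have hd1 : HasFDerivAt ψ1 (fderiv ℝ ψ1 y) y :=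
    ((hψ1.contDiffAt (hO1.mem_nhds hy1)).differentiableAt one_ne_zero).hasFDerivAt
  have hd2 : HasFDerivAt ψ2 (fderiv ℝ ψ2 y) y :=
    ((hψ2.contDiffAt (hO2.mem_nhds hy2)).differentiableAt one_ne_zero).hasFDerivAt
  have hwd := (hasFDerivAt_id (𝕜 := ℝ) y).inner ℝ (hd1.sub hd2)
  have hwd2 : HasFDerivAt w (0 : E3 →L[ℝ] ℝ) y := by
    rw [← hfd]
    exact ((hwc.contDiffAt ((hO1.inter hO2).mem_nhds ⟨hy1, hy2⟩)).differentiableAt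
      one_ne_zero).hasFDerivAt
  have huniq := hwd.unique hwd2
  have h3 := congrArg (fun A : E3 →L[ℝ] ℝ => A v) huniq
  have p1 := e4_pair V F hV hF hp O1 hO1 ψ1 hψ1 h1 y hy1 v hw0
  have p2 := e4_pair V F hV hF hp O2 hO2 ψ2 hψ2 h2 y hy2 v hw0
  simp only [fderivInnerCLM_apply, ContinuousLinearMap.comp_apply, ContinuousLinearMap.prod_apply,
    ContinuousLinearMap.zero_apply, id_eq] at h3
  have h4 : (inner ℝ y ((fderiv ℝ ψ1 y - fderiv ℝ ψ2 y) v) : ℝ) = 0 := by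
    rw [ContinuousLinearMap.sub_apply, inner_sub_right, p1, p2, sub_zero]
  rw [h4, zero_add] at h3
  have h5 : (inner ℝ v v : ℝ) = 0 := h3
  exact hv0 ((inner_self_eq_zero (𝕜 := ℝ)).1 h5)

theorem heights_ae (V : Set E3) (hV : IsOpen V) (F : E3 → E3) (hF : ContDiffOn ℝ 1 F V)
    (hp : ∀ x ∈ V, ∀ v : E3, inner ℝ (F x) (fderiv ℝ F x v) = (0 : ℝ) → inner ℝ (F x) v = (0 : ℝ)) :
    ∀ᵐ y : E3, ∀ x1 ∈ V, ∀ x2 ∈ V, F x1 = y → F x2 = y → (fderiv ℝ F x1).det ≠ 0 → (fderiv ℝ F x2).det ≠ 0 →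
      inner ℝ y x1 = (inner ℝ y x2 : ℝ) → x1 = x2 := by
  set W : Set E3 := {x | x ∈ V ∧ (fderiv ℝ F x).det ≠ 0} with hW
  have hloc : ∀ x ∈ W, ∃ U ∈ 𝓝 x, ∃ O : Set E3, IsOpen O ∧ ∃ ψ : E3 → E3,
      (∀ z ∈ U, F z ∈ O ∧ ψ (F z) = z) ∧ ContDiffOn ℝ 1 ψ O ∧ ∀ y ∈ O, F (ψ y) = y ∧ ψ y ∈ V :=
    fun x hx => e4_local V hV F hF x hx.1 hx.2
  choose! U hU O hO ψ hψ1 hψ2 hψ3 using hloc
  obtain ⟨t, htW, htc, htU⟩ := TopologicalSpace.countable_cover_nhdsWithin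
    (fun x hx => mem_nhdsWithin_of_mem_nhds (hU x hx) : ∀ x ∈ W, U x ∈ 𝓝[W] x)
  have hnull : volume (⋃ m ∈ t, ⋃ n ∈ t, {y : E3 | y ∈ O m ∧ y ∈ O n ∧ ψ m y ≠ ψ n y ∧
      inner ℝ y (ψ m y) = (inner ℝ y (ψ n y) : ℝ)}) = 0 := by
    rw [measure_biUnion_null_iff htc]
    intro m hm
    rw [measure_biUnion_null_iff htc]
    intro n hn
    exact e4_null V hV F hF hp (O m) (O n) (hO m (htW hm)) (hO n (htW hn)) (ψ m) (ψ n)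
      (hψ2 m (htW hm)) (hψ2 n (htW hn)) (hψ3 m (htW hm)) (hψ3 n (htW hn))
  rw [ae_iff]
  refine measure_mono_null ?_ hnull
  intro y hy
  simp only [mem_setOf_eq, not_forall] at hy
  obtain ⟨x1, hx1, x2, hx2, e1, e2, d1, d2, hh, hne⟩ := hy
  obtain ⟨m, hm, hxm⟩ := mem_iUnion₂.1 (htU (show x1 ∈ W from ⟨hx1, d1⟩))
  obtain ⟨n, hn, hxn⟩ := mem_iUnion₂.1 (htU (show x2 ∈ W from ⟨hx2, d2⟩))
  refine mem_iUnion₂.2 ⟨m, hm, mem_iUnion₂.2 ⟨n, hn, ?_⟩⟩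
  obtain ⟨a1, a2⟩ := hψ1 m (htW hm) x1 hxm
  obtain ⟨b1, b2⟩ := hψ1 n (htW hn) x2 hxn
  rw [e1] at a1 a2
  rw [e2] at b1 b2
  refine ⟨a1, b1, ?_, ?_⟩
  · rw [a2, b2]; exact hne
  · rw [a2, b2]; exact hh

end H48U
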