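import Pool.Agent.Lib.H48U.Defs

set_option autoImplicit false

/-! # H48U, chunk E6 (M): two matrix identities

PROOF. `det_rank`: for `‖n‖ = 1` the matrix `(1 - n nᵀ) H` has `nᵀ (1 - n nᵀ) = 0`; `det (a n nᵀ + β M) = β³ det M + a β² nᵀ adj(M) n`
(the rank one part is linear in the determinant), `det M = 0`, `adj ((1 - n nᵀ) H) = adj H adj (1 - n nᵀ) = adj H n nᵀ`. Or
directly: `Matrix.det_fin_three`, `Matrix.adjugate_fin_three`, and `linear_combination (…) * (n₀² + n₁² + n₂² - 1)`; the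
difference of the two sides is divisible by that polynomial (for fixed `a β²`, first replace `M`).
`adj_plane`: for an orthonormal basis `n, v, w` the number `nᵀ adj(H) n` is the determinant of the 2×2 matrix of `H` on
`v, w` (for `n = v × w`: `Matrix.det_fin_three`, or: `adj` commutes with orthogonal conjugation). -/

open Matrix

namespace H48U

theorem det_rank (H : Matrix (Fin 3) (Fin 3) ℝ) (n : Fin 3 → ℝ) (hn : n 0 ^ 2 + n 1 ^ 2 + n 2 ^ 2 = 1) (a β : ℝ) :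
    (a • vecMulVec n n + β • ((1 - vecMulVec n n) * H)).det = a * β ^ 2 * (n ⬝ᵥ (H.adjugate *ᵥ n)) := by
  have h1 : (a • vecMulVec n n + β • ((1 - vecMulVec n n) * H)).det
      = a * β ^ 2 * (n ⬝ᵥ (H.adjugate *ᵥ n)) + β ^ 3 * (1 - (n 0 ^ 2 + n 1 ^ 2 + n 2 ^ 2)) * H.det := by
    simp only [Matrix.det_fin_three, Matrix.adjugate_fin_three, Matrix.add_apply, Matrix.smul_apply,
      Matrix.mul_apply, Matrix.sub_apply, Matrix.vecMulVec_apply, Fin.sum_univ_three, dotProduct, mulVec,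
      smul_eq_mul, Matrix.one_apply, Matrix.of_apply, Matrix.cons_val', Matrix.cons_val_zero, Matrix.cons_val_one,
      Matrix.cons_val_fin_one, Matrix.cons_val]
    norm_num [Fin.ext_iff]
    ring
  rw [h1, hn]
  ring

theorem adj_plane (H : Matrix (Fin 3) (Fin 3) ℝ) (hH : H.IsSymm) (n v w : Fin 3 → ℝ) (hn : n ⬝ᵥ n = 1) (hv : v ⬝ᵥ v = 1)
    (hw : w ⬝ᵥ w = 1) (hnv : n ⬝ᵥ v = 0) (hnw : n ⬝ᵥ w = 0) (hvw : v ⬝ᵥ w = 0) :
    n ⬝ᵥ (H.adjugate *ᵥ n) = (v ⬝ᵥ (H *ᵥ v)) * (w ⬝ᵥ (H *ᵥ w)) - (v ⬝ᵥ (H *ᵥ w)) ^ 2 := by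
  set P : Matrix (Fin 3) (Fin 3) ℝ := Matrix.of ![n, v, w] with hP
  have hPP : P * Pᵀ = 1 := by
    ext i j
    have h0 : (P * Pᵀ) i j = (![n, v, w] i) ⬝ᵥ (![n, v, w] j) := by
      simp only [Matrix.mul_apply, Matrix.transpose_apply, dotProduct, hP, Matrix.of_apply]
    rw [h0]
    have hvn : v ⬝ᵥ n = 0 := by rw [dotProduct_comm]; exact hnv
    have hwn : w ⬝ᵥ n = 0 := by rw [dotProduct_comm]; exact hnw
    have hwv : w ⬝ᵥ v = 0 := by rw [dotProduct_comm]; exact hvw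
    fin_cases i <;> fin_cases j <;> simp [hn, hv, hw, hnv, hnw, hvw, hvn, hwn, hwv]
  have hd : P.det * P.det = 1 := by
    have := congrArg Matrix.det hPP
    simpa [Matrix.det_mul, Matrix.det_transpose] using this
  have e1 : P.adjugate = P.det • Pᵀ := by
    calc P.adjugate = P.adjugate * (P * Pᵀ) := by rw [hPP, Matrix.mul_one]
      _ = (P.adjugate * P) * Pᵀ := by rw [Matrix.mul_assoc]
      _ = P.det • Pᵀ := by rw [Matrix.adjugate_mul]; simp
  have e2 : (Pᵀ).adjugate = P.det • P := by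
    calc (Pᵀ).adjugate = (P * Pᵀ) * (Pᵀ).adjugate := by rw [hPP, Matrix.one_mul]
      _ = P * (Pᵀ * (Pᵀ).adjugate) := by rw [Matrix.mul_assoc]
      _ = P.det • P := by rw [Matrix.mul_adjugate, Matrix.det_transpose]; simp
  set K : Matrix (Fin 3) (Fin 3) ℝ := P * H * Pᵀ with hK
  have hadj : K.adjugate = P * H.adjugate * Pᵀ := by
    rw [hK, Matrix.adjugate_mul_distrib, Matrix.adjugate_mul_distrib, e1, e2]
    rw [Matrix.smul_mul, Matrix.mul_smul, Matrix.mul_smul, smul_smul, hd, one_smul, Matrix.mul_assoc]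
  have hent : ∀ (M : Matrix (Fin 3) (Fin 3) ℝ) (i j : Fin 3),
      (P * M * Pᵀ) i j = (![n, v, w] i) ⬝ᵥ (M *ᵥ (![n, v, w] j)) := by
    intro M i j
    simp only [Matrix.mul_apply, Matrix.transpose_apply, dotProduct, mulVec, Fin.sum_univ_three, hP, Matrix.of_apply]
    ring
  have h00 : K.adjugate 0 0 = K 1 1 * K 2 2 - K 1 2 * K 2 1 := by
    rw [Matrix.adjugate_fin_three]; simp
  rw [hadj, hent] at h00
  have hsym : w ⬝ᵥ (H *ᵥ v) = v ⬝ᵥ (H *ᵥ w) := by
    rw [Matrix.dotProduct_mulVec, dotProduct_comm, ← Matrix.mulVec_transpose, hH.eq]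
  rw [hK, hent, hent, hent, hent] at h00
  simp only [Matrix.cons_val_zero, Matrix.cons_val_one, Matrix.cons_val] at h00
  rw [h00, hsym]
  ring

end H48U
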