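import Pool.Agent.Lib.H48U.E5
import Pool.Agent.Lib.H48U.E6

set_option autoImplicit false

/-! # H48U, chunk E7 (M/L): the Jacobian of `fm` is `gaussDens`

PROOF. With `g = grad θ x ≠ 0`, `n = g / ‖g‖`, `H = flatHess θ x` (symmetric), `ρ = (3 (θ x - c) + 1)^(1/3)`, `ρ' = ρ⁻²`:
`fderiv (fm) x v = ρ' ⟪g, v⟫ n + (ρ / ‖g‖) (H v - ⟪n, H v⟫ n)`, i.e. the matrix of `fderiv` in the standard basis is
`ρ' ‖g‖ n nᵀ + (ρ / ‖g‖) (1 - n nᵀ) H`; `LinearMap.det_toMatrix`/`ContinuousLinearMap.det`; `det_rank` gives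
`ρ' ‖g‖ ρ² / ‖g‖² nᵀ adj(H) n = nᵀ adj(H) n / ‖g‖ = gᵀ adj(H) g / ‖g‖³`. -/

open Set Filter Topology MeasureTheory Metric
open scoped ContDiff

namespace H48U

open Pool.Agent.Lib.PenroseSph (E3 pd)
open Pool.Agent.H44G (flatHess gaussDens)

theorem e7_contDiffAt (θ : E3 → ℝ) (c d : ℝ) (hc : Continuous θ) (hs : ContDiffOn ℝ ∞ θ {x | c < θ x ∧ θ x < d})
    (x : E3) (hx : x ∈ Vreg θ c d) : ContDiffAt ℝ ∞ θ x := by
  have ho : IsOpen {x | c < θ x ∧ θ x < d} :=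
    (isOpen_lt continuous_const hc).inter (isOpen_lt hc continuous_const)
  exact hs.contDiffAt (ho.mem_nhds hx.1)

/-- The matrix of the derivative of the gradient. -/
theorem hasFDeriv_grad (θ : E3 → ℝ) (c d : ℝ) (hc : Continuous θ) (hs : ContDiffOn ℝ ∞ θ {x | c < θ x ∧ θ x < d})
    (x : E3) (hx : x ∈ Vreg θ c d) :
    HasFDerivAt (grad θ) (Matrix.toEuclideanLin (flatHess θ x)).toContinuousLinearMap x ∧ (flatHess θ x).IsSymm := by
  have hcd := e7_contDiffAt θ c d hc hs x hx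
  have h1 : ContDiffAt ℝ 1 (fderiv ℝ θ) x := hcd.fderiv_right (m := 1) (WithTop.coe_le_coe.2 le_top)
  have h2 : HasFDerivAt (fderiv ℝ θ) (fderiv ℝ (fderiv ℝ θ) x) x :=
    (h1.differentiableAt one_ne_zero).hasFDerivAt
  have h3 : ∀ i : Fin 3, HasFDerivAt (pd i θ)
      ((ContinuousLinearMap.apply ℝ ℝ (EuclideanSpace.single i (1 : ℝ))).comp (fderiv ℝ (fderiv ℝ θ) x)) x := by
    intro i
    exact (ContinuousLinearMap.apply ℝ ℝ (EuclideanSpace.single i (1 : ℝ))).hasFDerivAt.comp x h2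
  have h4 : ∀ i j : Fin 3, flatHess θ x i j
      = fderiv ℝ (fderiv ℝ θ) x (EuclideanSpace.single i 1) (EuclideanSpace.single j 1) := by
    intro i j
    change fderiv ℝ (pd j θ) x (EuclideanSpace.single i 1) = _
    rw [(h3 j).fderiv]
    rfl
  have hsym : IsSymmSndFDerivAt ℝ θ x := by
    refine (hcd.of_le (m := 2) (WithTop.coe_le_coe.2 le_top)).isSymmSndFDerivAt ?_
    simp
  have h5 : (flatHess θ x).IsSymm := by
    ext i j
    rw [Matrix.transpose_apply, h4, h4]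
    exact hsym _ _
  refine ⟨?_, h5⟩
  rw [← hasFDerivWithinAt_univ, hasFDerivWithinAt_euclidean]
  intro i
  rw [hasFDerivWithinAt_univ]
  have h6 : HasFDerivAt (fun y => grad θ y i) 
      ((ContinuousLinearMap.apply ℝ ℝ (EuclideanSpace.single i (1 : ℝ))).comp (fderiv ℝ (fderiv ℝ θ) x)) x := h3 i
  have h7 : ((ContinuousLinearMap.apply ℝ ℝ (EuclideanSpace.single i (1 : ℝ))).comp (fderiv ℝ (fderiv ℝ θ) x))
      = (PiLp.proj 2 (fun _ : Fin 3 => ℝ) i) ∘L (Matrix.toEuclideanLin (flatHess θ x)).toContinuousLinearMap := by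
    ext v
    have hv : v = ∑ j, v j • EuclideanSpace.single j (1 : ℝ) := by
      ext k
      fin_cases k <;> simp [Fin.sum_univ_three]
    have hl : ((ContinuousLinearMap.apply ℝ ℝ (EuclideanSpace.single i (1 : ℝ))).comp (fderiv ℝ (fderiv ℝ θ) x)) v
        = ∑ j, v j * flatHess θ x j i := by
      change fderiv ℝ (fderiv ℝ θ) x v (EuclideanSpace.single i (1 : ℝ)) = _
      conv_lhs => rw [hv]
      simp [map_sum, h4]
    have hr : ((PiLp.proj 2 (fun _ : Fin 3 => ℝ) i) ∘L (Matrix.toEuclideanLin (flatHess θ x)).toContinuousLinearMap) v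
        = ∑ j, flatHess θ x i j * v j := by
      rfl
    rw [hl, hr]
    refine Finset.sum_congr rfl fun j _ => ?_
    rw [mul_comm, h5.apply]
  rw [← h7]
  exact h6

theorem e7_perp (θ : E3 → ℝ) (c d : ℝ) (hc : Continuous θ) (hs : ContDiffOn ℝ ∞ θ {x | c < θ x ∧ θ x < d})
    (x : E3) (hx : x ∈ Vreg θ c d) : ∃ l : E3 → ℝ, ∀ v : E3,
    fderiv ℝ (fm θ c) x v = ((3 * (θ x - c) + 1) ^ (1 / 3 : ℝ) * ‖grad θ x‖⁻¹) •
      (Matrix.toEuclideanLin (flatHess θ x) v) + l v • grad θ x := by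
  have hcd := e7_contDiffAt θ c d hc hs x hx
  have hg := (hasFDeriv_grad θ c d hc hs x hx).1
  have hg0 : grad θ x ≠ 0 := (grad_ne θ x).2 hx.2
  have h1 : DifferentiableAt ℝ (fun y => (3 * (θ y - c) + 1) ^ (1 / 3 : ℝ)) x := by
    have h0 : DifferentiableAt ℝ (fun y => 3 * (θ y - c) + 1) x :=
      ((((hcd.differentiableAt (by simp)).sub_const c).const_mul 3).add_const 1)
    refine h0.rpow_const ?_
    left
    have := hx.1.1
    have : 0 < 3 * (θ x - c) + 1 := by linarith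
    exact this.ne'
  have h2 : DifferentiableAt ℝ (fun y => ‖grad θ y‖⁻¹) x := by
    refine (hg.differentiableAt.norm ℝ hg0).inv ?_
    exact norm_ne_zero_iff.2 hg0
  have h3 := (h1.mul h2).hasFDerivAt.smul hg
  have h4 : HasFDerivAt (fm θ c) _ x := h3
  refine ⟨fun v => fderiv ℝ ((fun y => (3 * (θ y - c) + 1) ^ (1 / 3 : ℝ)) * (fun y => ‖grad θ y‖⁻¹)) x v, fun v => ?_⟩
  rw [h4.fderiv]
  simp

theorem e7_par (θ : E3 → ℝ) (c d : ℝ) (hc : Continuous θ) (hs : ContDiffOn ℝ ∞ θ {x | c < θ x ∧ θ x < d})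
    (x : E3) (hx : x ∈ Vreg θ c d) (v : E3) :
    ‖fm θ c x‖ * inner ℝ (fm θ c x) (fderiv ℝ (fm θ c) x v) = inner ℝ (grad θ x) v := by
  have hcd := e7_contDiffAt θ c d hc hs x hx
  have hth : HasFDerivAt θ (fderiv ℝ θ x) x := (hcd.differentiableAt (by simp)).hasFDerivAt
  have ho := isOpen_Vreg θ c d hc hs
  have hfm : HasFDerivAt (fm θ c) (fderiv ℝ (fm θ c) x) x :=
    (((fm_smooth θ c d hc hs).contDiffAt (ho.mem_nhds hx)).differentiableAt one_ne_zero).hasFDerivAt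
  have h1 : HasFDerivAt (fun y => (inner ℝ (fm θ c y) (fm θ c y) : ℝ) ^ 3) _ x := (hfm.inner ℝ hfm).pow 3
  have h2 : HasFDerivAt (fun y => (3 * (θ y - c) + 1) ^ 2) _ x :=
    (((hth.sub_const c).const_mul 3).add_const 1).pow 2
  have h3 : (fun y => (inner ℝ (fm θ c y) (fm θ c y) : ℝ) ^ 3) =ᶠ[𝓝 x] fun y => (3 * (θ y - c) + 1) ^ 2 := by
    filter_upwards [ho.mem_nhds hx] with y hy
    have := fm_norm θ c d y hy
    rw [real_inner_self_eq_norm_sq, ← this]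
    ring
  have h4 := h1.unique (h2.congr_of_eventuallyEq h3)
  have h5 := DFunLike.congr_fun h4 v
  simp [fderivInnerCLM_apply] at h5
  have hN := fm_norm θ c d x hx
  have hpos : 0 < 3 * (θ x - c) + 1 := by
    have := hx.1.1
    linarith
  have hNp : 0 < ‖fm θ c x‖ := by
    rcases (norm_nonneg (fm θ c x)).eq_or_lt with h | h
    · rw [← h] at hN
      norm_num at hN
      linarith
    · exact h
  rw [inner_grad]
  rw [real_inner_comm (fderiv ℝ (fm θ c) x v)] at h5 ⊢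
  have hN3 : (0 : ℝ) < ‖fm θ c x‖ ^ 3 := pow_pos hNp 3
  have h6 : (6 * ‖fm θ c x‖ ^ 3) * (‖fm θ c x‖ * inner ℝ ((fderiv ℝ (fm θ c) x) v) (fm θ c x))
      = (6 * ‖fm θ c x‖ ^ 3) * (fderiv ℝ θ x) v := by
    have h7 : (2 * (3 * (θ x - c)) + 2) = 2 * ‖fm θ c x‖ ^ 3 := by rw [hN]; ring
    rw [h7] at h5
    linear_combination h5
  exact mul_left_cancel₀ (by positivity) h6

theorem e7_fderiv (θ : E3 → ℝ) (c d : ℝ) (hc : Continuous θ) (hs : ContDiffOn ℝ ∞ θ {x | c < θ x ∧ θ x < d})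
    (x : E3) (hx : x ∈ Vreg θ c d) (ρ G : ℝ) (hG : G = ‖grad θ x‖) (hρ : ρ = (3 * (θ x - c) + 1) ^ (1 / 3 : ℝ)) :
    fderiv ℝ (fm θ c) x = (Matrix.toEuclideanLin ((ρ⁻¹ ^ 2 * G) • Matrix.vecMulVec (fun i => G⁻¹ * grad θ x i)
        (fun i => G⁻¹ * grad θ x i) + (ρ * G⁻¹) • ((1 - Matrix.vecMulVec (fun i => G⁻¹ * grad θ x i)
        (fun i => G⁻¹ * grad θ x i)) * flatHess θ x))).toContinuousLinearMap := by
  obtain ⟨l, hl⟩ := e7_perp θ c d hc hs x hx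
  have hpos : 0 < 3 * (θ x - c) + 1 := by
    have := hx.1.1
    linarith
  have hρ0 : 0 < ρ := by rw [hρ]; exact Real.rpow_pos_of_pos hpos _
  have hG0 : 0 < G := by rw [hG]; exact norm_pos_iff.2 ((grad_ne θ x).2 hx.2)
  have hfm : fm θ c x = (ρ * G⁻¹) • grad θ x := by rw [hρ, hG]; rfl
  have hN : ‖fm θ c x‖ = ρ := by
    rw [hfm, norm_smul, ← hG, Real.norm_of_nonneg (by positivity)]
    field_simp
  ext v i
  have hp := e7_par θ c d hc hs x hx v
  have hl' := hl v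
  rw [← hρ, ← hG] at hl'
  rw [hN, hfm, hl', inner_add_right, real_inner_smul_left, real_inner_smul_left, real_inner_smul_right,
    real_inner_smul_right, real_inner_self_eq_norm_sq, ← hG] at hp
  have hlv : l v = ρ⁻¹ ^ 2 * G⁻¹ * inner ℝ (grad θ x) v
      - ρ * G⁻¹ ^ 3 * inner ℝ (grad θ x) (Matrix.toEuclideanLin (flatHess θ x) v) := by
    field_simp
    field_simp at hp
    linear_combination hp
  rw [hl', hlv]
  have hin : ∀ w : E3, (inner ℝ (grad θ x) w : ℝ) = ∑ j, grad θ x j * w j := by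
    intro w
    rw [PiLp.inner_apply]
    exact Finset.sum_congr rfl fun j _ => by simp [mul_comm]
  have hM : ∀ (M : Matrix (Fin 3) (Fin 3) ℝ) (w : E3) (k : Fin 3),
      ((Matrix.toEuclideanLin M).toContinuousLinearMap w) k = ∑ j : Fin 3, M k j * w j := fun _ _ _ => rfl
  have hM' : ∀ (M : Matrix (Fin 3) (Fin 3) ℝ) (w : E3) (k : Fin 3),
      (Matrix.toEuclideanLin M w) k = ∑ j : Fin 3, M k j * w j := fun _ _ _ => rfl
  rw [hin, hin, hM, PiLp.add_apply, PiLp.smul_apply, PiLp.smul_apply]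
  simp only [hM', Fin.sum_univ_three, Matrix.add_apply, Matrix.smul_apply, Matrix.mul_apply, Matrix.sub_apply,
    Matrix.vecMulVec_apply, Matrix.one_apply, smul_eq_mul]
  have hGG : G * G⁻¹ ^ 2 = G⁻¹ := by field_simp
  fin_cases i
  · simp
    linear_combination (-(ρ⁻¹ ^ 2 * (v 0 * grad θ x 0 + v 1 * grad θ x 1 + v 2 * grad θ x 2) * grad θ x 0)) * hGG
  · simp
    linear_combination (-(ρ⁻¹ ^ 2 * (v 0 * grad θ x 0 + v 1 * grad θ x 1 + v 2 * grad θ x 2) * grad θ x 1)) * hGG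
  · simp
    linear_combination (-(ρ⁻¹ ^ 2 * (v 0 * grad θ x 0 + v 1 * grad θ x 1 + v 2 * grad θ x 2) * grad θ x 2)) * hGG

theorem fm_det (θ : E3 → ℝ) (c d : ℝ) (hc : Continuous θ) (hs : ContDiffOn ℝ ∞ θ {x | c < θ x ∧ θ x < d})
    (x : E3) (hx : x ∈ Vreg θ c d) : (fderiv ℝ (fm θ c) x).det = gaussDens θ x := by
  have hpos : 0 < 3 * (θ x - c) + 1 := by
    have := hx.1.1
    linarith
  obtain ⟨G, hG⟩ : ∃ G, G = ‖grad θ x‖ := ⟨_, rfl⟩
  obtain ⟨ρ, hρ⟩ : ∃ ρ, ρ = (3 * (θ x - c) + 1) ^ (1 / 3 : ℝ) := ⟨_, rfl⟩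
  have hρ0 : 0 < ρ := by rw [hρ]; exact Real.rpow_pos_of_pos hpos _
  have hG0 : 0 < G := by rw [hG]; exact norm_pos_iff.2 ((grad_ne θ x).2 hx.2)
  have hsq : grad θ x 0 ^ 2 + grad θ x 1 ^ 2 + grad θ x 2 ^ 2 = G ^ 2 := by
    rw [hG, EuclideanSpace.norm_sq_eq, Fin.sum_univ_three]
    simp
  rw [e7_fderiv θ c d hc hs x hx ρ G hG hρ]
  have hdet : ∀ M : Matrix (Fin 3) (Fin 3) ℝ, ((Matrix.toEuclideanLin M).toContinuousLinearMap).det = M.det := by
    intro M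
    change LinearMap.det (Matrix.toEuclideanLin M) = M.det
    rw [Matrix.toEuclideanLin_eq_toLin_orthonormal, LinearMap.det_toLin]
  rw [hdet, det_rank _ _ ?_]
  · unfold gaussDens
    rw [← norm_grad, ← hG]
    have h0 : ∀ i, grad θ x i = pd i θ x := fun i => rfl
    simp only [dotProduct, Matrix.mulVec, h0, Fin.sum_univ_three]
    field_simp
  · have : (G⁻¹ * grad θ x 0) ^ 2 + (G⁻¹ * grad θ x 1) ^ 2 + (G⁻¹ * grad θ x 2) ^ 2
        = G⁻¹ ^ 2 * (grad θ x 0 ^ 2 + grad θ x 1 ^ 2 + grad θ x 2 ^ 2) := by ring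
    rw [this, hsq]
    field_simp

end H48U
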