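import Pool.Agent.Lib.H48U.B10
import Pool.Agent.Lib.H48U.E7

set_option autoImplicit false

/-! # H48U, chunk E8 (M): types and the sign of `gaussDens`

PROOF. `gaussDens θ x = gᵀ adj(H) g / ‖g‖³`, `g = l y`, `l > 0`; choose an orthonormal basis `v, w` of the plane orthogonal
to `y`, so `adj_plane` gives `gaussDens = (D2 v v D2 w w - (D2 v w)²) / ‖g‖` (`D2 θ x v w = v ⬝ᵥ H w`, bilinear
symmetric). Positive: the form is definite on the plane (both diagonal entries have the same sign; complete the square).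
Negative: a form with negative determinant on a plane is indefinite (if `D2 v v > 0` take
`D2 v v • w - D2 v w • v`; if `< 0` the same; if `= 0` then `D2 v w ≠ 0` and `w + k v` with suitable `k`). -/

open Set Filter Topology MeasureTheory Metric
open scoped ContDiff

namespace H48U

open Pool.Agent.Lib.PenroseSph (E3 pd)
open Pool.Agent.H44G (flatHess gaussDens)

theorem e8_onb (y : E3) (hy : y ≠ 0) : ∃ v w : E3, inner ℝ y v = (0 : ℝ) ∧ inner ℝ y w = (0 : ℝ) ∧
    inner ℝ v v = (1 : ℝ) ∧ inner ℝ w w = (1 : ℝ) ∧ inner ℝ v w = (0 : ℝ) ∧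
    ∀ u : E3, inner ℝ y u = (0 : ℝ) → ∃ s t : ℝ, u = s • v + t • w := by
  have hfact : Fact (Module.finrank ℝ E3 = 2 + 1) := ⟨by simp⟩
  have h1 : Module.finrank ℝ (Submodule.span ℝ {y})ᗮ = 2 :=
    Submodule.finrank_orthogonal_span_singleton hy
  let B := (stdOrthonormalBasis ℝ (Submodule.span ℝ {y})ᗮ).reindex (finCongr h1)
  have hB : ∀ i j, inner ℝ ((B i : (Submodule.span ℝ {y})ᗮ) : E3) ((B j : (Submodule.span ℝ {y})ᗮ) : E3)
      = if i = j then (1 : ℝ) else 0 := fun i j => orthonormal_iff_ite.mp B.orthonormal i j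
  refine ⟨B 0, B 1, ?_, ?_, ?_, ?_, ?_, ?_⟩
  · exact Submodule.mem_orthogonal_singleton_iff_inner_right.mp (B 0).2
  · exact Submodule.mem_orthogonal_singleton_iff_inner_right.mp (B 1).2
  · exact hB 0 0
  · exact hB 1 1
  · exact hB 0 1
  · intro u hu
    have hu' : u ∈ (Submodule.span ℝ {y})ᗮ := Submodule.mem_orthogonal_singleton_iff_inner_right.mpr hu
    have h2 := B.sum_repr ⟨u, hu'⟩
    rw [Fin.sum_univ_two] at h2
    refine ⟨B.repr ⟨u, hu'⟩ 0, B.repr ⟨u, hu'⟩ 1, ?_⟩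
    have h3 := congrArg (fun z : (Submodule.span ℝ {y})ᗮ => (z : E3)) h2
    exact h3.symm

theorem e8_inner (v w : E3) : inner ℝ v w = (v.ofLp ⬝ᵥ w.ofLp : ℝ) := by
  simp only [PiLp.inner_apply, dotProduct, Fin.sum_univ_three, RCLike.inner_apply, conj_trivial]
  ring

/-- the second derivative is given by the matrix `flatHess` -/
theorem e8_D2 (θ : E3 → ℝ) (c d : ℝ) (hc : Continuous θ) (hs : ContDiffOn ℝ ∞ θ {x | c < θ x ∧ θ x < d})
    (x : E3) (hx : x ∈ Vreg θ c d) (v w : E3) :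
    D2 θ x v w = (v.ofLp ⬝ᵥ (flatHess θ x).mulVec w.ofLp : ℝ) := by
  obtain ⟨h1, hsymm⟩ := hasFDeriv_grad θ c d hc hs x hx
  have h2 : fderiv ℝ θ = fun z => innerSL ℝ (grad θ z) := by
    funext z
    ext u
    exact (inner_grad θ z u).symm
  have h3 : HasFDerivAt (fun z => innerSL ℝ (grad θ z))
      ((innerSL ℝ).comp (Matrix.toEuclideanLin (flatHess θ x)).toContinuousLinearMap) x :=
    (innerSL ℝ).hasFDerivAt.comp x h1
  unfold D2
  rw [h2, h3.fderiv]
  change inner ℝ (Matrix.toEuclideanLin (flatHess θ x) v) w = _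
  rw [e8_inner]
  change (flatHess θ x).mulVec v.ofLp ⬝ᵥ w.ofLp = _
  rw [dotProduct_comm, Matrix.dotProduct_mulVec, ← Matrix.mulVec_transpose, hsymm.eq, dotProduct_comm]

theorem e8_main (θ : E3 → ℝ) (c d : ℝ) (hc : Continuous θ) (hs : ContDiffOn ℝ ∞ θ {x | c < θ x ∧ θ x < d})
    (x y : E3) (hx : x ∈ Vreg θ c d) (hcr : Crit θ y x) :
    ∃ v w : E3, inner ℝ y v = (0 : ℝ) ∧ inner ℝ y w = (0 : ℝ) ∧
      (∀ u : E3, inner ℝ y u = (0 : ℝ) → ∃ s t : ℝ, u = s • v + t • w) ∧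
      (∀ s t : ℝ, D2 θ x (s • v + t • w) (s • v + t • w)
        = s ^ 2 * D2 θ x v v + 2 * s * t * D2 θ x v w + t ^ 2 * D2 θ x w w) ∧
      ∃ k : ℝ, 0 < k ∧ gaussDens θ x = k * (D2 θ x v v * D2 θ x w w - D2 θ x v w ^ 2) := by
  obtain ⟨l, hl, hcr⟩ := hcr
  have hy : y ≠ 0 := by
    rintro rfl
    apply hx.2
    ext v
    rw [hcr v]
    simp
  obtain ⟨-, hsymm⟩ := hasFDeriv_grad θ c d hc hs x hx
  obtain ⟨v, w, hv, hw, hvv, hww, hvw, hsp⟩ := e8_onb y hy
  have hyn : 0 < ‖y‖ := norm_pos_iff.mpr hy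
  set n : E3 := ‖y‖⁻¹ • y with hn
  have hnn : inner ℝ n n = (1 : ℝ) := by
    rw [hn, inner_smul_left, inner_smul_right, real_inner_self_eq_norm_sq]
    simp only [conj_trivial]
    field_simp
  have hnv : inner ℝ n v = (0 : ℝ) := by
    rw [hn, inner_smul_left, hv, mul_zero]
  have hnw : inner ℝ n w = (0 : ℝ) := by
    rw [hn, inner_smul_left, hw, mul_zero]
  rw [e8_inner] at hnn hnv hnw hvv hww hvw
  have hadj := adj_plane (flatHess θ x) hsymm n.ofLp v.ofLp w.ofLp hnn hvv hww hnv hnw hvw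
  have hg : grad θ x = (l * ‖y‖) • n := by
    rw [hn, smul_smul]
    have h1 : l * ‖y‖ * ‖y‖⁻¹ = l := by field_simp
    rw [h1]
    apply ext_inner_right ℝ
    intro u
    rw [inner_grad, hcr, inner_smul_left]
    simp
  have hgp : ∀ i, pd i θ x = l * ‖y‖ * n.ofLp i := by
    intro i
    have h1 := congrArg (fun z : E3 => z.ofLp i) hg
    exact h1
  have hsq : ∑ i, pd i θ x ^ 2 = (l * ‖y‖) ^ 2 := by
    have h1 : n.ofLp ⬝ᵥ n.ofLp = ∑ i, n.ofLp i ^ 2 := by
      simp only [dotProduct, sq]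
    rw [h1] at hnn
    simp only [hgp, mul_pow]
    rw [← Finset.mul_sum, hnn, mul_one]
  have hly : 0 < l * ‖y‖ := mul_pos hl hyn
  refine ⟨v, w, hv, hw, hsp, ?_, (l * ‖y‖)⁻¹, inv_pos.mpr hly, ?_⟩
  · intro s t
    have h1 : D2 θ x w v = D2 θ x v w := by
      rw [e8_D2 θ c d hc hs x hx, e8_D2 θ c d hc hs x hx, Matrix.dotProduct_mulVec,
        ← Matrix.mulVec_transpose, hsymm.eq, dotProduct_comm]
    unfold D2 at h1 ⊢
    simp only [map_add, map_smul, ContinuousLinearMap.add_apply, ContinuousLinearMap.smul_apply,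
      smul_eq_mul]
    rw [h1]
    ring
  · have hD1 := e8_D2 θ c d hc hs x hx v v
    have hD2 := e8_D2 θ c d hc hs x hx w w
    have hD3 := e8_D2 θ c d hc hs x hx v w
    rw [hD1, hD2, hD3, ← hadj]
    unfold gaussDens
    rw [hsq, Real.sqrt_sq hly.le]
    have h2 : ∑ i, ∑ j, (flatHess θ x).adjugate i j * pd i θ x * pd j θ x
        = (l * ‖y‖) ^ 2 * (n.ofLp ⬝ᵥ ((flatHess θ x).adjugate.mulVec n.ofLp)) := by
      simp only [hgp, dotProduct, Matrix.mulVec, Fin.sum_univ_three]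
      ring
    rw [h2]
    field_simp

theorem type_pos (θ : E3 → ℝ) (c d : ℝ) (hc : Continuous θ) (hs : ContDiffOn ℝ ∞ θ {x | c < θ x ∧ θ x < d})
    (x y : E3) (hx : x ∈ Vreg θ c d) (hcr : Crit θ y x) (hp : 0 < gaussDens θ x) : PosT θ y x ∨ NegT θ y x := by
  obtain ⟨v, w, hv, hw, hsp, hq, k, hk, hgd⟩ := e8_main θ c d hc hs x y hx hcr
  rw [hgd] at hp
  have hD : 0 < D2 θ x v v * D2 θ x w w - D2 θ x v w ^ 2 := by
    by_contra hcon
    push Not at hcon
    have := mul_nonpos_of_nonneg_of_nonpos hk.le hcon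
    linarith
  have ha : D2 θ x v v ≠ 0 := by
    intro h0
    rw [h0, zero_mul] at hD
    have := sq_nonneg (D2 θ x v w)
    linarith
  -- the completed square
  have hsqr : ∀ s t : ℝ, D2 θ x v v * (s ^ 2 * D2 θ x v v + 2 * s * t * D2 θ x v w + t ^ 2 * D2 θ x w w)
      = (s * D2 θ x v v + t * D2 θ x v w) ^ 2
        + t ^ 2 * (D2 θ x v v * D2 θ x w w - D2 θ x v w ^ 2) := by
    intro s t
    ring
  have hpos : ∀ s t : ℝ, s • v + t • w ≠ 0 →
      0 < D2 θ x v v * (s ^ 2 * D2 θ x v v + 2 * s * t * D2 θ x v w + t ^ 2 * D2 θ x w w) := by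
    intro s t hst
    rw [hsqr]
    by_cases ht : t = 0
    · have hs0 : s ≠ 0 := by
        rintro rfl
        apply hst
        rw [ht]
        simp
      rw [ht]
      have h1 : s * D2 θ x v v ≠ 0 := mul_ne_zero hs0 ha
      have h2 : 0 < (s * D2 θ x v v) ^ 2 := by positivity
      have h3 : (s * D2 θ x v v + 0 * D2 θ x v w) ^ 2
          + 0 ^ 2 * (D2 θ x v v * D2 θ x w w - D2 θ x v w ^ 2) = (s * D2 θ x v v) ^ 2 := by ring
      rw [h3]
      exact h2
    · have h1 : 0 < t ^ 2 := by positivity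
      have h2 := mul_pos h1 hD
      have h3 := sq_nonneg (s * D2 θ x v v + t * D2 θ x v w)
      linarith
  rcases lt_or_gt_of_ne ha with hneg | hpos'
  · right
    intro u hu hu0
    obtain ⟨s, t, rfl⟩ := hsp u hu
    rw [hq]
    have h1 := hpos s t hu0
    by_contra hcon
    push Not at hcon
    have := mul_nonpos_of_nonpos_of_nonneg hneg.le hcon
    linarith
  · left
    intro u hu hu0
    obtain ⟨s, t, rfl⟩ := hsp u hu
    rw [hq]
    have h1 := hpos s t hu0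
    by_contra hcon
    push Not at hcon
    have := mul_nonpos_of_nonneg_of_nonpos hpos'.le hcon
    linarith

theorem type_neg (θ : E3 → ℝ) (c d : ℝ) (hc : Continuous θ) (hs : ContDiffOn ℝ ∞ θ {x | c < θ x ∧ θ x < d})
    (x y : E3) (hx : x ∈ Vreg θ c d) (hcr : Crit θ y x) (hp : gaussDens θ x < 0) : IndT θ y x := by
  obtain ⟨v, w, hv, hw, hsp, hq, k, hk, hgd⟩ := e8_main θ c d hc hs x y hx hcr
  rw [hgd] at hp
  have hD : D2 θ x v v * D2 θ x w w - D2 θ x v w ^ 2 < 0 := by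
    by_contra hcon
    push Not at hcon
    have := mul_nonneg hk.le hcon
    linarith
  have hperp : ∀ s t : ℝ, inner ℝ y (s • v + t • w) = (0 : ℝ) := by
    intro s t
    rw [inner_add_right, inner_smul_right, inner_smul_right, hv, hw]
    simp
  rcases lt_trichotomy (D2 θ x v v) 0 with ha | ha | ha
  · refine ⟨(-D2 θ x v w) • v + (D2 θ x v v) • w, v, hperp _ _, hv, ?_, ha⟩
    rw [hq]
    have h1 : (-D2 θ x v w) ^ 2 * D2 θ x v v + 2 * (-D2 θ x v w) * D2 θ x v v * D2 θ x v w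
        + D2 θ x v v ^ 2 * D2 θ x w w
        = D2 θ x v v * (D2 θ x v v * D2 θ x w w - D2 θ x v w ^ 2) := by ring
    rw [h1]
    exact mul_pos_of_neg_of_neg ha hD
  · have he : D2 θ x v w ≠ 0 := by
      intro h0
      rw [ha, h0] at hD
      simp at hD
    refine ⟨((1 - D2 θ x w w) / (2 * D2 θ x v w)) • v + (1 : ℝ) • w,
      ((-1 - D2 θ x w w) / (2 * D2 θ x v w)) • v + (1 : ℝ) • w, hperp _ _, hperp _ _, ?_, ?_⟩
    · rw [hq, ha]
      have h1 : ((1 - D2 θ x w w) / (2 * D2 θ x v w)) ^ 2 * 0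
          + 2 * ((1 - D2 θ x w w) / (2 * D2 θ x v w)) * 1 * D2 θ x v w + 1 ^ 2 * D2 θ x w w = 1 := by
        field_simp
        ring
      rw [h1]
      exact one_pos
    · rw [hq, ha]
      have h1 : ((-1 - D2 θ x w w) / (2 * D2 θ x v w)) ^ 2 * 0
          + 2 * ((-1 - D2 θ x w w) / (2 * D2 θ x v w)) * 1 * D2 θ x v w + 1 ^ 2 * D2 θ x w w = -1 := by
        field_simp
        ring
      rw [h1]
      norm_num
  · refine ⟨v, (-D2 θ x v w) • v + (D2 θ x v v) • w, hv, hperp _ _, ha, ?_⟩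
    rw [hq]
    have h1 : (-D2 θ x v w) ^ 2 * D2 θ x v v + 2 * (-D2 θ x v w) * D2 θ x v v * D2 θ x v w
        + D2 θ x v v ^ 2 * D2 θ x w w
        = D2 θ x v v * (D2 θ x v v * D2 θ x w w - D2 θ x v w ^ 2) := by ring
    rw [h1]
    exact mul_neg_of_pos_of_neg ha hD

end H48U
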