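import Pool.Agent.Lib.H48U.E5

set_option autoImplicit false

/-! # H48U, chunk E9 (M): the fibres of `fm` and the integral of `H`

PROOF. `fiber_iff`: `fm θ c x = y` gives `3 (θ x - c) + 1 = ‖y‖³` (`fm_norm`) and `grad θ x = l y`, `l > 0`; conversely
`Crit θ y x` gives `grad θ x = l y`, so `fm θ c x = (3 (θ x - c) + 1)^(1/3) y / ‖y‖ = y`.
`integral_H`: `integral_fun_norm_addHaar` (`∫ f ‖x‖ = 3 vol(ball) ∫_{r > 0} r² f r`), `EuclideanSpace.volume_ball` in
dimension 3 (`4π/3`), substitution `t = c + (r³ - 1) / 3`, `dt = r² dr` on `(0, ∞)`, `t > c - 1/3`; `η = 0` for `t ≤ c`. -/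

open Set Filter Topology MeasureTheory Metric
open scoped ContDiff

namespace H48U

open Pool.Agent.Lib.PenroseSph (E3 pd)

theorem fiber_iff (θ : E3 → ℝ) (c d : ℝ) (x y : E3) (hy : y ≠ 0) (hx : x ∈ Vreg θ c d) :
    fm θ c x = y ↔ θ x = c + (‖y‖ ^ 3 - 1) / 3 ∧ Crit θ y x := by
  have hg : grad θ x ≠ 0 := (grad_ne θ x).2 hx.2
  have hgn : 0 < ‖grad θ x‖ := norm_pos_iff.2 hg
  have hyn : 0 < ‖y‖ := norm_pos_iff.2 hy
  have hA0 : 0 < 3 * (θ x - c) + 1 := by have := hx.1.1; linarith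
  have hA : 0 < (3 * (θ x - c) + 1) ^ (1 / 3 : ℝ) := Real.rpow_pos_of_pos hA0 _
  constructor
  · intro h
    have h1 := fm_norm θ c d x hx
    rw [h] at h1
    refine ⟨by linarith, ‖grad θ x‖ / (3 * (θ x - c) + 1) ^ (1 / 3 : ℝ), by positivity, fun v => ?_⟩
    rw [← inner_grad θ x v, ← h]
    unfold fm
    rw [real_inner_smul_left]
    field_simp
  · rintro ⟨h1, l, hl, h2⟩
    have h3 : grad θ x = l • y := by
      have h4 : ∀ v : E3, inner ℝ (grad θ x - l • y) v = (0 : ℝ) := by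
        intro v
        rw [inner_sub_left, real_inner_smul_left, inner_grad, h2 v, sub_self]
      exact sub_eq_zero.1 (inner_self_eq_zero.1 (h4 (grad θ x - l • y)))
    have h5 : (3 * (θ x - c) + 1) ^ (1 / 3 : ℝ) = ‖y‖ := by
      have h6 : 3 * (θ x - c) + 1 = ‖y‖ ^ (3 : ℕ) := by rw [h1]; ring
      rw [h6, ← Real.rpow_natCast, ← Real.rpow_mul hyn.le]
      norm_num
    unfold fm
    rw [h5, h3, norm_smul, Real.norm_of_nonneg hl.le, smul_smul]
    have h7 : ‖y‖ * (l * ‖y‖)⁻¹ * l = 1 := by field_simp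
    rw [h7, one_smul]

theorem integral_H (c d : ℝ) (η : ℝ → ℝ) (hη : Continuous η) (hηc : HasCompactSupport η) (hs : tsupport η ⊆ Ioo c d) :
    ∫ y : E3, η (c + (‖y‖ ^ 3 - 1) / 3) = 4 * Real.pi * ∫ t, η t := by
  have h1 := MeasureTheory.integral_fun_norm_addHaar (volume : Measure E3)
    (fun r : ℝ => η (c + (r ^ 3 - 1) / 3))
  have hball : (volume : Measure E3).real (ball 0 1) = Real.pi * 4 / 3 := by
    rw [Measure.real, EuclideanSpace.volume_ball_fin_three]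
    simp only [ENNReal.ofReal_one, one_pow, one_mul]
    exact ENNReal.toReal_ofReal (by positivity)
  rw [h1, hball, finrank_euclideanSpace_fin]
  have himg : (fun r : ℝ => c + (r ^ 3 - 1) / 3) '' Ioi 0 = Ioi (c - 1 / 3) := by
    ext t
    constructor
    · rintro ⟨r, hr, rfl⟩
      have : (0 : ℝ) < r ^ 3 := pow_pos hr 3
      show c - 1 / 3 < c + (r ^ 3 - 1) / 3
      linarith
    · intro ht
      have ht' : 0 < 3 * (t - c) + 1 := by have : c - 1 / 3 < t := ht; linarith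
      refine ⟨(3 * (t - c) + 1) ^ (1 / 3 : ℝ), Real.rpow_pos_of_pos ht' _, ?_⟩
      have h6 : ((3 * (t - c) + 1) ^ (1 / 3 : ℝ)) ^ 3 = 3 * (t - c) + 1 := by
        rw [← Real.rpow_natCast, ← Real.rpow_mul ht'.le]
        norm_num
      show c + (((3 * (t - c) + 1) ^ (1 / 3 : ℝ)) ^ 3 - 1) / 3 = t
      rw [h6]; ring
  have hinj : InjOn (fun r : ℝ => c + (r ^ 3 - 1) / 3) (Ioi 0) := by
    intro r hr r' hr' h
    have h2 : r ^ 3 = r' ^ 3 := by
      have : c + (r ^ 3 - 1) / 3 = c + (r' ^ 3 - 1) / 3 := h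
      linarith
    exact (pow_left_inj₀ (le_of_lt hr) (le_of_lt hr') (by norm_num)).1 h2
  have hder : ∀ r ∈ Ioi (0 : ℝ), HasDerivWithinAt (fun r : ℝ => c + (r ^ 3 - 1) / 3) (r ^ 2) (Ioi 0) r := by
    intro r _
    have h3 : HasDerivAt (fun r : ℝ => c + (r ^ 3 - 1) / 3) ((3 : ℕ) * r ^ (3 - 1) / 3) r :=
      (((hasDerivAt_pow 3 r).sub_const 1).div_const 3).const_add c
    have h4 : ((3 : ℕ) : ℝ) * r ^ (3 - 1) / 3 = r ^ 2 := by norm_num
    rw [h4] at h3
    exact h3.hasDerivWithinAt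
  have h2 := integral_image_eq_integral_abs_deriv_smul measurableSet_Ioi hder hinj η
  rw [himg] at h2
  have h3 : ∫ t in Ioi (c - 1 / 3), η t = ∫ t, η t := by
    refine setIntegral_eq_integral_of_forall_compl_eq_zero fun t ht => ?_
    have h4 : t ∉ tsupport η := by
      intro h5
      have h6 := (hs h5).1
      exact ht (show c - 1 / 3 < t by linarith)
    exact image_eq_zero_of_notMem_tsupport h4
  rw [h3] at h2
  have h4 : ∫ r in Ioi (0 : ℝ), r ^ (3 - 1) • η (c + (r ^ 3 - 1) / 3) = ∫ t, η t := by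
    rw [h2]
    refine setIntegral_congr_fun measurableSet_Ioi fun r hr => ?_
    show r ^ (3 - 1) • η (c + (r ^ 3 - 1) / 3) = |r ^ 2| • η (c + (r ^ 3 - 1) / 3)
    rw [abs_of_nonneg (sq_nonneg r)]
  rw [h4]
  simp only [smul_eq_mul, nsmul_eq_mul]
  push_cast
  ring

end H48U
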