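import Pool.Agent.Lib.H48U.D2
import Pool.Agent.Lib.H48U.E2
import Pool.Agent.Lib.H48U.E4
import Pool.Agent.Lib.H48U.E8
import Pool.Agent.Lib.H48U.E9

set_option autoImplicit false

/-! # H48U, chunk MAIN (M/L): the inequality for almost every level

PROOF. `V = Vreg θ c d`, `F = fm θ c`, `H y = η (c + (‖y‖³ - 1) / 3)` (continuous, compactly supported; `H (F x) = η (θ x)` on `V`),
`K = {x | θ x ∈ tsupport η}` (closed, bounded by `hout`, contained in `V` by `hreg`). The left side is
`∫_V H (F x) det = ∫_V η (θ x) gaussDens θ x` (`fm_det`; outside `V` `η (θ x) = 0`). `area_le`: `hN` for almost every `y`: use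
`heights_ae` (`fm_perp`). Let `H y ≠ 0`, all points of the fibre regular; `t = c + (‖y‖³ - 1) / 3 ∈ tsupport η ⊆ (c, d)`,
`y ≠ 0` (else `t < c`). The level `t` is regular (`hreg`), `Lev θ t (max R 1)` by `hconn`, `hout`. The fibre is
`{θ x = t ∧ Crit θ y x}` (`fiber_iff`), finite (`fiber_finite`), `P`, `N` the points with `det > 0`, `det < 0`; types by
`type_pos`, `type_neg`; distinct heights by `heights_ae`. `signed_le` with `b = y`. Finally `integral_H`. -/

open Set Filter Topology MeasureTheory Metric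
open scoped ContDiff

namespace H48U

open Pool.Agent.Lib.PenroseSph (E3 pd)
open Pool.Agent.H44G (flatHess gaussDens)

theorem degree_le (θ : E3 → ℝ) (c d R : ℝ) (hcont : Continuous θ) (hin : ∀ x : E3, ‖x‖ ≤ 1 → θ x ≤ c)
    (hout : ∀ x : E3, R ≤ ‖x‖ → d ≤ θ x) (hsm : ContDiffOn ℝ ∞ θ {x | c < θ x ∧ θ x < d})
    (hconn : ∀ t ∈ Ioo c d, (∀ x, θ x = t → fderiv ℝ θ x ≠ 0) →
      IsPreconnected {x | θ x < t} ∧ IsPreconnected {x | t < θ x})
    (η : ℝ → ℝ) (hη : Continuous η) (hη0 : ∀ t, 0 ≤ η t) (hηc : HasCompactSupport η) (hηs : tsupport η ⊆ Ioo c d)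
    (hreg : ∀ x, θ x ∈ tsupport η → fderiv ℝ θ x ≠ 0) :
    ∫ x, η (θ x) * gaussDens θ x ≤ 4 * Real.pi * ∫ t, η t := by
  classical
  have hopen : IsOpen {x : E3 | c < θ x ∧ θ x < d} :=
    (isOpen_lt continuous_const hcont).inter (isOpen_lt hcont continuous_const)
  have hV := isOpen_Vreg θ c d hcont hsm
  have hF := fm_smooth θ c d hcont hsm
  set H : E3 → ℝ := fun y => η (c + (‖y‖ ^ 3 - 1) / 3) with hH
  have hHcont : Continuous H := by
    rw [hH]
    fun_prop
  have hsub : ∀ t, η t ≠ 0 → t ∈ tsupport η := fun t ht => subset_tsupport η (Function.mem_support.2 ht)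
  have hHc : HasCompactSupport H := by
    apply HasCompactSupport.intro (isCompact_closedBall (0 : E3) (3 * |d - c| + 2))
    intro y hy
    by_contra hne
    have h1 := (hηs (hsub _ hne)).2
    rw [mem_closedBall, dist_zero_right, not_le] at hy
    have h2 : 0 ≤ |d - c| := abs_nonneg _
    have h3 : d - c ≤ |d - c| := le_abs_self _
    have h4 : 1 ≤ ‖y‖ := by linarith
    have h5 : ‖y‖ ≤ ‖y‖ ^ 3 := by nlinarith [sq_nonneg (‖y‖ - 1), mul_nonneg (sub_nonneg.2 h4) (norm_nonneg y)]
    linarith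
  have hHF : ∀ x ∈ Vreg θ c d, H (fm θ c x) = η (θ x) := by
    intro x hx
    simp only [hH]
    rw [fm_norm θ c d x hx]
    congr 1
    ring
  set K : Set E3 := {x | θ x ∈ tsupport η} with hK
  have hKc : IsCompact K := by
    apply Metric.isCompact_of_isClosed_isBounded ((isClosed_tsupport η).preimage hcont)
    rw [isBounded_iff_forall_norm_le]
    refine ⟨R, fun x hx => ?_⟩
    by_contra hc
    have h1 := hout x (not_le.1 hc).le
    have h2 := (hηs hx).2
    linarith
  have hKV : K ⊆ Vreg θ c d := fun x hx => ⟨hηs hx, hreg x hx⟩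
  have hL : ∫ x, η (θ x) * gaussDens θ x = ∫ x in Vreg θ c d, H (fm θ c x) * (fderiv ℝ (fm θ c) x).det := by
    rw [← setIntegral_eq_integral_of_forall_compl_eq_zero (s := Vreg θ c d)]
    · apply setIntegral_congr_fun hV.measurableSet
      intro x hx
      simp only
      rw [hHF x hx, fm_det θ c d hcont hsm x hx]
    · intro x hx
      have h1 : η (θ x) = 0 := by
        by_contra hne
        exact hx (hKV (hsub _ hne))
      rw [h1, zero_mul]
  rw [hL, ← integral_H c d η hη hηc hηs]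
  apply area_le (Vreg θ c d) hV (fm θ c) hF H hHcont hHc (fun y => hη0 _) K hKc hKV
  · intro x hx hne
    rw [hHF x hx] at hne
    exact hsub _ hne
  · filter_upwards [heights_ae (Vreg θ c d) hV (fm θ c) hF (fun x hx v => fm_perp θ c d hcont hsm x hx v)] with y hy
    intro hHy hrg
    set t : ℝ := c + (‖y‖ ^ 3 - 1) / 3 with ht
    have htm : t ∈ tsupport η := hsub _ hHy
    have htI := hηs htm
    have hy0 : y ≠ 0 := by
      intro h0
      have h1 := htI.1
      rw [ht, h0, norm_zero] at h1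
      norm_num at h1
    have hfin := fiber_finite (Vreg θ c d) hV (fm θ c) hF K hKc hKV y
      (fun x hx hxy => hsub _ (by rw [← hHF x hx, hxy]; exact hHy)) hrg
    have hlev : Lev θ t (max R 1) :=
      { cont := hcont
        pos := lt_max_of_lt_right one_pos
        far := fun x hx => lt_of_lt_of_le htI.2 (hout x ((le_max_left _ _).trans hx))
        reg := fun x hx => ⟨((hsm x (by rw [mem_ofPred_eq, hx]; exact htI)).contDiffAt
          (hopen.mem_nhds (by rw [mem_ofPred_eq, hx]; exact htI))).of_le ENat.LEInfty.out,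
          hreg x (by rw [hx]; exact htm)⟩
        connIn := (hconn t htI fun x hx => hreg x (by rw [hx]; exact htm)).1
        connOut := (hconn t htI fun x hx => hreg x (by rw [hx]; exact htm)).2 }
    have hPf : {x | x ∈ Vreg θ c d ∧ fm θ c x = y ∧ 0 < (fderiv ℝ (fm θ c) x).det}.Finite :=
      hfin.subset fun x hx => ⟨hx.1, hx.2.1⟩
    have hNf : {x | x ∈ Vreg θ c d ∧ fm θ c x = y ∧ (fderiv ℝ (fm θ c) x).det < 0}.Finite :=
      hfin.subset fun x hx => ⟨hx.1, hx.2.1⟩
    have hmem : ∀ x, θ x = t → Crit θ y x → x ∈ Vreg θ c d ∧ fm θ c x = y := by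
      intro x hx hcr
      have h1 : x ∈ Vreg θ c d := ⟨by rw [hx]; exact htI, hreg x (by rw [hx]; exact htm)⟩
      exact ⟨h1, (fiber_iff θ c d x y hy0 h1).2 ⟨hx, hcr⟩⟩
    rw [Set.ncard_eq_toFinset_card _ hPf, Set.ncard_eq_toFinset_card _ hNf]
    apply signed_le hlev y hy0
    · intro x hx hcr
      obtain ⟨h1, h2⟩ := hmem x hx hcr
      rcases lt_or_gt_of_ne (hrg x h1 h2) with h3 | h3
      · exact Or.inr (hNf.mem_toFinset.2 ⟨h1, h2, h3⟩)
      · exact Or.inl (hPf.mem_toFinset.2 ⟨h1, h2, h3⟩)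
    · intro x hx
      obtain ⟨h1, h2, h3⟩ := hPf.mem_toFinset.1 hx
      have h4 := (fiber_iff θ c d x y hy0 h1).1 h2
      rw [fm_det θ c d hcont hsm x h1] at h3
      exact ⟨h4.1, h4.2, type_pos θ c d hcont hsm x y h1 h4.2 h3⟩
    · intro x hx
      obtain ⟨h1, h2, h3⟩ := hNf.mem_toFinset.1 hx
      have h4 := (fiber_iff θ c d x y hy0 h1).1 h2
      rw [fm_det θ c d hcont hsm x h1] at h3
      exact ⟨h4.1, h4.2, type_neg θ c d hcont hsm x y h1 h4.2 h3⟩
    · intro x x' hx hx' hcr hcr' he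
      obtain ⟨h1, h2⟩ := hmem x hx hcr
      obtain ⟨h1', h2'⟩ := hmem x' hx' hcr'
      exact hy x h1 x' h1' h2 h2' (hrg x h1 h2) (hrg x' h1' h2') he

end H48U
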