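import Pool.Agent.Lib.H48U.Defs

set_option autoImplicit false

/-! # H48U, chunk A1 (S/M): below every point there is a bottom

PROOF. Let `V = {z | JoinedIn (sub Ω h c) y z}`, `y ∈ V` (constant path). `closure V ⊆ closure Ω` is compact and nonempty,
let `x0` be a point of `closure V` with minimal `h`; `h x0 ≤ h y < c`. `Loc0` at `x0` gives a neighbourhood `U`. If
`z ∈ U ∩ sub Ω h (h x0)`, take `v ∈ V ∩ U` (`x0 ∈ closure V`; `v ∈ Ω` since `v` is the end of a path in `sub Ω h c`);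
`v`, `z` are joined in `sub Ω h c`, so `z ∈ V`, contradiction with the minimality. So `x0` is a `Bottom`, and
`Reach Ω h c y x0`. -/

open Set Filter Topology

namespace H48U

variable {X : Type*} [MetricSpace X]

theorem reach_exists (Ω : Set X) (hc : IsCompact (closure Ω)) (h : X → ℝ) (hh : Continuous h)
    (hL : ∀ x ∈ closure Ω, Loc0 Ω h x) (c : ℝ) (y : X) (hy : y ∈ sub Ω h c) :
    ∃ m, Bottom Ω h m ∧ Reach Ω h c y m := by
  set V : Set X := {z | JoinedIn (sub Ω h c) y z} with hV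
  have hyV : y ∈ V := JoinedIn.refl hy
  have hVΩ : V ⊆ Ω := fun z hz => (JoinedIn.target_mem hz).1
  have hVc : closure V ⊆ closure Ω := closure_mono hVΩ
  have hcV : IsCompact (closure V) := hc.of_isClosed_subset isClosed_closure hVc
  have hne : (closure V).Nonempty := ⟨y, subset_closure hyV⟩
  obtain ⟨x0, hx0, hmin⟩ := hcV.exists_isMinOn hne hh.continuousOn
  have hlt : h x0 < c := lt_of_le_of_lt (hmin (subset_closure hyV)) hy.2
  refine ⟨x0, ⟨hVc hx0, ?_⟩, hlt, ?_⟩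
  · obtain ⟨U, hU, hUj⟩ := hL x0 (hVc hx0) c hlt
    refine ⟨U, hU, ?_⟩
    rw [Set.eq_empty_iff_forall_notMem]
    rintro z ⟨hzU, hz⟩
    obtain ⟨v, hvU, hvV⟩ := mem_closure_iff_nhds.mp hx0 U hU
    have h1 : JoinedIn (sub Ω h c) v z := hUj v ⟨hvU, hVΩ hvV⟩ z ⟨hzU, hz.1⟩
    have h2 : z ∈ V := JoinedIn.trans hvV h1
    have h3 : h x0 ≤ h z := hmin (subset_closure h2)
    exact absurd hz.2 (not_lt.mpr h3)
  · intro U hU
    obtain ⟨v, hvU, hvV⟩ := mem_closure_iff_nhds.mp hx0 U hU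
    exact ⟨v, hvU, hvV⟩

end H48U
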