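import Pool.Agent.Lib.H48U.Defs

set_option autoImplicit false

/-! # H48U, chunk A2 (S/M): reaching is an open condition in the level

PROOF. Take `c1` with `h m < c1 < c` and, by `Loc0`, `U1 ∈ 𝓝 m` such that the points of `U1 ∩ Ω` are joined in
`sub Ω h c1`. By `Reach` there is `z ∈ U1` joined with `y` in `sub Ω h c` by a path; `h` has a maximum `< c` on the compact
image of the path, so they are joined in `sub Ω h c2` for some `c2 < c` (`JoinedIn`: same path). `c' = max c1 c2`: for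
`U ∈ 𝓝 m` there is `z' ∈ U ∩ U1 ∩ Ω` (`m ∈ closure Ω`), joined with `z` in `sub Ω h c1`. Monotonicity of `JoinedIn`
(`JoinedIn.mono`) and `JoinedIn.trans`. -/

open Set Filter Topology

namespace H48U

variable {X : Type*} [MetricSpace X]

omit [MetricSpace X] in
theorem a2_mono (Ω : Set X) (h : X → ℝ) {c c' : ℝ} (hcc : c ≤ c') : sub Ω h c ⊆ sub Ω h c' :=
  fun _ hx => ⟨hx.1, lt_of_lt_of_le hx.2 hcc⟩

theorem a2_lower (Ω : Set X) (h : X → ℝ) (hh : Continuous h) (c : ℝ) (y z : X)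
    (hj : JoinedIn (sub Ω h c) y z) : ∃ c2 < c, JoinedIn (sub Ω h c2) y z := by
  obtain ⟨γ, hγ⟩ := hj
  have h1 : Continuous fun t => h (γ t) := hh.comp γ.continuous
  obtain ⟨t0, -, ht0⟩ := isCompact_univ.exists_isMaxOn (⟨0, mem_univ _⟩ : (univ : Set unitInterval).Nonempty)
    h1.continuousOn
  have h2 : h (γ t0) < c := (hγ t0).2
  refine ⟨(h (γ t0) + c) / 2, by linarith, γ, fun t => ⟨(hγ t).1, ?_⟩⟩
  have h3 : h (γ t) ≤ h (γ t0) := ht0 (mem_univ t)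
  linarith

theorem reach_lower (Ω : Set X) (h : X → ℝ) (hh : Continuous h) (c : ℝ) (y m : X) (hm : m ∈ closure Ω)
    (hL : Loc0 Ω h m) (hr : Reach Ω h c y m) : ∃ c' < c, ∀ c'', c' ≤ c'' → Reach Ω h c'' y m := by
  obtain ⟨hlt, hr⟩ := hr
  obtain ⟨U1, hU1, hUj⟩ := hL ((h m + c) / 2) (by linarith)
  obtain ⟨z, hzU, hz⟩ := hr U1 hU1
  obtain ⟨c2, hc2, hj⟩ := a2_lower Ω h hh c y z hz
  refine ⟨max ((h m + c) / 2) c2, max_lt (by linarith) hc2, ?_⟩
  intro c'' hc''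
  have h1 : (h m + c) / 2 ≤ c'' := le_trans (le_max_left _ _) hc''
  have h2 : c2 ≤ c'' := le_trans (le_max_right _ _) hc''
  refine ⟨by linarith, ?_⟩
  intro U hU
  obtain ⟨z', ⟨hz'U, hz'U1⟩, hz'Ω⟩ := mem_closure_iff_nhds.mp hm (U ∩ U1) (Filter.inter_mem hU hU1)
  have hzΩ : z ∈ Ω := hz.target_mem.1
  have h3 : JoinedIn (sub Ω h ((h m + c) / 2)) z z' := hUj z ⟨hzU, hzΩ⟩ z' ⟨hz'U1, hz'Ω⟩
  exact ⟨z', hz'U, (hj.mono (a2_mono Ω h h2)).trans (h3.mono (a2_mono Ω h h1))⟩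

end H48U
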