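import Pool.Agent.Lib.H48U.A1

set_option autoImplicit false

/-! # H48U, chunk A3 (M): the mountain pass step

`A` is a set of bottoms. If below the level `c` no point reaches both a bottom in `A` and a bottom outside `A`, then the
same is true below `c + ε` for some `ε > 0`.

PROOF. Let `WA = {y ∈ sub Ω h c | ∃ m, Bottom m ∧ m ∈ A ∧ Reach Ω h c y m}`, `WB` the same with `m ∉ A`. By
`reach_exists` `sub Ω h c = WA ∪ WB`, and `WA ∩ WB = ∅` by `hP`. Let `M` be the finite set of bottoms,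
`CA = closure WA ∪ {m ∈ M | m ∈ A ∧ h m = c}`, `CB = closure WB ∪ {m ∈ M | m ∉ A ∧ h m = c}`.
(1) `closure Ω ∩ {h ≤ c} ⊆ CA ∪ CB`: if `h x < c`, then `x ∈ closure (sub Ω h c)`; if `h x = c` and `x` is not in that
closure, `x` is a `Bottom`.
(2) `CA ∩ CB = ∅`: if `h x < c`, `x ∈ closure WA ∩ closure WB`, use `Loc0` at level `c` (a point `y ∈ WA` joined with
`z ∈ WB` would be in both). If `h x = c`: a bottom is not in `closure (sub Ω h c)`; if `x ∈ closure WA ∩ closure WB` and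
`x ∉ D` use `Good`; if `x ∈ D` then near `x` every point of `sub` reaches `e1 x` or `e2 x`, a point of `WA` reaches one in
`A` (by `hP`), a point of `WB` one outside `A`, contradiction to `he`.
(3) both are closed, so there are disjoint open `OA ⊇ CA`, `OB ⊇ CB` (`normal_separation`, `SeparatedNhds`). The set
`closure Ω \ (OA ∪ OB)` is compact and `h > c` on it, `M` is finite: choose `ε > 0` with
`closure Ω ∩ {h < c + ε} ⊆ OA ∪ OB` and no `m ∈ M` with `c < h m < c + ε`.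
(4) Let `y` reach `m`, `m'` below `c + ε`. The paths are connected, so all points joined with `y` lie in the one of
`OA`, `OB` which contains `y`, say `OA`. `h m < c + ε` gives `h m ≤ c`, so `m ∈ CA ∪ CB`; `m ∈ CB ⊆ OB` is impossible (a
point `z ∈ OB` joined with `y`). So `m ∈ CA`, and then `m ∈ A`: either `h m = c` and `m` is in the second part (a bottom
of height `c` is not in `closure WA`), or `h m < c` and `m ∈ closure WA`: by `Loc0` at level `c` a point `y' ∈ WA` near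
`m` reaches `m` below `c`, `hP`. The same for `m'`, and for `OB`. -/

open Set Filter Topology

namespace H48U

variable {X : Type*} [MetricSpace X]

/-- points below the level `c` which reach a bottom in `A` -/
def a3W (Ω : Set X) (h : X → ℝ) (M : Finset X) (c : ℝ) (A : Set X) : Set X :=
  {y | y ∈ sub Ω h c ∧ ∃ m ∈ M, m ∈ A ∧ Reach Ω h c y m}

/-- its closure and the bottoms of height `c` in `A` -/
def a3C (Ω : Set X) (h : X → ℝ) (M : Finset X) (c : ℝ) (A : Set X) : Set X :=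
  closure (a3W Ω h M c A) ∪ {m | m ∈ M ∧ m ∈ A ∧ h m = c}

theorem a3_reach_join {Ω : Set X} {h : X → ℝ} {c : ℝ} {y z m : X} (hj : JoinedIn (sub Ω h c) z y)
    (hr : Reach Ω h c y m) : Reach Ω h c z m := by
  refine ⟨hr.1, fun U hU => ?_⟩
  obtain ⟨v, hv, hvj⟩ := hr.2 U hU
  exact ⟨v, hv, hj.trans hvj⟩

theorem a3_W_join {Ω : Set X} {h : X → ℝ} {M : Finset X} {c : ℝ} {A : Set X} {y z : X}
    (hy : y ∈ a3W Ω h M c A) (hj : JoinedIn (sub Ω h c) z y) : z ∈ a3W Ω h M c A := by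
  obtain ⟨-, m, hm, hmA, hr⟩ := hy
  exact ⟨hj.source_mem, m, hm, hmA, a3_reach_join hj hr⟩

theorem a3_closed (Ω : Set X) (h : X → ℝ) (M : Finset X) (c : ℝ) (A : Set X) :
    IsClosed (a3C Ω h M c A) := by
  refine isClosed_closure.union ?_
  apply Set.Finite.isClosed
  exact M.finite_toSet.subset (fun m hm => hm.1)

theorem a3_cover (Ω : Set X) (hc : IsCompact (closure Ω)) (h : X → ℝ) (hh : Continuous h)
    (hL : ∀ x ∈ closure Ω, Loc0 Ω h x) (M : Finset X) (hM : ∀ x, x ∈ M ↔ Bottom Ω h x)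
    (A : Set X) (c : ℝ) (x : X) (hx : x ∈ closure Ω) (hxc : h x ≤ c) :
    x ∈ a3C Ω h M c A ∨ x ∈ a3C Ω h M c Aᶜ := by
  have hS : sub Ω h c ⊆ a3W Ω h M c A ∪ a3W Ω h M c Aᶜ := by
    intro y hy
    obtain ⟨m, hm, hr⟩ := reach_exists Ω hc h hh hL c y hy
    by_cases hA : m ∈ A
    · exact Or.inl ⟨hy, m, (hM m).2 hm, hA, hr⟩
    · exact Or.inr ⟨hy, m, (hM m).2 hm, hA, hr⟩
  have hcl : x ∈ closure (sub Ω h c) → x ∈ a3C Ω h M c A ∨ x ∈ a3C Ω h M c Aᶜ := by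
    intro h1
    have h2 := closure_mono hS h1
    rw [closure_union] at h2
    rcases h2 with h2 | h2
    · exact Or.inl (Or.inl h2)
    · exact Or.inr (Or.inl h2)
  by_cases h1 : x ∈ closure (sub Ω h c)
  · exact hcl h1
  · have h2 : h x = c := by
      by_contra hne
      have hlt : h x < c := lt_of_le_of_ne hxc hne
      apply h1
      rw [mem_closure_iff_nhds]
      intro U hU
      have h3 : {z | h z < c} ∈ 𝓝 x := (isOpen_lt hh continuous_const).mem_nhds hlt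
      obtain ⟨z, ⟨hzU, hzc⟩, hzΩ⟩ := mem_closure_iff_nhds.mp hx (U ∩ {z | h z < c})
        (Filter.inter_mem hU h3)
      exact ⟨z, hzU, hzΩ, hzc⟩
    have h3 : Bottom Ω h x := by
      refine ⟨hx, ?_⟩
      rw [mem_closure_iff_nhds] at h1
      push Not at h1
      obtain ⟨U, hU, hU2⟩ := h1
      exact ⟨U, hU, by rw [h2]; exact hU2⟩
    have h4 : x ∈ M := (hM x).2 h3
    by_cases hA : x ∈ A
    · exact Or.inl (Or.inr ⟨h4, hA, h2⟩)
    · exact Or.inr (Or.inr ⟨h4, hA, h2⟩)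

theorem a3_bottom_not {Ω : Set X} {h : X → ℝ} {M : Finset X} {c : ℝ} {A : Set X} {x : X}
    (hb : Bottom Ω h x) (hx : h x = c) : x ∉ closure (a3W Ω h M c A) := by
  intro h1
  obtain ⟨U, hU, hU2⟩ := hb.2
  obtain ⟨z, hzU, hz⟩ := mem_closure_iff_nhds.mp h1 U hU
  have h2 : z ∈ U ∩ sub Ω h (h x) := ⟨hzU, by rw [hx]; exact hz.1⟩
  rw [hU2] at h2
  exact h2

theorem a3_W_disj {Ω : Set X} {h : X → ℝ} {M : Finset X} {c : ℝ} {A : Set X}
    (hP : ∀ y ∈ sub Ω h c, ∀ m ∈ M, ∀ m' ∈ M, Reach Ω h c y m → Reach Ω h c y m' → (m ∈ A ↔ m' ∈ A))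
    {y : X} (h1 : y ∈ a3W Ω h M c A) (h2 : y ∈ a3W Ω h M c Aᶜ) : False := by
  obtain ⟨hy, m, hm, hmA, hr⟩ := h1
  obtain ⟨-, m', hm', hmA', hr'⟩ := h2
  exact hmA' ((hP y hy m hm m' hm' hr hr').1 hmA)

theorem a3_disj (Ω : Set X) (h : X → ℝ) (hh : Continuous h)
    (hL : ∀ x ∈ closure Ω, Loc0 Ω h x) (M D : Finset X) (hM : ∀ x, x ∈ M ↔ Bottom Ω h x)
    (hD : ∀ x ∈ closure Ω, x ∉ D → Good Ω h x) (e1 e2 : X → X)
    (hE : ∀ s ∈ D, ∃ U ∈ 𝓝 s, ∀ y ∈ U ∩ sub Ω h (h s),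
      Reach Ω h (h s) y (e1 s) ∧ e1 s ∈ M ∨ Reach Ω h (h s) y (e2 s) ∧ e2 s ∈ M)
    (A : Set X) (he : ∀ s ∈ D, (e1 s ∈ A ↔ e2 s ∈ A)) (c : ℝ)
    (hP : ∀ y ∈ sub Ω h c, ∀ m ∈ M, ∀ m' ∈ M, Reach Ω h c y m → Reach Ω h c y m' → (m ∈ A ↔ m' ∈ A)) :
    Disjoint (a3C Ω h M c A) (a3C Ω h M c Aᶜ) := by
  rw [Set.disjoint_left]
  rintro x (hx1 | hx1) (hx2 | hx2)
  · have hxΩ : x ∈ closure Ω := closure_mono (fun z hz => hz.1.1) hx1
    have hxc : h x ≤ c := by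
      have h1 : closure (a3W Ω h M c A) ⊆ {z | h z ≤ c} :=
        closure_minimal (fun z hz => hz.1.2.le) (isClosed_le hh continuous_const)
      exact h1 hx1
    -- two points near `x` which are joined give a contradiction
    have key : ∀ U ∈ 𝓝 x, (∀ y ∈ U ∩ sub Ω h c, ∀ z ∈ U ∩ sub Ω h c, JoinedIn (sub Ω h c) y z) →
        False := by
      intro U hU hj
      obtain ⟨y, hyU, hy⟩ := mem_closure_iff_nhds.mp hx1 U hU
      obtain ⟨z, hzU, hz⟩ := mem_closure_iff_nhds.mp hx2 U hU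
      have h2 : JoinedIn (sub Ω h c) z y := hj z ⟨hzU, hz.1⟩ y ⟨hyU, hy.1⟩
      exact a3_W_disj hP (a3_W_join hy h2) hz
    rcases lt_or_eq_of_le hxc with hlt | heq
    · obtain ⟨U, hU, hj⟩ := hL x hxΩ c hlt
      exact key U hU (fun y hy z hz => hj y ⟨hy.1, hy.2.1⟩ z ⟨hz.1, hz.2.1⟩)
    · by_cases hxD : x ∈ D
      · obtain ⟨U, hU, hj⟩ := hE x hxD
        rw [heq] at hj
        obtain ⟨y, hyU, hy⟩ := mem_closure_iff_nhds.mp hx1 U hU
        obtain ⟨z, hzU, hz⟩ := mem_closure_iff_nhds.mp hx2 U hU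
        obtain ⟨hyS, m, hm, hmA, hr⟩ := hy
        obtain ⟨hzS, m', hm', hmA', hr'⟩ := hz
        have hhe := he x hxD
        have h1 : e1 x ∈ A := by
          rcases hj y ⟨hyU, hyS⟩ with ⟨h2, h3⟩ | ⟨h2, h3⟩
          · exact (hP y hyS m hm _ h3 hr h2).1 hmA
          · exact hhe.2 ((hP y hyS m hm _ h3 hr h2).1 hmA)
        have h4 : e1 x ∉ A := by
          intro h5
          rcases hj z ⟨hzU, hzS⟩ with ⟨h2, h3⟩ | ⟨h2, h3⟩
          · exact hmA' ((hP z hzS m' hm' _ h3 hr' h2).2 h5)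
          · exact hmA' ((hP z hzS m' hm' _ h3 hr' h2).2 (hhe.1 h5))
        exact h4 h1
      · obtain ⟨U, hU, hj⟩ := hD x hxΩ hxD
        rw [heq] at hj
        exact key U hU hj
  · exact a3_bottom_not ((hM x).1 hx2.1) hx2.2.2 hx1
  · exact a3_bottom_not ((hM x).1 hx1.1) hx1.2.2 hx2
  · exact hx2.2.1 hx1.2.1

theorem a3_side (Ω : Set X) (hc : IsCompact (closure Ω)) (h : X → ℝ) (hh : Continuous h)
    (hL : ∀ x ∈ closure Ω, Loc0 Ω h x) (M : Finset X) (hM : ∀ x, x ∈ M ↔ Bottom Ω h x)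
    (A : Set X) (c ε : ℝ)
    (hP : ∀ y ∈ sub Ω h c, ∀ m ∈ M, ∀ m' ∈ M, Reach Ω h c y m → Reach Ω h c y m' → (m ∈ A ↔ m' ∈ A))
    (OA OB : Set X) (hOA : IsOpen OA) (hOB : IsOpen OB) (hd : Disjoint OA OB)
    (hCB : a3C Ω h M c Aᶜ ⊆ OB) (hS : sub Ω h (c + ε) ⊆ OA ∪ OB)
    (hMε : ∀ m ∈ M, h m < c + ε → h m ≤ c) (y : X) (hy : y ∈ OA) (m : X) (hm : m ∈ M)
    (hr : Reach Ω h (c + ε) y m) : m ∈ A := by
  have hb : Bottom Ω h m := (hM m).1 hm
  have hmc : h m ≤ c := hMε m hm hr.1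
  -- points joined with `y` are in `OA`
  have hjoin : ∀ z, JoinedIn (sub Ω h (c + ε)) y z → z ∈ OA := by
    intro z hj
    obtain ⟨γ, hγ⟩ := hj
    have h1 : IsPreconnected (range γ) := isPreconnected_range γ.continuous
    have h2 : range γ ⊆ OA ∪ OB := by
      rintro _ ⟨t, rfl⟩
      exact hS (hγ t)
    have h3 : (range γ ∩ OA).Nonempty := ⟨y, ⟨0, by simp⟩, hy⟩
    have h4 := h1.subset_left_of_subset_union hOA hOB hd h2 h3
    exact h4 ⟨1, by simp⟩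
  rcases a3_cover Ω hc h hh hL M hM A c m hb.1 hmc with h1 | h1
  · rcases h1 with h1 | h1
    · rcases lt_or_eq_of_le hmc with hlt | heq
      · obtain ⟨U, hU, hj⟩ := hL m hb.1 c hlt
        obtain ⟨y', hy'U, hy'S, m0, hm0, hm0A, hr0⟩ := mem_closure_iff_nhds.mp h1 U hU
        have h2 : Reach Ω h c y' m := by
          refine ⟨hlt, fun U' hU' => ?_⟩
          obtain ⟨z, ⟨hzU', hzU⟩, hzΩ⟩ := mem_closure_iff_nhds.mp hb.1 (U' ∩ U)
            (Filter.inter_mem hU' hU)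
          exact ⟨z, hzU', hj y' ⟨hy'U, hy'S.1⟩ z ⟨hzU, hzΩ⟩⟩
        exact (hP y' hy'S m0 hm0 m hm hr0 h2).1 hm0A
      · exact absurd h1 (a3_bottom_not hb heq)
    · exact h1.2.1
  · exfalso
    have h2 : OB ∈ 𝓝 m := hOB.mem_nhds (hCB h1)
    obtain ⟨z, hz, hj⟩ := hr.2 OB h2
    exact Set.disjoint_left.mp hd (hjoin z hj) hz

theorem step_right (Ω : Set X) (hc : IsCompact (closure Ω)) (h : X → ℝ) (hh : Continuous h)
    (hL : ∀ x ∈ closure Ω, Loc0 Ω h x) (M D : Finset X) (hM : ∀ x, x ∈ M ↔ Bottom Ω h x)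
    (hD : ∀ x ∈ closure Ω, x ∉ D → Good Ω h x) (e1 e2 : X → X)
    (hE : ∀ s ∈ D, ∃ U ∈ 𝓝 s, ∀ y ∈ U ∩ sub Ω h (h s),
      Reach Ω h (h s) y (e1 s) ∧ e1 s ∈ M ∨ Reach Ω h (h s) y (e2 s) ∧ e2 s ∈ M)
    (A : Set X) (he : ∀ s ∈ D, (e1 s ∈ A ↔ e2 s ∈ A)) (c : ℝ)
    (hP : ∀ y ∈ sub Ω h c, ∀ m ∈ M, ∀ m' ∈ M, Reach Ω h c y m → Reach Ω h c y m' → (m ∈ A ↔ m' ∈ A)) :
    ∃ ε > 0, ∀ y ∈ sub Ω h (c + ε), ∀ m ∈ M, ∀ m' ∈ M, Reach Ω h (c + ε) y m → Reach Ω h (c + ε) y m' →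
      (m ∈ A ↔ m' ∈ A) := by
  have hdisj := a3_disj Ω h hh hL M D hM hD e1 e2 hE A he c hP
  obtain ⟨OA, OB, hOA, hOB, hCA, hCB, hd⟩ :=
    normal_separation (a3_closed Ω h M c A) (a3_closed Ω h M c Aᶜ) hdisj
  -- the compact set outside
  have hK : IsCompact (closure Ω \ (OA ∪ OB)) := hc.diff (hOA.union hOB)
  have hε1 : ∃ ε1 > 0, ∀ x ∈ closure Ω, h x < c + ε1 → x ∈ OA ∪ OB := by
    by_cases hne : (closure Ω \ (OA ∪ OB)).Nonempty
    · obtain ⟨x1, hx1, hmin⟩ := hK.exists_isMinOn hne hh.continuousOn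
      have h1 : c < h x1 := by
        by_contra hcon
        push Not at hcon
        rcases a3_cover Ω hc h hh hL M hM A c x1 hx1.1 hcon with h2 | h2
        · exact hx1.2 (Or.inl (hCA h2))
        · exact hx1.2 (Or.inr (hCB h2))
      refine ⟨h x1 - c, by linarith, ?_⟩
      intro x hx hlt
      by_contra hcon
      have h2 : h x1 ≤ h x := hmin ⟨hx, hcon⟩
      linarith
    · refine ⟨1, one_pos, ?_⟩
      intro x hx _
      by_contra hcon
      exact hne ⟨x, hx, hcon⟩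
  obtain ⟨ε1, hε1, hcov⟩ := hε1
  have hε2 : ∀ᶠ ε in 𝓝[>] (0 : ℝ), ∀ m ∈ M, h m < c + ε → h m ≤ c := by
    rw [Filter.eventually_all_finset]
    intro m _
    by_cases hmc : h m ≤ c
    · exact Filter.Eventually.of_forall fun ε _ => hmc
    · push Not at hmc
      have h1 : ∀ᶠ ε in 𝓝 (0 : ℝ), ε < h m - c := Iio_mem_nhds (by linarith)
      have h2 : ∀ᶠ ε in 𝓝[>] (0 : ℝ), ε < h m - c := h1.filter_mono nhdsWithin_le_nhds
      filter_upwards [h2] with ε hε hlt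
      linarith
  have hε3 : ∀ᶠ ε in 𝓝[>] (0 : ℝ), ε < ε1 :=
    (show ∀ᶠ ε in 𝓝 (0 : ℝ), ε < ε1 from Iio_mem_nhds hε1).filter_mono nhdsWithin_le_nhds
  have hε4 : ∀ᶠ ε in 𝓝[>] (0 : ℝ), 0 < ε := eventually_mem_nhdsWithin
  obtain ⟨ε, h2, h3, h4⟩ := (hε2.and (hε3.and hε4)).exists
  have hS : sub Ω h (c + ε) ⊆ OA ∪ OB := fun x hx =>
    hcov x (subset_closure hx.1) (by have := hx.2; linarith)
  have hP' : ∀ y ∈ sub Ω h c, ∀ m ∈ M, ∀ m' ∈ M, Reach Ω h c y m → Reach Ω h c y m' →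
      (m ∈ Aᶜ ↔ m' ∈ Aᶜ) := fun y hy m hm m' hm' hr hr' => not_congr (hP y hy m hm m' hm' hr hr')
  refine ⟨ε, h4, ?_⟩
  intro y hy m hm m' hm' hr hr'
  rcases hS hy with hyA | hyB
  · have h5 := a3_side Ω hc h hh hL M hM A c ε hP OA OB hOA hOB hd hCB hS h2 y hyA
    exact ⟨fun _ => h5 m' hm' hr', fun _ => h5 m hm hr⟩
  · have h5 := a3_side Ω hc h hh hL M hM Aᶜ c ε hP' OB OA hOB hOA hd.symm
      (by rw [compl_compl]; exact hCA) (by rw [Set.union_comm]; exact hS) h2 y hyB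
    have h6 : m ∉ A := h5 m hm hr
    have h7 : m' ∉ A := h5 m' hm' hr'
    exact ⟨fun h8 => absurd h8 h6, fun h8 => absurd h8 h7⟩

end H48U
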