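import Pool.Agent.Lib.H48U.A2
import Pool.Agent.Lib.H48U.A3

set_option autoImplicit false

/-! # H48U, chunk A4 (M): connectedness of the graph of bottoms

PROOF. `P c := ∀ y ∈ sub Ω h c, ∀ m ∈ M, ∀ m' ∈ M, Reach c y m → Reach c y m' → (m ∈ A ↔ m' ∈ A)`.
`P c` implies `P c'` for `c' ≤ c` (`Reach` and `sub` are monotone in the level, `JoinedIn.mono`). `P c` holds if `c` is
below the minimum of `h` on `closure Ω` (if `Ω` is empty there are no bottoms, nothing to prove). If `P c'` for all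
`c' < c`, then `P c` (`reach_lower` for `m` and `m'`, and `h y < c`). `step_right` makes it open to the right. So the
supremum argument gives `P c` for all `c`. For `c` above the maximum of `h` on `closure Ω` we have `sub Ω h c = Ω`, which
is path connected, so a fixed `y ∈ Ω` reaches every bottom (bottoms are in `closure Ω`). -/

open Set Filter Topology

namespace H48U

variable {X : Type*} [MetricSpace X]

theorem a4_mono {Ω : Set X} {h : X → ℝ} {c c' : ℝ} (hcc : c ≤ c') {y m : X} (hr : Reach Ω h c y m) :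
    Reach Ω h c' y m := by
  refine ⟨lt_of_lt_of_le hr.1 hcc, fun U hU => ?_⟩
  obtain ⟨z, hz, hj⟩ := hr.2 U hU
  exact ⟨z, hz, hj.mono fun x hx => ⟨hx.1, lt_of_lt_of_le hx.2 hcc⟩⟩

theorem all_in (Ω : Set X) (hΩ : ∀ y ∈ Ω, ∀ z ∈ Ω, JoinedIn Ω y z) (hc : IsCompact (closure Ω)) (h : X → ℝ)
    (hh : Continuous h) (hL : ∀ x ∈ closure Ω, Loc0 Ω h x) (M D : Finset X) (hM : ∀ x, x ∈ M ↔ Bottom Ω h x)
    (hD : ∀ x ∈ closure Ω, x ∉ D → Good Ω h x) (e1 e2 : X → X)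
    (hE : ∀ s ∈ D, ∃ U ∈ 𝓝 s, ∀ y ∈ U ∩ sub Ω h (h s),
      Reach Ω h (h s) y (e1 s) ∧ e1 s ∈ M ∨ Reach Ω h (h s) y (e2 s) ∧ e2 s ∈ M)
    (A : Set X) (he : ∀ s ∈ D, (e1 s ∈ A ↔ e2 s ∈ A)) (hA : ∃ m ∈ M, m ∈ A) : ∀ m ∈ M, m ∈ A := by
  intro m1 hm1
  obtain ⟨m0, hm0, hm0A⟩ := hA
  -- bounds of `h` on the compact closure
  have hne : (closure Ω).Nonempty := ⟨m0, ((hM m0).1 hm0).1⟩
  have hΩne : Ω.Nonempty := closure_nonempty_iff.mp hne
  obtain ⟨y0, hy0⟩ := hΩne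
  obtain ⟨xm, hxm, hmin⟩ := hc.exists_isMinOn hne hh.continuousOn
  obtain ⟨xM, hxM, hmax⟩ := hc.exists_isMaxOn hne hh.continuousOn
  set P : ℝ → Prop := fun c => ∀ y ∈ sub Ω h c, ∀ m ∈ M, ∀ m' ∈ M, Reach Ω h c y m →
    Reach Ω h c y m' → (m ∈ A ↔ m' ∈ A) with hPdef
  have hPmin : P (h xm) := by
    intro y hy
    have h1 : h xm ≤ h y := hmin (subset_closure hy.1)
    exact absurd hy.2 (not_lt.mpr h1)
  have hPleft : ∀ c, (∀ c' < c, P c') → P c := by
    intro c hP y hy m hm m' hm' hr hr'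
    obtain ⟨c1, hc1, hr1⟩ := reach_lower Ω h hh c y m ((hM m).1 hm).1 (hL m ((hM m).1 hm).1) hr
    obtain ⟨c2, hc2, hr2⟩ := reach_lower Ω h hh c y m' ((hM m').1 hm').1 (hL m' ((hM m').1 hm').1) hr'
    have hy2 := hy.2
    set c3 := max (max c1 c2) ((h y + c) / 2) with hc3
    have h1 : c3 < c := max_lt (max_lt hc1 hc2) (by linarith)
    have h2 : c1 ≤ c3 := le_trans (le_max_left _ _) (le_max_left _ _)
    have h3 : c2 ≤ c3 := le_trans (le_max_right _ _) (le_max_left _ _)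
    have h4 : (h y + c) / 2 ≤ c3 := le_max_right _ _
    exact hP c3 h1 y ⟨hy.1, by linarith⟩ m hm m' hm' (hr1 c3 h2) (hr2 c3 h3)
  have hPmono : ∀ c c', c ≤ c' → P c' → P c := by
    intro c c' hcc hP y hy m hm m' hm' hr hr'
    exact hP y ⟨hy.1, lt_of_lt_of_le hy.2 hcc⟩ m hm m' hm' (a4_mono hcc hr) (a4_mono hcc hr')
  have hPright : ∀ c, P c → ∃ ε > 0, P (c + ε) := by
    intro c hP
    exact step_right Ω hc h hh hL M D hM hD e1 e2 hE A he c hP
  have hPall : ∀ c, P c := by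
    by_contra hcon
    push Not at hcon
    obtain ⟨c, hcP⟩ := hcon
    set S : Set ℝ := {t | P t} with hS
    have hSne : S.Nonempty := ⟨h xm, hPmin⟩
    have hSb : BddAbove S := by
      refine ⟨c, fun t ht => ?_⟩
      by_contra hlt
      push Not at hlt
      exact hcP (hPmono c t hlt.le ht)
    have h1 : P (sSup S) := by
      apply hPleft
      intro c' hc'
      obtain ⟨t, ht, hlt⟩ := exists_lt_of_lt_csSup hSne hc'
      exact hPmono c' t hlt.le ht
    obtain ⟨ε, hε, h2⟩ := hPright _ h1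
    have h3 : sSup S + ε ≤ sSup S := le_csSup hSb h2
    linarith
  -- above the maximum
  have hbig : ∀ x ∈ Ω, h x < h xM + 1 := by
    intro x hx
    have h1 : h x ≤ h xM := hmax (subset_closure hx)
    linarith
  have hreach : ∀ m ∈ M, Reach Ω h (h xM + 1) y0 m := by
    intro m hm
    have hb := (hM m).1 hm
    have h1 : h m ≤ h xM := hmax hb.1
    refine ⟨by linarith, fun U hU => ?_⟩
    obtain ⟨z, hzU, hz⟩ := mem_closure_iff_nhds.mp hb.1 U hU
    exact ⟨z, hzU, (hΩ y0 hy0 z hz).mono fun x hx => ⟨hx, hbig x hx⟩⟩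
  exact (hPall (h xM + 1) y0 ⟨hy0, hbig y0 hy0⟩ m0 hm0 m1 hm1 (hreach m0 hm0) (hreach m1 hm1)).1 hm0A

end H48U
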