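import Pool.Agent.Lib.H48U.Defs

set_option autoImplicit false

/-! # H48U, chunk A5 (S/M): counting

PROOF. If `M` is empty nothing to prove. Otherwise fix `m0 ∈ M`; the graph with the edges `{e1 s, e2 s}`, `s ∈ D`:
the set `A` of the points reachable from `m0` satisfies the hypothesis, so `M ⊆ A`. By induction on the number of edges
the component of `m0` has at most `D.card + 1` vertices (or restrict the graph to its component and use
`SimpleGraph.Connected.card_vert_le_card_edgeSet_add_one`). Direct induction on `D` is also possible, in the form: for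
every finite `D` the relation generated by `e1 s ~ e2 s` has, on `M`, at least `M.card - D.card` classes. -/

open Set Filter Topology

namespace H48U

theorem a5_label {α : Type*} [DecidableEq α] (M : Finset α) (e1 e2 : α → α) (D : Finset α) :
    ∃ f : α → α, (∀ s ∈ D, f (e1 s) = f (e2 s)) ∧ M.card ≤ (M.image f).card + D.card := by
  induction D using Finset.induction_on with
  | empty => exact ⟨id, by simp, by simp⟩
  | insert s D hs ih =>
    obtain ⟨f, hf, hcard⟩ := ih
    refine ⟨fun x => if f x = f (e1 s) then f (e2 s) else f x, ?_, ?_⟩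
    · intro s' hs'
      rcases Finset.mem_insert.mp hs' with rfl | hs'
      · simp only [if_true]
        split_ifs <;> rfl
      · simp only [hf s' hs']
    · have h1 : (M.image f).erase (f (e1 s))
          ⊆ M.image (fun x => if f x = f (e1 s) then f (e2 s) else f x) := by
        intro y hy
        obtain ⟨hne, hy⟩ := Finset.mem_erase.mp hy
        obtain ⟨x, hx, rfl⟩ := Finset.mem_image.mp hy
        exact Finset.mem_image.mpr ⟨x, hx, by simp [hne]⟩
      have h2 := Finset.card_le_card h1
      have h3 := Finset.pred_card_le_card_erase (s := M.image f) (a := f (e1 s))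
      rw [Finset.card_insert_of_notMem hs]
      omega

theorem comb {α : Type*} [DecidableEq α] (M D : Finset α) (e1 e2 : α → α)
    (H : ∀ A : Set α, (∀ s ∈ D, (e1 s ∈ A ↔ e2 s ∈ A)) → (∃ m ∈ M, m ∈ A) → ∀ m ∈ M, m ∈ A) :
    M.card ≤ D.card + 1 := by
  rcases M.eq_empty_or_nonempty with rfl | ⟨m0, hm0⟩
  · simp
  obtain ⟨f, hf, hcard⟩ := a5_label M e1 e2 D
  have h1 := H {x | f x = f m0} (fun s hs => by simp only [mem_ofPred_eq, hf s hs]) ⟨m0, hm0, rfl⟩
  have h2 : M.image f ⊆ {f m0} := by
    intro y hy
    obtain ⟨x, hx, rfl⟩ := Finset.mem_image.mp hy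
    exact Finset.mem_singleton.mpr (h1 x hx)
  have h3 := Finset.card_le_card h2
  rw [Finset.card_singleton] at h3
  omega

end H48U
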