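import Pool.Agent.Lib.H48U.A4
import Pool.Agent.Lib.H48U.A5

set_option autoImplicit false

/-! # H48U, chunk A6 (S/M): at most one bottom more than passes

PROOF. If `M` is empty the claim is trivial; let `m0 ∈ M`. For `s ∈ D` let `U, p, q` be given by `Two`. If
`p ∈ sub Ω h (h s)` let `e1 s` be a bottom reached from `p` below `h s` (`reach_exists`), otherwise `e1 s = m0`; the same
for `q`, `e2 s`. If `y ∈ U` is joined with `p` below `h s`, then `p ∈ sub Ω h (h s)`, and `y` reaches `e1 s`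
(`JoinedIn.trans`, symmetric). So `hE` of `all_in` holds, and `comb` applies (`classical` for `DecidableEq`). -/

open Set Filter Topology

namespace H48U

variable {X : Type*} [MetricSpace X]

theorem count (Ω : Set X) (hΩ : ∀ y ∈ Ω, ∀ z ∈ Ω, JoinedIn Ω y z) (hc : IsCompact (closure Ω)) (h : X → ℝ)
    (hh : Continuous h) (hL : ∀ x ∈ closure Ω, Loc0 Ω h x) (M D : Finset X) (hM : ∀ x, x ∈ M ↔ Bottom Ω h x)
    (hD : ∀ x ∈ closure Ω, x ∉ D → Good Ω h x) (hD2 : ∀ x ∈ D, Two Ω h x) : M.card ≤ D.card + 1 := by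
  classical
  rcases M.eq_empty_or_nonempty with rfl | ⟨m0, hm0⟩
  · simp
  have hch : ∀ s : X, ∃ m1 m2 : X, s ∈ D → ∃ U ∈ 𝓝 s, ∀ y ∈ U ∩ sub Ω h (h s),
      Reach Ω h (h s) y m1 ∧ m1 ∈ M ∨ Reach Ω h (h s) y m2 ∧ m2 ∈ M := by
    intro s
    by_cases hs : s ∈ D
    · obtain ⟨U, hU, p, q, hj⟩ := hD2 s hs
      have hb : ∀ p : X, ∃ m : X, ∀ y, JoinedIn (sub Ω h (h s)) y p → Reach Ω h (h s) y m ∧ m ∈ M := by
        intro p
        by_cases hp : p ∈ sub Ω h (h s)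
        · obtain ⟨m, hm, hr⟩ := reach_exists Ω hc h hh hL (h s) p hp
          refine ⟨m, fun y hy => ⟨⟨hr.1, fun U hU => ?_⟩, (hM m).2 hm⟩⟩
          obtain ⟨z, hz, hjz⟩ := hr.2 U hU
          exact ⟨z, hz, hy.trans hjz⟩
        · exact ⟨m0, fun y hy => absurd hy.target_mem hp⟩
      obtain ⟨m1, h1⟩ := hb p
      obtain ⟨m2, h2⟩ := hb q
      refine ⟨m1, m2, fun _ => ⟨U, hU, fun y hy => ?_⟩⟩
      rcases hj y hy with h3 | h3
      · exact Or.inl (h1 y h3)
      · exact Or.inr (h2 y h3)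
    · exact ⟨m0, m0, fun h => absurd h hs⟩
  choose e1 e2 hE using hch
  apply comb M D e1 e2
  intro A he hA
  exact all_in Ω hΩ hc h hh hL M D hM hD e1 e2 hE A he hA

end H48U
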