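import Pool.Agent.Lib.H48U.Defs

set_option autoImplicit false

/-! # H48U, chunk B0 (S): a direction which goes inside and down

PROOF. Let `u` be the gradient, `l v = ⟪u, v⟫` (Riesz, `InnerProductSpace.toDual`), `u ≠ 0`. If `‖u‖ b ≠ ‖b‖ u` take
`w = ‖b‖⁻¹ b - ‖u‖⁻¹ u`: `⟪u, w⟫ = ⟪u, b⟫ / ‖b‖ - ‖u‖ < 0` and `⟪b, w⟫ = ‖b‖ - ⟪b, u⟫ / ‖u‖ > 0` by the strict
Cauchy-Schwarz inequality (`inner_eq_norm_mul_iff`). If `‖u‖ b = ‖b‖ u`, then `l v = (‖u‖ / ‖b‖) ⟪b, v⟫`. -/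

open Set Filter Topology

namespace H48U

open Pool.Agent.Lib.PenroseSph (E3)

theorem dir_exists (l : E3 →L[ℝ] ℝ) (hl : l ≠ 0) (b : E3) (hb : b ≠ 0)
    (h : ¬ ∃ k : ℝ, 0 < k ∧ ∀ v, l v = k * inner ℝ b v) : ∃ w : E3, l w < 0 ∧ 0 < inner ℝ b w := by
  set u : E3 := (InnerProductSpace.toDual ℝ E3).symm l with hu
  have hlu : ∀ v, l v = inner ℝ u v := fun v => by
    rw [hu, InnerProductSpace.toDual_symm_apply]
  have hu0 : u ≠ 0 := by
    intro h0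
    apply hl
    ext v
    rw [hlu v, h0]
    simp
  have hnu : 0 < ‖u‖ := norm_pos_iff.mpr hu0
  have hnb : 0 < ‖b‖ := norm_pos_iff.mpr hb
  by_cases hpar : ‖u‖ • b = ‖b‖ • u
  · exfalso
    apply h
    refine ⟨‖u‖ / ‖b‖, div_pos hnu hnb, fun v => ?_⟩
    have h1 : u = (‖u‖ / ‖b‖) • b := by
      rw [div_eq_inv_mul, mul_smul, hpar, smul_smul, inv_mul_cancel₀ hnb.ne', one_smul]
    rw [hlu v]
    conv_lhs => rw [h1]
    rw [inner_smul_left]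
    simp
  · have hlt : inner ℝ u b < ‖u‖ * ‖b‖ := by
      refine lt_of_le_of_ne (real_inner_le_norm u b) ?_
      intro h1
      apply hpar
      have := (inner_eq_norm_mul_iff_real (x := u) (y := b)).mp h1
      rw [this]
    refine ⟨‖b‖⁻¹ • b - ‖u‖⁻¹ • u, ?_, ?_⟩
    · rw [hlu, inner_sub_right, inner_smul_right, inner_smul_right, real_inner_self_eq_norm_sq]
      have h2 : ‖b‖⁻¹ * inner ℝ u b < ‖u‖ := by
        rw [inv_mul_lt_iff₀ hnb]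
        linarith [mul_comm ‖u‖ ‖b‖]
      have h3 : ‖u‖⁻¹ * ‖u‖ ^ 2 = ‖u‖ := by field_simp
      rw [h3]
      linarith
    · rw [inner_sub_right, inner_smul_right, inner_smul_right, real_inner_self_eq_norm_sq, real_inner_comm]
      have h2 : ‖u‖⁻¹ * inner ℝ u b < ‖b‖ := by
        rw [inv_mul_lt_iff₀ hnu]
        exact hlt
      have h3 : ‖b‖⁻¹ * ‖b‖ ^ 2 = ‖b‖ := by field_simp
      rw [h3]
      linarith

end H48U
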