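import Pool.Agent.Lib.H48U.Defs

set_option autoImplicit false

/-! # H48U, chunk B1 (M): pushing inside and down

PROOF. Let `h = ht b`. Choose `ρ > 0` such that on `ball x ρ`: `φ` is differentiable, `fderiv ℝ φ y w < 0` (continuity of
the derivative at `x`, `C²`), `y ∈ Ω ↔ φ y < 0`, and, in the first case of `hc`, `ht b y < c`. So along a segment
`y + s • w` in this ball `φ` is strictly decreasing, and in the second case `ht b` is strictly decreasing. Let
`s0 > 0` with `s0 ‖w‖ < ρ / 2`; the point `x1 = x + s0 • w` satisfies `φ x1 < 0` and `ht b x1 < c`; by continuity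
`ball x1 r ⊆ Ω ∩ {ht b < c}` for some `0 < r < ρ / 2`. `U = ball x r`: `y ∈ U ∩ sub` is joined by the segment
(which stays in `ball x ρ`, where `φ < 0`, `ht b < c`) with `y + s0 • w ∈ ball x1 r`, and the ball is convex. The second
claim: the points `x + s • w`, `s → 0+`. -/

open Set Filter Topology Metric

namespace H48U

open Pool.Agent.Lib.PenroseSph (E3)

theorem b1_ht (b y w : E3) (s : ℝ) : ht b (y + s • w) = ht b y - s * inner ℝ b w := by
  simp only [ht, inner_add_right, inner_smul_right]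
  ring

/-- `φ` decreases along `w` in a ball where its derivative in the direction `w` is negative. -/
theorem b1_anti (φ : E3 → ℝ) (x w : E3) (ρ : ℝ)
    (hd : ∀ y ∈ ball x ρ, DifferentiableAt ℝ φ y) (hw : ∀ y ∈ ball x ρ, fderiv ℝ φ y w < 0)
    (y : E3) (s1 : ℝ) (hs1 : 0 ≤ s1) (hy : y ∈ ball x ρ) (hy1 : y + s1 • w ∈ ball x ρ) :
    (∀ s ∈ Icc 0 s1, y + s • w ∈ ball x ρ) ∧ StrictAntiOn (fun s : ℝ => φ (y + s • w)) (Icc 0 s1) := by
  have hmem : ∀ s ∈ Icc 0 s1, y + s • w ∈ ball x ρ := by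
    intro s hs
    rcases hs1.eq_or_lt with h0 | h0
    · have : s = 0 := le_antisymm (h0 ▸ hs.2) hs.1
      rw [this, zero_smul, add_zero]
      exact hy
    · have hconv := (convex_ball x ρ).add_smul_mem hy hy1 (t := s / s1)
        ⟨div_nonneg hs.1 hs1, (div_le_one h0).mpr hs.2⟩
      have : (s / s1) • s1 • w = s • w := by
        rw [smul_smul, div_mul_cancel₀ _ h0.ne']
      rwa [this] at hconv
  refine ⟨hmem, ?_⟩
  have hder : ∀ s ∈ Icc 0 s1, HasDerivAt (fun s : ℝ => φ (y + s • w)) (fderiv ℝ φ (y + s • w) w) s := by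
    intro s hs
    have h1 : HasDerivAt (fun s : ℝ => y + s • w) w s := by
      simpa using ((hasDerivAt_id s).smul_const w).const_add y
    exact ((hd _ (hmem s hs)).hasFDerivAt.comp_hasDerivAt s h1)
  apply strictAntiOn_of_deriv_neg (convex_Icc 0 s1)
  · intro s hs
    exact (hder s hs).continuousAt.continuousWithinAt
  · intro s hs
    rw [interior_Icc] at hs
    have hs' : s ∈ Icc 0 s1 := ⟨hs.1.le, hs.2.le⟩
    rw [(hder s hs').deriv]
    exact hw _ (hmem s hs')

theorem push (Ω : Set E3) (φ : E3 → ℝ) (x b w : E3) (c : ℝ) (hl : IsLoc Ω φ x) (hw : fderiv ℝ φ x w < 0)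
    (hc : ht b x < c ∨ ht b x = c ∧ 0 < inner ℝ b w) :
    (∃ U ∈ 𝓝 x, ∀ y ∈ U ∩ sub Ω (ht b) c, ∀ z ∈ U ∩ sub Ω (ht b) c, JoinedIn (sub Ω (ht b) c) y z) ∧
      x ∈ closure (sub Ω (ht b) c) := by
  obtain ⟨hφ, hφ0, -, hΩ⟩ := hl
  have hcont : Continuous (ht b) := by
    unfold ht
    fun_prop
  have e1 : ∀ᶠ y in 𝓝 x, DifferentiableAt ℝ φ y := by
    filter_upwards [hφ.eventually (by simp)] with y hy
    exact hy.differentiableAt (by norm_num)
  have e2 : ∀ᶠ y in 𝓝 x, fderiv ℝ φ y w < 0 := by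
    have h1 : ContDiffAt ℝ 1 (fderiv ℝ φ) x := hφ.fderiv_right (by norm_num)
    have h2 : ContinuousAt (fun y => fderiv ℝ φ y w) x := h1.continuousAt.clm_apply continuousAt_const
    exact h2.eventually_lt continuousAt_const hw
  have e3 : ∀ᶠ y in 𝓝 x, ht b x < c → ht b y < c := by
    by_cases h : ht b x < c
    · filter_upwards [hcont.continuousAt.eventually_lt continuousAt_const h] with y hy _
      exact hy
    · exact Eventually.of_forall fun y hy => absurd hy h
  obtain ⟨ρ, hρ, hball⟩ := Metric.eventually_nhds_iff_ball.mp (e1.and (e2.and (e3.and hΩ)))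
  -- moving along `w` keeps the height below `c`
  have hdown : ∀ y ∈ ball x ρ, ∀ s : ℝ, 0 ≤ s → y + s • w ∈ ball x ρ → ht b y < c → ht b (y + s • w) < c := by
    intro y _ s hs hys hyc
    rcases hc with h | h
    · exact (hball _ hys).2.2.1 h
    · rw [b1_ht]
      nlinarith [mul_nonneg hs h.2.le]
  have hdown' : ∀ s : ℝ, 0 < s → x + s • w ∈ ball x ρ → ht b (x + s • w) < c := by
    intro s hs hys
    rcases hc with h | h
    · exact (hball _ hys).2.2.1 h
    · rw [b1_ht]
      nlinarith [mul_pos hs h.2]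
  obtain ⟨s0, hs0, hs0w⟩ : ∃ s0 : ℝ, 0 < s0 ∧ s0 * ‖w‖ < ρ / 2 := by
    refine ⟨ρ / (4 * (‖w‖ + 1)), by positivity, ?_⟩
    rw [div_mul_eq_mul_div, div_lt_div_iff₀ (by positivity) (by norm_num)]
    nlinarith [norm_nonneg w]
  have hmem : ∀ y ∈ ball x (ρ / 2), ∀ s : ℝ, 0 ≤ s → s ≤ s0 → y + s • w ∈ ball x ρ := by
    intro y hy s hs hss
    rw [mem_ball, dist_eq_norm] at hy ⊢
    have h1 : y + s • w - x = (y - x) + s • w := by abel
    rw [h1]
    have h2 : ‖s • w‖ ≤ s0 * ‖w‖ := by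
      rw [norm_smul, Real.norm_of_nonneg hs]
      exact mul_le_mul_of_nonneg_right hss (norm_nonneg w)
    linarith [norm_add_le (y - x) (s • w)]
  have hsub : ball x (ρ / 2) ⊆ ball x ρ := ball_subset_ball (by linarith)
  have hx2 : x ∈ ball x (ρ / 2) := mem_ball_self (by linarith)
  have hanti : ∀ y ∈ ball x (ρ / 2), StrictAntiOn (fun s : ℝ => φ (y + s • w)) (Icc 0 s0) := by
    intro y hy
    exact (b1_anti φ x w ρ (fun y hy => (hball y hy).1) (fun y hy => (hball y hy).2.1) y s0 hs0.le (hsub hy)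
      (hmem y hy s0 hs0.le le_rfl)).2
  -- the point above `x`
  have hneg : ∀ s : ℝ, 0 < s → s ≤ s0 → φ (x + s • w) < 0 := by
    intro s hs hss
    have := hanti x hx2 (left_mem_Icc.mpr hs0.le) ⟨hs.le, hss⟩ hs
    simpa [hφ0] using this
  have hin : ∀ s : ℝ, 0 < s → s ≤ s0 → x + s • w ∈ sub Ω (ht b) c := by
    intro s hs hss
    have h1 := hmem x hx2 s hs.le hss
    exact ⟨(hball _ h1).2.2.2.mpr (hneg s hs hss), hdown' s hs h1⟩
  refine ⟨?_, ?_⟩
  · have hx1 : x + s0 • w ∈ ball x ρ := hmem x hx2 s0 hs0.le le_rfl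
    have e4 : ∀ᶠ y in 𝓝 (x + s0 • w), y ∈ sub Ω (ht b) c := by
      have h1 : ∀ᶠ y in 𝓝 (x + s0 • w), φ y < 0 :=
        (hball _ hx1).1.continuousAt.eventually_lt continuousAt_const (hneg s0 hs0 le_rfl)
      have h2 : ∀ᶠ y in 𝓝 (x + s0 • w), ht b y < c :=
        hcont.continuousAt.eventually_lt continuousAt_const (hdown' s0 hs0 hx1)
      filter_upwards [h1, h2, isOpen_ball.mem_nhds hx1] with y hy1 hy2 hy3
      exact ⟨(hball _ hy3).2.2.2.mpr hy1, hy2⟩
    obtain ⟨r1, hr1, hball1⟩ := Metric.eventually_nhds_iff_ball.mp e4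
    refine ⟨ball x (min r1 (ρ / 2)), ball_mem_nhds x (lt_min hr1 (by linarith)), ?_⟩
    have hseg : ∀ y ∈ ball x (min r1 (ρ / 2)) ∩ sub Ω (ht b) c, JoinedIn (sub Ω (ht b) c) y (y + s0 • w) := by
      intro y hy
      have hy2 : y ∈ ball x (ρ / 2) := ball_subset_ball (min_le_right _ _) hy.1
      apply JoinedIn.of_segment_subset
      rw [segment_eq_image']
      rintro _ ⟨t, ht1, rfl⟩
      have h1 : y + t • (y + s0 • w - y) = y + (t * s0) • w := by
        rw [add_sub_cancel_left, smul_smul]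
      simp only [h1]
      have h2 : 0 ≤ t * s0 := mul_nonneg ht1.1 hs0.le
      have h3 : t * s0 ≤ s0 := by nlinarith [ht1.2]
      have h4 := hmem y hy2 (t * s0) h2 h3
      have hφy : φ y < 0 := (hball y (hsub hy2)).2.2.2.mp hy.2.1
      have h5 : φ (y + (t * s0) • w) ≤ φ y := by
        have := (hanti y hy2).antitoneOn (left_mem_Icc.mpr hs0.le) ⟨h2, h3⟩ h2
        simpa using this
      exact ⟨(hball _ h4).2.2.2.mpr (lt_of_le_of_lt h5 hφy), hdown y (hsub hy2) _ h2 h4 hy.2.2⟩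
    intro y hy z hz
    have hmid : JoinedIn (sub Ω (ht b) c) (y + s0 • w) (z + s0 • w) := by
      have hb1 : ∀ u ∈ ball x (min r1 (ρ / 2)), u + s0 • w ∈ ball (x + s0 • w) r1 := by
        intro u hu
        rw [mem_ball, dist_add_right]
        exact lt_of_lt_of_le hu (min_le_left _ _)
      have : JoinedIn (ball (x + s0 • w) r1) (y + s0 • w) (z + s0 • w) :=
        JoinedIn.of_segment_subset ((convex_ball _ _).segment_subset (hb1 y hy.1) (hb1 z hz.1))
      exact this.mono fun u hu => hball1 u hu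
    exact (hseg y hy).trans (hmid.trans (hseg z hz).symm)
  · have hlim : Tendsto (fun s : ℝ => x + s • w) (𝓝[>] 0) (𝓝 x) := by
      have h1 : Tendsto (fun s : ℝ => x + s • w) (𝓝 0) (𝓝 (x + (0 : ℝ) • w)) := by
        apply Continuous.tendsto
        fun_prop
      rw [zero_smul, add_zero] at h1
      exact h1.mono_left nhdsWithin_le_nhds
    apply mem_closure_of_tendsto hlim
    filter_upwards [Ioc_mem_nhdsGT hs0] with s hs
    exact hin s hs.1 hs.2

end H48U
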