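import Pool.Agent.Lib.H48U.B5

set_option autoImplicit false

/-! # H48U, chunk B6 (M): paths in the plane give paths below the level

PROOF. `ht b (pt b v w x ξ s) = ht b x - s ‖b‖²` (`inner ℝ b v = inner ℝ b w = 0`), so for `s > 0` the point is below the
level of `x`. Vertical moves: if `0 < s' < s < r`, `‖ξ‖ < r` and `pt ξ s ∈ Ω`, then `φ (pt ξ s'') ≤ φ (pt ξ s) < 0` for
`s' ≤ s'' ≤ s`, so the vertical segment is in `sub`. Horizontal move: let `γ` be a path from `ξ` to `η` in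
`{‖·‖ < r, φ (pt · 0) < 0}`. For every `τ` there is `δ > 0` with `φ (pt (γ τ) δ) < 0` (continuity); by compactness of the
image of `γ` (continuity of `φ` at the points `pt (γ τ) 0`; tube lemma, or a finite subcover) one `0 < δ < min s s'`
works for all `τ`. Join `pt ξ s` to `pt ξ δ`, then along `pt (γ τ) δ`, then `pt η δ` to `pt η s'`. -/

open Set Filter Topology Metric

namespace H48U

open Pool.Agent.Lib.PenroseSph (E3)

theorem ht_pt (b v w x : E3) (hv : inner ℝ b v = (0 : ℝ)) (hw : inner ℝ b w = (0 : ℝ)) (ξ : ℝ × ℝ) (s : ℝ) :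
    ht b (pt b v w x ξ s) = ht b x - s * ‖b‖ ^ 2 := by
  unfold ht pt
  rw [inner_add_right, inner_add_right, inner_add_right, inner_smul_right, inner_smul_right, inner_smul_right,
    hv, hw, real_inner_self_eq_norm_sq]
  ring

theorem b6_cont (b v w x : E3) : Continuous fun z : ℝ × (ℝ × ℝ) => pt b v w x z.2 z.1 := by
  unfold pt
  fun_prop

theorem b6_vert (Ω : Set E3) (φ : E3 → ℝ) (b v w x : E3) (hb : b ≠ 0) (hv : inner ℝ b v = (0 : ℝ))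
    (hw : inner ℝ b w = (0 : ℝ)) (r : ℝ) (h : Vert Ω φ b v w x r) (ξ : ℝ × ℝ) (hξ : ‖ξ‖ < r) (s s' : ℝ)
    (hs' : 0 < s') (hss : s' ≤ s) (hsr : s < r) (h1 : pt b v w x ξ s ∈ Ω) :
    JoinedIn (sub Ω (ht b) (ht b x)) (pt b v w x ξ s) (pt b v w x ξ s') := by
  have hs : 0 < s := hs'.trans_le hss
  have h2 : JoinedIn (Icc s' s) s s' := by
    refine JoinedIn.of_segment_subset ?_
    exact (convex_Icc s' s).segment_subset ⟨hss, le_rfl⟩ ⟨le_rfl, hss⟩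
  have hc : Continuous fun u : ℝ => pt b v w x ξ u := by
    unfold pt
    fun_prop
  refine (h2.map hc).mono ?_
  rintro _ ⟨u, hu, rfl⟩
  have hu0 : 0 < u := hs'.trans_le hu.1
  have hur : u < r := hu.2.trans_lt hsr
  obtain ⟨hm, hin⟩ := h.2 ξ hξ
  have h3 : φ (pt b v w x ξ s) < 0 := ((hin s (by rw [abs_of_pos hs]; exact hsr)).2).1 h1
  have h4 : φ (pt b v w x ξ u) ≤ φ (pt b v w x ξ s) := by
    rcases eq_or_lt_of_le hu.2 with h5 | h5
    · rw [h5]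
    · exact (hm u s (by linarith [h.1]) h5 hsr).le
  refine ⟨((hin u (by rw [abs_of_pos hu0]; exact hur)).2).2 (h4.trans_lt h3), ?_⟩
  show ht b (pt b v w x ξ u) < ht b x
  rw [ht_pt b v w x hv hw]
  have : 0 < u * ‖b‖ ^ 2 := by positivity
  linarith

theorem lift (Ω : Set E3) (φ : E3 → ℝ) (b v w x : E3) (hb : b ≠ 0) (hv : inner ℝ b v = (0 : ℝ))
    (hw : inner ℝ b w = (0 : ℝ)) (r : ℝ) (h : Vert Ω φ b v w x r) (ξ η : ℝ × ℝ) (s s' : ℝ) (hs : 0 < s) (hsr : s < r)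
    (hs' : 0 < s') (hsr' : s' < r) (h1 : pt b v w x ξ s ∈ Ω) (h2 : pt b v w x η s' ∈ Ω)
    (hj : JoinedIn {ζ : ℝ × ℝ | ‖ζ‖ < r ∧ φ (pt b v w x ζ 0) < 0} ξ η) :
    JoinedIn (sub Ω (ht b) (ht b x)) (pt b v w x ξ s) (pt b v w x η s') := by
  obtain ⟨γ, hγ⟩ := hj
  have hr0 : (0 : ℝ) < r := h.1
  have hK : IsCompact (range γ) := isCompact_range γ.continuous
  have hP : ∀ ζ ∈ range γ, ∀ᶠ z : ℝ × (ℝ × ℝ) in 𝓝 ((0 : ℝ), ζ), φ (pt b v w x z.2 z.1) < 0 := by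
    rintro ζ ⟨τ, rfl⟩
    have h3 := hγ τ
    have h4 : ContinuousAt φ (pt b v w x (γ τ) 0) :=
      (((h.2 (γ τ) h3.1).2 0 (by rw [abs_zero]; exact hr0)).1)
    have h5 : ContinuousAt (fun z : ℝ × (ℝ × ℝ) => φ (pt b v w x z.2 z.1)) ((0 : ℝ), γ τ) :=
      ContinuousAt.comp (f := fun z : ℝ × (ℝ × ℝ) => pt b v w x z.2 z.1) h4 (b6_cont b v w x).continuousAt
    exact h5.eventually_lt continuousAt_const h3.2
  have h6 : ∀ᶠ δ in 𝓝 (0 : ℝ), ∀ ζ ∈ range γ, φ (pt b v w x ζ δ) < 0 :=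
    hK.eventually_forall_of_forall_eventually hP
  have h7 : ∀ᶠ δ in 𝓝[>] (0 : ℝ), ∀ ζ ∈ range γ, φ (pt b v w x ζ δ) < 0 := h6.filter_mono nhdsWithin_le_nhds
  have h8 : ∀ᶠ δ in 𝓝[>] (0 : ℝ), δ ∈ Ioo 0 (min s s') :=
    Ioo_mem_nhdsGT (lt_min hs hs')
  obtain ⟨δ, hδ1, hδ2⟩ := (h7.and h8).exists
  have hδs : δ < s := hδ2.2.trans_le (min_le_left _ _)
  have hδs' : δ < s' := hδ2.2.trans_le (min_le_right _ _)
  have hδ0 : 0 < δ := hδ2.1
  have hξr : ‖ξ‖ < r := by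
    have := (hγ 0).1
    rwa [γ.source] at this
  have hηr : ‖η‖ < r := by
    have := (hγ 1).1
    rwa [γ.target] at this
  have j1 := b6_vert Ω φ b v w x hb hv hw r h ξ hξr s δ hδ0 hδs.le hsr h1
  have j3 := b6_vert Ω φ b v w x hb hv hw r h η hηr s' δ hδ0 hδs'.le hsr' h2
  have j2 : JoinedIn {ζ : ℝ × ℝ | ‖ζ‖ < r ∧ φ (pt b v w x ζ δ) < 0} ξ η :=
    ⟨γ, fun τ => ⟨(hγ τ).1, hδ1 _ ⟨τ, rfl⟩⟩⟩
  have hc : Continuous fun ζ : ℝ × ℝ => pt b v w x ζ δ := by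
    unfold pt
    fun_prop
  have j2' : JoinedIn (sub Ω (ht b) (ht b x)) (pt b v w x ξ δ) (pt b v w x η δ) := by
    refine (j2.map hc).mono ?_
    rintro _ ⟨ζ, hζ, rfl⟩
    refine ⟨(((h.2 ζ hζ.1).2 δ (by rw [abs_of_pos hδ0]; linarith)).2).2 hζ.2, ?_⟩
    show ht b (pt b v w x ζ δ) < ht b x
    rw [ht_pt b v w x hv hw]
    have : 0 < δ * ‖b‖ ^ 2 := by positivity
    linarith
  exact j1.trans (j2'.trans j3.symm)

end H48U
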