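import Pool.Agent.Lib.H48U.Defs

set_option autoImplicit false

/-! # H48U, chunk B7 (M): a positive definite Hessian in the plane

PROOF. The unit sphere of `ℝ × ℝ` is compact, `v ↦ ψ''(0)(v, v)` is continuous, so `ψ''(0)(v, v) ≥ 2 κ ‖v‖²` with `κ > 0`,
and by continuity of the second derivative `ψ''(η)(v, v) ≥ κ ‖v‖²` for `‖η‖ < r`, where also `ψ` is twice differentiable
(`ContDiffAt` of order 2 holds in a neighbourhood). For `0 ≠ ξ`, `‖ξ‖ < r`, the function `g τ = ψ (τ ξ)` has `g 0 = 0`,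
`g' 0 = 0`, `g'' > 0` on `[0, 1]`, so `g' > 0` on `(0, 1]` and `g 1 > 0`. -/

open Set Filter Topology Metric

namespace H48U

theorem b7_quad (Q : ℝ × ℝ →L[ℝ] (ℝ × ℝ →L[ℝ] ℝ)) (hp : ∀ v : ℝ × ℝ, v ≠ 0 → 0 < Q v v) :
    ∃ κ > 0, ∀ v : ℝ × ℝ, κ * ‖v‖ ^ 2 ≤ Q v v := by
  have hcont : Continuous fun v : ℝ × ℝ => Q v v := Q.continuous.clm_apply continuous_id
  have hne : (sphere (0 : ℝ × ℝ) 1).Nonempty := ⟨(1, 0), by simp [Prod.norm_def]⟩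
  obtain ⟨v0, hv0, hmin⟩ := (isCompact_sphere (0 : ℝ × ℝ) 1).exists_isMinOn hne hcont.continuousOn
  have hv0' : v0 ≠ 0 := by
    intro h
    rw [h] at hv0
    simp at hv0
  refine ⟨Q v0 v0, hp v0 hv0', ?_⟩
  intro v
  by_cases hv : v = 0
  · subst hv
    simp
  · have hn : 0 < ‖v‖ := norm_pos_iff.2 hv
    have hs : (‖v‖⁻¹ • v) ∈ sphere (0 : ℝ × ℝ) 1 := by
      rw [mem_sphere_zero_iff_norm, norm_smul, norm_inv, norm_norm, inv_mul_cancel₀ hn.ne']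
    have h1 : Q v0 v0 ≤ Q (‖v‖⁻¹ • v) (‖v‖⁻¹ • v) := hmin hs
    rw [map_smul, map_smul] at h1
    simp only [ContinuousLinearMap.smul_apply, smul_eq_mul] at h1
    have h2 : Q v0 v0 * ‖v‖ ^ 2 ≤ (‖v‖⁻¹ * (‖v‖⁻¹ * Q v v)) * ‖v‖ ^ 2 :=
      mul_le_mul_of_nonneg_right h1 (by positivity)
    have h3 : (‖v‖⁻¹ * (‖v‖⁻¹ * Q v v)) * ‖v‖ ^ 2 = Q v v := by
      field_simp
    linarith

theorem definite (ψ : ℝ × ℝ → ℝ) (h2 : ContDiffAt ℝ 2 ψ 0) (h0 : ψ 0 = 0) (h1 : fderiv ℝ ψ 0 = 0)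
    (hp : ∀ v : ℝ × ℝ, v ≠ 0 → 0 < fderiv ℝ (fderiv ℝ ψ) 0 v v) :
    ∃ r > 0, ∀ ξ : ℝ × ℝ, ξ ≠ 0 → ‖ξ‖ < r → 0 < ψ ξ := by
  obtain ⟨κ, hκ, hQ⟩ := b7_quad (fderiv ℝ (fderiv ℝ ψ) 0) hp
  have hd1 : ContDiffAt ℝ 1 (fderiv ℝ ψ) 0 := h2.fderiv_right (by norm_num)
  have hd : HasFDerivAt (fderiv ℝ ψ) (fderiv ℝ (fderiv ℝ ψ) 0) 0 :=
    (hd1.differentiableAt (by norm_num)).hasFDerivAt
  rw [hasFDerivAt_iff_isLittleO] at hd
  have hb := hd.def (show (0 : ℝ) < κ / 2 by positivity)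
  have hdf : ∀ᶠ ξ in 𝓝 (0 : ℝ × ℝ), DifferentiableAt ℝ ψ ξ := by
    filter_upwards [h2.eventually (by simp)] with ξ hξ
    exact hξ.differentiableAt (by norm_num)
  obtain ⟨r, hr, hball⟩ := Metric.eventually_nhds_iff_ball.1 (hb.and hdf)
  refine ⟨r, hr, ?_⟩
  intro ξ hξ0 hξ
  have hn : 0 < ‖ξ‖ := norm_pos_iff.2 hξ0
  have hmem : ∀ τ ∈ Icc (0 : ℝ) 1, τ • ξ ∈ ball (0 : ℝ × ℝ) r := by
    intro τ hτ
    rw [mem_ball_zero_iff, norm_smul, Real.norm_eq_abs, abs_of_nonneg hτ.1]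
    exact lt_of_le_of_lt (mul_le_of_le_one_left hn.le hτ.2) hξ
  have hder : ∀ τ ∈ Icc (0 : ℝ) 1, HasDerivAt (fun t : ℝ => ψ (t • ξ)) (fderiv ℝ ψ (τ • ξ) ξ) τ := by
    intro τ hτ
    have h3 : HasDerivAt (fun t : ℝ => t • ξ) ξ τ := by
      have := (hasDerivAt_id τ).smul_const ξ
      simpa using this
    have h4 := (hball _ (hmem τ hτ)).2.hasFDerivAt
    exact HasFDerivAt.comp_hasDerivAt (f := fun t : ℝ => t • ξ) τ h4 h3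
  have hmono : StrictMonoOn (fun t : ℝ => ψ (t • ξ)) (Icc 0 1) := by
    refine strictMonoOn_of_deriv_pos (convex_Icc 0 1) ?_ ?_
    · intro τ hτ
      exact (hder τ hτ).continuousAt.continuousWithinAt
    · intro τ hτ
      rw [interior_Icc] at hτ
      have hτ' : τ ∈ Icc (0 : ℝ) 1 := ⟨hτ.1.le, hτ.2.le⟩
      rw [(hder τ hτ').deriv]
      have h3 := (hball _ (hmem τ hτ')).1
      rw [h1, sub_zero, sub_zero] at h3
      have h4 : |fderiv ℝ ψ (τ • ξ) ξ - fderiv ℝ (fderiv ℝ ψ) 0 (τ • ξ) ξ| ≤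
          κ / 2 * ‖τ • ξ‖ * ‖ξ‖ := by
        have h5 := (fderiv ℝ ψ (τ • ξ) - fderiv ℝ (fderiv ℝ ψ) 0 (τ • ξ)).le_opNorm ξ
        rw [Real.norm_eq_abs] at h5
        refine h5.trans ?_
        exact mul_le_mul_of_nonneg_right h3 hn.le
      have h5 : fderiv ℝ (fderiv ℝ ψ) 0 (τ • ξ) ξ = τ * fderiv ℝ (fderiv ℝ ψ) 0 ξ ξ := by
        rw [map_smul]
        rfl
      rw [norm_smul, Real.norm_eq_abs, abs_of_pos hτ.1, h5] at h4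
      have h6 := (abs_le.1 h4).1
      have h7 := hQ ξ
      have h8 : τ * (κ * ‖ξ‖ ^ 2) ≤ τ * fderiv ℝ (fderiv ℝ ψ) 0 ξ ξ :=
        mul_le_mul_of_nonneg_left h7 hτ.1.le
      have h9 : 0 < τ * (κ * ‖ξ‖ ^ 2) := by
        have := hτ.1
        positivity
      nlinarith
  have h3 := hmono (left_mem_Icc.2 zero_le_one) (right_mem_Icc.2 zero_le_one) one_pos
  simp only [zero_smul, one_smul, h0] at h3
  exact h3

end H48U
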