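import Pool.Agent.Lib.H48U.Defs

set_option autoImplicit false

/-! # H48U, chunk B9 (S/M): the restriction to the plane

PROOF. `ξ ↦ pt b v w x ξ 0` is `x` plus a continuous linear map `A ξ = ξ.1 v + ξ.2 w`; chain rule. `fderiv φ x` vanishes on
the vectors orthogonal to `b` by `Crit`. The second derivative: near `0`, `fderiv ψ ξ = (fderiv φ (x + A ξ)).comp A`
(`φ` is differentiable near `x`), differentiate again. -/

open Set Filter Topology Metric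

namespace H48U

open Pool.Agent.Lib.PenroseSph (E3)

/-- the linear part of `ξ ↦ pt b v w x ξ 0` -/
noncomputable def b9A (v w : E3) : ℝ × ℝ →L[ℝ] E3 :=
  (ContinuousLinearMap.fst ℝ ℝ ℝ).smulRight v + (ContinuousLinearMap.snd ℝ ℝ ℝ).smulRight w

theorem b9A_apply (v w : E3) (ξ : ℝ × ℝ) : b9A v w ξ = ξ.1 • v + ξ.2 • w := rfl

theorem b9_pt (b v w x : E3) (ξ : ℝ × ℝ) : pt b v w x ξ 0 = x + b9A v w ξ := by
  rw [b9A_apply, pt, zero_smul, add_zero, add_assoc]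

theorem restrict (φ : E3 → ℝ) (b v w x : E3) (hφ : ContDiffAt ℝ 2 φ x) (h0 : φ x = 0) (hcr : Crit φ b x)
    (hv : inner ℝ b v = (0 : ℝ)) (hw : inner ℝ b w = (0 : ℝ)) :
    ContDiffAt ℝ 2 (fun ξ : ℝ × ℝ => φ (pt b v w x ξ 0)) 0 ∧ φ (pt b v w x 0 0) = 0 ∧
      fderiv ℝ (fun ξ : ℝ × ℝ => φ (pt b v w x ξ 0)) 0 = 0 ∧
      ∀ ξ η : ℝ × ℝ, fderiv ℝ (fderiv ℝ (fun ξ : ℝ × ℝ => φ (pt b v w x ξ 0))) 0 ξ η =
        D2 φ x (ξ.1 • v + ξ.2 • w) (η.1 • v + η.2 • w) := by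
  set A := b9A v w with hA
  have hpt : (fun ξ : ℝ × ℝ => φ (pt b v w x ξ 0)) = fun ξ => φ (x + A ξ) := by
    funext ξ
    rw [b9_pt]
  have hx0 : x + A 0 = x := by rw [map_zero, add_zero]
  rw [hpt]
  have hAd : ∀ ξ, HasFDerivAt (fun ξ => x + A ξ) A ξ := fun ξ => A.hasFDerivAt.const_add x
  have hφ' : ContDiffAt ℝ 2 φ (x + A 0) := by rw [hx0]; exact hφ
  have hcont : ContinuousAt (fun ξ => x + A ξ) 0 := (hAd 0).continuousAt
  have hev : ∀ᶠ ξ in 𝓝 (0 : ℝ × ℝ), ContDiffAt ℝ 2 φ (x + A ξ) :=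
    hcont.eventually (hφ'.eventually (by simp))
  have hfd : ∀ ξ, ContDiffAt ℝ 2 φ (x + A ξ) →
      fderiv ℝ (fun ξ => φ (x + A ξ)) ξ = (fderiv ℝ φ (x + A ξ)).comp A := by
    intro ξ hξ
    have h1 : HasFDerivAt φ (fderiv ℝ φ (x + A ξ)) (x + A ξ) :=
      (hξ.differentiableAt (by simp)).hasFDerivAt
    exact (h1.comp ξ (hAd ξ)).fderiv
  refine ⟨?_, ?_, ?_, ?_⟩
  · exact hφ'.comp 0 (contDiffAt_const.add A.contDiff.contDiffAt)
  · rw [b9_pt]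
    change φ (x + A 0) = 0
    rw [hx0, h0]
  · rw [hfd 0 hφ', hx0]
    obtain ⟨l, hl, hcr⟩ := hcr
    ext
    · change fderiv ℝ φ x (A (1, 0)) = 0
      rw [hcr, hA, b9A_apply, inner_add_right, inner_smul_right, inner_smul_right, hv, hw]
      simp
    · change fderiv ℝ φ x (A (0, 1)) = 0
      rw [hcr, hA, b9A_apply, inner_add_right, inner_smul_right, inner_smul_right, hv, hw]
      simp
  · intro ξ η
    have h1 : fderiv ℝ (fun ξ => φ (x + A ξ)) =ᶠ[𝓝 0] fun ξ => (fderiv ℝ φ (x + A ξ)).comp A := by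
      filter_upwards [hev] with ξ hξ
      exact hfd ξ hξ
    rw [h1.fderiv_eq]
    have h2 : DifferentiableAt ℝ (fderiv ℝ φ) (x + A 0) :=
      (hφ'.fderiv_right (m := 1) (by norm_num)).differentiableAt (by simp)
    have h3 : HasFDerivAt (fun ξ => fderiv ℝ φ (x + A ξ)) ((fderiv ℝ (fderiv ℝ φ) (x + A 0)).comp A) 0 :=
      h2.hasFDerivAt.comp 0 (hAd 0)
    have h4 : HasFDerivAt (fun ξ => (fderiv ℝ φ (x + A ξ)).comp A)
        (((ContinuousLinearMap.compL ℝ (ℝ × ℝ) E3 ℝ).flip A).comp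
          ((fderiv ℝ (fderiv ℝ φ) (x + A 0)).comp A)) 0 :=
      ((ContinuousLinearMap.compL ℝ (ℝ × ℝ) E3 ℝ).flip A).hasFDerivAt.comp 0 h3
    rw [h4.fderiv, hx0]
    rfl

end H48U
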