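import Pool.Agent.Lib.H48U.B4
import Pool.Agent.Lib.H48U.B6
import Pool.Agent.Lib.H48U.B7
import Pool.Agent.Lib.H48U.B9

set_option autoImplicit false

/-! # H48U, chunk B10 (M): definite critical points

PROOF. Choose a basis `v, w` of the plane orthogonal to `b` (it has dimension 2) and `r` with `Vert`. `ψ ξ = φ (pt ξ 0)`.
`PosT`: by `definite` (with `restrict`; `ξ.1 v + ξ.2 w ≠ 0` for `ξ ≠ 0`) `ψ > 0` for `0 < ‖ξ‖ < r'`. Near `x` a point is
`pt ξ s` with `‖ξ‖, |s| < min r r'` (`coords`); below the level of `x` means `s > 0` (`ht_pt`), then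
`φ (pt ξ s) > ψ ξ ≥ 0`, so the point is not in `Ω`: `U ∩ sub = ∅`, which gives `Good` too. `x ∈ closure Ω`: the points
`pt 0 s`, `s < 0`, have `φ < φ x = 0`.
`NegT`: `definite` for `-ψ`: `ψ < 0` for `0 < ‖ξ‖ < r'`. Near `x` a point of `sub` is `pt ξ s`, `s > 0`, `ξ ≠ 0` (since
`φ (pt 0 s) > 0`). Two points `ξ, η ≠ 0` of the ball of radius `min r r'` (maximum norm) are joined in the punctured ball
(the segment, or, if it passes through `0`, two segments through a third point; or radially to a small sphere), so `lift`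
applies. Adherence: `ψ ξ < 0` for small `ξ ≠ 0`, so `pt ξ s ∈ sub` for small `s > 0`. -/

open Set Filter Topology Metric

namespace H48U

open Pool.Agent.Lib.PenroseSph (E3)

theorem plane_basis (b : E3) (hb : b ≠ 0) :
    ∃ v w : E3, inner ℝ b v = (0 : ℝ) ∧ inner ℝ b w = (0 : ℝ) ∧ LinearIndependent ℝ ![v, w] := by
  have hfact : Fact (Module.finrank ℝ E3 = 2 + 1) := ⟨by simp⟩
  have h1 : Module.finrank ℝ (Submodule.span ℝ {b})ᗮ = 2 :=
    Submodule.finrank_orthogonal_span_singleton hb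
  let B := Module.finBasisOfFinrankEq ℝ (Submodule.span ℝ {b})ᗮ h1
  refine ⟨B 0, B 1, ?_, ?_, ?_⟩
  · exact Submodule.mem_orthogonal_singleton_iff_inner_right.mp (B 0).2
  · exact Submodule.mem_orthogonal_singleton_iff_inner_right.mp (B 1).2
  · have h2 : LinearIndependent ℝ (fun i => ((B i : (Submodule.span ℝ {b})ᗮ) : E3)) :=
      B.linearIndependent.map' (Submodule.subtype _) (Submodule.ker_subtype _)
    have h3 : ![((B 0 : (Submodule.span ℝ {b})ᗮ) : E3), ((B 1 : (Submodule.span ℝ {b})ᗮ) : E3)]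
        = fun i => ((B i : (Submodule.span ℝ {b})ᗮ) : E3) := by
      funext i
      fin_cases i <;> rfl
    rw [h3]
    exact h2

theorem bottom_pos (Ω : Set E3) (φ : E3 → ℝ) (x b : E3) (hb : b ≠ 0) (hl : IsLoc Ω φ x) (hcr : Crit φ b x)
    (hp : PosT φ b x) : Bottom Ω (ht b) x ∧ Good Ω (ht b) x := by
  obtain ⟨v, w, hv, hw, hi⟩ := plane_basis b hb
  obtain ⟨r, hr⟩ := vert_exists Ω φ b v w x hb hl hcr
  obtain ⟨hψ2, hψ0, hψ1, hψ⟩ := restrict φ b v w x hl.1 hl.2.1 hcr hv hw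
  have hpd : ∀ ξ : ℝ × ℝ, ξ ≠ 0 →
      0 < fderiv ℝ (fderiv ℝ (fun ξ : ℝ × ℝ => φ (pt b v w x ξ 0))) 0 ξ ξ := by
    intro ξ hξ
    rw [hψ]
    apply hp
    · rw [inner_add_right, inner_smul_right, inner_smul_right, hv, hw]
      simp
    · intro h0
      have h1 := LinearIndependent.pair_iff.mp hi ξ.1 ξ.2 h0
      exact hξ (Prod.ext h1.1 h1.2)
  obtain ⟨r', hr', hdef⟩ := definite _ hψ2 hψ0 hψ1 hpd
  have hr0 : 0 < r := hr.1
  have hρ : 0 < min r r' := lt_min hr0 hr'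
  have hU := coords b v w x hb hv hw hi (min r r') hρ
  have hbn : 0 < ‖b‖ ^ 2 := by
    have := norm_pos_iff.mpr hb
    positivity
  have hempty : {y | ∃ (ξ : ℝ × ℝ) (s : ℝ), ‖ξ‖ < min r r' ∧ |s| < min r r' ∧ y = pt b v w x ξ s}
      ∩ sub Ω (ht b) (ht b x) = ∅ := by
    rw [Set.eq_empty_iff_forall_notMem]
    rintro y ⟨⟨ξ, s, hξ, hs, rfl⟩, hyΩ, hyh⟩
    rw [ht_pt b v w x hv hw] at hyh
    have hs0 : 0 < s := by
      by_contra hcon
      push Not at hcon
      have : s * ‖b‖ ^ 2 ≤ 0 := mul_nonpos_of_nonpos_of_nonneg hcon hbn.le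
      linarith
    have hξr : ‖ξ‖ < r := lt_of_lt_of_le hξ (min_le_left _ _)
    have hsr : |s| < r := lt_of_lt_of_le hs (min_le_left _ _)
    have h1 := (hr.2 ξ hξr).1 0 s (by linarith) hs0 (lt_of_le_of_lt (le_abs_self s) hsr)
    have h2 := ((hr.2 ξ hξr).2 s hsr).2.1 hyΩ
    have h3 : 0 ≤ φ (pt b v w x ξ 0) := by
      by_cases hξ0 : ξ = 0
      · rw [hξ0, hψ0]
      · exact (hdef ξ hξ0 (lt_of_lt_of_le hξ (min_le_right _ _))).le
    linarith
  have hclo : x ∈ closure Ω := by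
    have h1 : Tendsto (fun s : ℝ => pt b v w x 0 s) (𝓝[<] 0) (𝓝 x) := by
      have h2 : Continuous (fun s : ℝ => pt b v w x 0 s) := by
        unfold pt
        fun_prop
      have h3 : pt b v w x 0 0 = x := by
        simp [pt]
      have h4 := h2.tendsto 0
      rw [h3] at h4
      exact h4.mono_left nhdsWithin_le_nhds
    refine mem_closure_of_tendsto h1 ?_
    have h5 : ∀ᶠ s in 𝓝[<] (0 : ℝ), -r < s :=
      (show ∀ᶠ s in 𝓝 (0 : ℝ), -r < s from Ioi_mem_nhds (by linarith)).filter_mono nhdsWithin_le_nhds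
    have h6 : ∀ᶠ s in 𝓝[<] (0 : ℝ), s < 0 := eventually_mem_nhdsWithin
    filter_upwards [h5, h6] with s hs1 hs2
    have h0r : ‖(0 : ℝ × ℝ)‖ < r := by rw [norm_zero]; exact hr0
    have h7 := (hr.2 0 h0r).1 s 0 hs1 hs2 hr0
    rw [hψ0] at h7
    exact ((hr.2 0 h0r).2 s (by rw [abs_lt]; constructor <;> linarith)).2.2 h7
  refine ⟨⟨hclo, _, hU, hempty⟩, _, hU, ?_⟩
  intro y hy
  rw [show ({y | ∃ (ξ : ℝ × ℝ) (s : ℝ), ‖ξ‖ < min r r' ∧ |s| < min r r' ∧ y = pt b v w x ξ s}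
      ∩ sub Ω (ht b) (ht b x)) = ∅ from hempty] at hy
  exact absurd hy (Set.notMem_empty y)

end H48U
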