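import Pool.Agent.Lib.H48U.B10

set_option autoImplicit false

/-! # H48U, chunk B11 (M): maxima are good

PROOF: second half of the text in `B10.lean`. -/

open Set Filter Topology Metric

namespace H48U

open Pool.Agent.Lib.PenroseSph (E3)

theorem b11_seg (r : ℝ) (ξ η : ℝ × ℝ) (h1 : ‖ξ‖ < r) (h2 : ‖η‖ < r)
    (h : (0 : ℝ × ℝ) ∉ segment ℝ ξ η) : JoinedIn {ζ : ℝ × ℝ | ‖ζ‖ < r ∧ ζ ≠ 0} ξ η := by
  refine JoinedIn.of_segment_subset fun ζ hζ => ⟨?_, ?_⟩
  · have := (convex_ball (0 : ℝ × ℝ) r).segment_subset (mem_ball_zero_iff.mpr h1)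
      (mem_ball_zero_iff.mpr h2) hζ
    exact mem_ball_zero_iff.mp this
  · rintro rfl
    exact h hζ

theorem punctured (r : ℝ) (ξ η : ℝ × ℝ) (hξ : ξ ≠ 0) (hη : η ≠ 0) (h1 : ‖ξ‖ < r) (h2 : ‖η‖ < r) :
    JoinedIn {ζ : ℝ × ℝ | ‖ζ‖ < r ∧ ζ ≠ 0} ξ η := by
  by_cases h : (0 : ℝ × ℝ) ∈ segment ℝ ξ η
  · obtain ⟨a, b, ha, hb, hab, he⟩ := h
    have e1 : a * ξ.1 + b * η.1 = 0 := by
      have := congrArg Prod.fst he
      simpa using this
    have e2 : a * ξ.2 + b * η.2 = 0 := by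
      have := congrArg Prod.snd he
      simpa using this
    have hs : 0 < ξ.1 ^ 2 + ξ.2 ^ 2 := by
      rcases eq_or_ne ξ.1 0 with h0 | h0
      · have h3 : ξ.2 ≠ 0 := fun h4 => hξ (Prod.ext h0 h4)
        positivity
      · positivity
    have ht : 0 < η.1 ^ 2 + η.2 ^ 2 := by
      rcases eq_or_ne η.1 0 with h0 | h0
      · have h3 : η.2 ≠ 0 := fun h4 => hη (Prod.ext h0 h4)
        positivity
      · positivity
    set ζ : ℝ × ℝ := (-ξ.2, ξ.1) with hζ
    have hζn : ‖ζ‖ < r := by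
      have : ‖ζ‖ = ‖ξ‖ := by
        rw [hζ, Prod.norm_def, Prod.norm_def, norm_neg, max_comm]
      rw [this]; exact h1
    have s1 : (0 : ℝ × ℝ) ∉ segment ℝ ξ ζ := by
      rintro ⟨c, d, hc, hd, hcd, he'⟩
      have f1 : c * ξ.1 + d * (-ξ.2) = 0 := by
        have := congrArg Prod.fst he'
        simpa [hζ] using this
      have f2 : c * ξ.2 + d * ξ.1 = 0 := by
        have := congrArg Prod.snd he'
        simpa [hζ] using this
      have f3 : c * (ξ.1 ^ 2 + ξ.2 ^ 2) = 0 := by linear_combination ξ.1 * f1 + ξ.2 * f2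
      have f4 : d * (ξ.1 ^ 2 + ξ.2 ^ 2) = 0 := by linear_combination ξ.1 * f2 - ξ.2 * f1
      have f5 : (c + d) * (ξ.1 ^ 2 + ξ.2 ^ 2) = 0 := by linear_combination f3 + f4
      rw [hcd, one_mul] at f5
      exact hs.ne' f5
    have s2 : (0 : ℝ × ℝ) ∉ segment ℝ ζ η := by
      rintro ⟨c, d, hc, hd, hcd, he'⟩
      have f1 : c * (-ξ.2) + d * η.1 = 0 := by
        have := congrArg Prod.fst he'
        simpa [hζ] using this
      have f2 : c * ξ.1 + d * η.2 = 0 := by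
        have := congrArg Prod.snd he'
        simpa [hζ] using this
      -- xi is orthogonal to zeta, b eta = - a xi
      have f3 : b * c * (ξ.1 ^ 2 + ξ.2 ^ 2) = 0 := by
        linear_combination b * ξ.1 * f2 - b * ξ.2 * f1 + d * (ξ.2 * e1 - ξ.1 * e2)
      have f4 : a * d * (ξ.1 ^ 2 + ξ.2 ^ 2) = 0 := by
        linear_combination d * (ξ.1 * e1 + ξ.2 * e2) - b * (ξ.1 * f1 + ξ.2 * f2)
      have hb0 : b ≠ 0 := by
        rintro rfl
        have ha1 : a = 1 := by linarith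
        rw [ha1] at e1 e2
        exact hξ (Prod.ext (by simpa using e1) (by simpa using e2))
      have ha0 : a ≠ 0 := by
        rintro rfl
        have hb1 : b = 1 := by linarith
        rw [hb1] at e1 e2
        exact hη (Prod.ext (by simpa using e1) (by simpa using e2))
      have hc0 : c = 0 := by
        rcases mul_eq_zero.mp f3 with h5 | h5
        · rcases mul_eq_zero.mp h5 with h6 | h6
          · exact absurd h6 hb0
          · exact h6
        · exact absurd h5 hs.ne'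
      have hd0 : d = 0 := by
        rcases mul_eq_zero.mp f4 with h5 | h5
        · rcases mul_eq_zero.mp h5 with h6 | h6
          · exact absurd h6 ha0
          · exact h6
        · exact absurd h5 hs.ne'
      rw [hc0, hd0] at hcd
      norm_num at hcd
    exact (b11_seg r ξ ζ h1 hζn s1).trans (b11_seg r ζ η hζn h2 s2)
  · exact b11_seg r ξ η h1 h2 h

theorem good_neg (Ω : Set E3) (φ : E3 → ℝ) (x b : E3) (hb : b ≠ 0) (hl : IsLoc Ω φ x) (hcr : Crit φ b x)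
    (hn : NegT φ b x) :
    Good Ω (ht b) x ∧ x ∈ closure (sub Ω (ht b) (ht b x)) ∧ ¬ Bottom Ω (ht b) x := by
  obtain ⟨v, w, hv, hw, hi⟩ := plane_basis b hb
  obtain ⟨r, hV⟩ := vert_exists Ω φ b v w x hb hl hcr
  obtain ⟨hc2, h0, h1, hD⟩ := restrict φ b v w x hl.1 hl.2.1 hcr hv hw
  set ψ : ℝ × ℝ → ℝ := fun ξ => φ (pt b v w x ξ 0) with hψ
  have hne : ∀ ξ : ℝ × ℝ, ξ ≠ 0 → ξ.1 • v + ξ.2 • w ≠ 0 := by
    intro ξ hξ he
    have h2 := LinearIndependent.pair_iff.mp hi ξ.1 ξ.2 he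
    exact hξ (Prod.ext h2.1 h2.2)
  have horth : ∀ ξ : ℝ × ℝ, inner ℝ b (ξ.1 • v + ξ.2 • w) = (0 : ℝ) := by
    intro ξ
    rw [inner_add_right, inner_smul_right, inner_smul_right, hv, hw]
    ring
  have hfd : fderiv ℝ (fun ξ => -ψ ξ) = fun ξ => -fderiv ℝ ψ ξ := by
    funext ξ
    exact fderiv_fun_neg
  obtain ⟨r', hr', hneg⟩ := definite (fun ξ => -ψ ξ) hc2.neg (by simp only [hψ]; rw [h0]; simp)
    (by rw [hfd]; simp only []; rw [h1]; simp) (by
      intro ξ hξ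
      rw [hfd]
      have h3 : fderiv ℝ (fun ξ => -fderiv ℝ ψ ξ) 0 = -fderiv ℝ (fderiv ℝ ψ) 0 := fderiv_fun_neg
      rw [h3]
      show 0 < -(fderiv ℝ (fderiv ℝ ψ) 0 ξ ξ)
      rw [hD ξ ξ]
      have := hn _ (horth ξ) (hne ξ hξ)
      linarith)
  set ρ : ℝ := min r r' with hρ
  have hρ0 : 0 < ρ := lt_min hV.1 hr'
  have hVρ := hV.mono hρ0 (min_le_left r r')
  have hψneg : ∀ ξ : ℝ × ℝ, ξ ≠ 0 → ‖ξ‖ < ρ → φ (pt b v w x ξ 0) < 0 := by
    intro ξ hξ hξr
    have := hneg ξ hξ (hξr.trans_le (min_le_right _ _))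
    have h4 : 0 < -ψ ξ := this
    have h5 : ψ ξ = φ (pt b v w x ξ 0) := rfl
    linarith
  have hb2 : 0 < ‖b‖ ^ 2 := by
    have : 0 < ‖b‖ := norm_pos_iff.mpr hb
    positivity
  have hlow : ∀ y ∈ sub Ω (ht b) (ht b x), ∀ (ξ : ℝ × ℝ) (s : ℝ), ‖ξ‖ < ρ → |s| < ρ →
      y = pt b v w x ξ s → 0 < s ∧ ξ ≠ 0 := by
    intro y hy ξ s hξ hs hys
    have hs0 : 0 < s := by
      have h5 := hy.2
      rw [hys, ht_pt b v w x hv hw] at h5
      by_contra hcon
      push Not at hcon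
      nlinarith
    refine ⟨hs0, ?_⟩
    rintro rfl
    have h6 := (hVρ.2 0 (by simpa using hρ0)).1 0 s (by linarith) hs0 (abs_lt.mp hs).2
    have h7 := ((hVρ.2 0 (by simpa using hρ0)).2 s hs).2.mp (hys ▸ hy.1)
    rw [h0] at h6
    linarith
  have hadh : x ∈ closure (sub Ω (ht b) (ht b x)) := by
    rw [mem_closure_iff_nhds]
    intro o ho
    -- continuity of the coordinates
    have hcont : Continuous (fun p : (ℝ × ℝ) × ℝ => pt b v w x p.1 p.2) := by
      unfold pt; fun_prop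
    have hx0 : pt b v w x (0 : ℝ × ℝ) 0 = x := by unfold pt; simp
    have h8 : ∀ᶠ p in 𝓝 ((0 : ℝ × ℝ), (0 : ℝ)), pt b v w x p.1 p.2 ∈ o := by
      have h9 := hcont.tendsto ((0 : ℝ × ℝ), (0 : ℝ))
      simp only [hx0] at h9
      exact h9.eventually ho
    obtain ⟨δ, hδ, hδo⟩ := Metric.eventually_nhds_iff.mp h8
    set ε : ℝ := min δ ρ / 2 with hε
    have hε0 : 0 < ε := by have := lt_min hδ hρ0; positivity
    have hεδ : ε < δ := by
      have := min_le_left δ ρ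
      linarith
    have hερ : ε < ρ := by
      have := min_le_right δ ρ
      linarith
    set ξ : ℝ × ℝ := (ε, 0) with hξ
    have hξn : ‖ξ‖ = ε := by
      rw [hξ, Prod.norm_def]
      simp [abs_of_pos hε0, hε0.le]
    have hξ0 : ξ ≠ 0 := by
      intro h10
      rw [h10, norm_zero] at hξn
      linarith
    have h11 := hψneg ξ hξ0 (by rw [hξn]; exact hερ)
    have h12 := ((hVρ.2 ξ (by rw [hξn]; exact hερ)).2 0 (by simpa using hρ0)).1
    have h13 : ContinuousAt (fun s : ℝ => φ (pt b v w x ξ s)) 0 := by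
      have h14 : Continuous (fun s : ℝ => pt b v w x ξ s) := by unfold pt; fun_prop
      exact ContinuousAt.comp (f := fun s : ℝ => pt b v w x ξ s) (g := φ) h12 h14.continuousAt
    have h15 : ∀ᶠ s in 𝓝 (0 : ℝ), φ (pt b v w x ξ s) < 0 :=
      h13.tendsto.eventually (gt_mem_nhds h11)
    obtain ⟨δ2, hδ2, h16⟩ := Metric.eventually_nhds_iff.mp h15
    set s : ℝ := min δ2 ε / 2 with hs
    have hs0 : 0 < s := by have := lt_min hδ2 hε0; positivity
    have hsδ2 : s < δ2 := by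
      have := min_le_left δ2 ε
      linarith
    have hsε : s < ε := by
      have := min_le_right δ2 ε
      linarith
    have h17 : φ (pt b v w x ξ s) < 0 := h16 (by rw [Real.dist_eq, sub_zero, abs_of_pos hs0]; exact hsδ2)
    refine ⟨pt b v w x ξ s, ?_, ?_, ?_⟩
    · refine hδo (y := (ξ, s)) ?_
      rw [Prod.dist_eq]
      refine max_lt ?_ ?_
      · show dist ξ 0 < δ
        rw [dist_zero_right, hξn]; exact hεδ
      · show dist s 0 < δ
        rw [Real.dist_eq, sub_zero, abs_of_pos hs0]; linarith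
    · exact ((hVρ.2 ξ (by rw [hξn]; exact hερ)).2 s (by rw [abs_of_pos hs0]; linarith)).2.mpr h17
    · rw [ht_pt b v w x hv hw]
      have : 0 < s * ‖b‖ ^ 2 := by positivity
      linarith
  refine ⟨?_, hadh, ?_⟩
  · refine ⟨_, coords b v w x hb hv hw hi ρ hρ0, ?_⟩
    rintro y ⟨⟨ξ, s, hξ, hs, hys⟩, hy⟩ z ⟨⟨η, s', hη, hs', hzs⟩, hz⟩
    obtain ⟨hs0, hξ0⟩ := hlow y hy ξ s hξ hs hys
    obtain ⟨hs0', hη0⟩ := hlow z hz η s' hη hs' hzs
    rw [hys, hzs]
    refine lift Ω φ b v w x hb hv hw ρ hVρ ξ η s s' hs0 (abs_lt.mp hs).2 hs0' (abs_lt.mp hs').2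
      (hys ▸ hy.1) (hzs ▸ hz.1) ?_
    refine (punctured ρ ξ η hξ0 hη0 hξ hη).mono ?_
    rintro ζ ⟨hζ, hζ0⟩
    exact ⟨hζ, hψneg ζ hζ0 hζ⟩
  · rintro ⟨_, U, hU, hUe⟩
    rw [mem_closure_iff_nhds] at hadh
    obtain ⟨y, hy⟩ := hadh U hU
    rw [hUe] at hy
    exact hy

end H48U
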