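import Pool.Agent.Lib.H48U.Defs

set_option autoImplicit false

/-! # H48U, chunk B8 (M): an indefinite Hessian in the plane

PROOF. By continuity of the second derivative there is `r0 < ρ` such that for `‖η‖ < r0` `ψ` is twice differentiable at `η`,
`ψ''(η)((1,0),(1,0)) > 0` and `ψ''(η)((0,1),(0,1)) < 0`. Let `r = r0 / 2`. `a ↦ ψ (a, 0)` is strictly convex with zero value
and zero derivative at `0`, so `ψ (a, 0) > 0` for `0 ≠ a`, `|a| ≤ r`; `a ↦ ψ (0, a)` is strictly concave, so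
`ψ (0, ±r) < 0`. By continuity there is `0 < r1 < r` with `ψ (a, ±r) < 0` for `|a| ≤ r1`. Let `‖ξ‖ ≤ r1`, `ψ ξ < 0`,
`ξ.2 > 0`. The function `g b = ψ (ξ.1, b)` is concave on `[-r, r]`, `g 0 ≥ 0 > g ξ.2`, so `g b < 0` for all
`b ∈ [ξ.2, r]` (if `g b ≥ 0` then concavity on `[0, b]` gives `g ξ.2 ≥ 0`). So `ξ` is joined by the vertical segment with
`(ξ.1, r)`, and this by the horizontal segment with `(0, r)`. The same for `ξ.2 < 0`. -/

open Set Filter Topology Metric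

namespace H48U

theorem b8_pos {f f' f'' : ℝ → ℝ} {r : ℝ} (h1 : ∀ t, |t| < r → HasDerivAt f (f' t) t)
    (h2 : ∀ t, |t| < r → HasDerivAt f' (f'' t) t) (h3 : ∀ t, |t| < r → 0 < f'' t) (h0 : f 0 = 0) (h0' : f' 0 = 0)
    (t : ℝ) (ht0 : t ≠ 0) (ht : |t| < r) : 0 < f t := by
  have hr := abs_lt.1 ht
  rcases lt_or_gt_of_ne ht0 with hn | hp
  · have hin : ∀ x, t ≤ x → x ≤ 0 → |x| < r := fun x hx1 hx2 => abs_lt.2 ⟨by linarith, by linarith⟩
    obtain ⟨c, hc, hc'⟩ := exists_hasDerivAt_eq_slope f f' hn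
      (fun x hx => (h1 x (hin x hx.1 hx.2)).continuousAt.continuousWithinAt)
      (fun x hx => h1 x (hin x hx.1.le hx.2.le))
    obtain ⟨e, he, he'⟩ := exists_hasDerivAt_eq_slope f' f'' hc.2
      (fun x hx => (h2 x (hin x (hc.1.le.trans hx.1) hx.2)).continuousAt.continuousWithinAt)
      (fun x hx => h2 x (hin x (hc.1.le.trans hx.1.le) hx.2.le))
    have h4 := h3 e (hin e (hc.1.le.trans he.1.le) he.2.le)
    rw [he', h0', zero_sub, zero_sub, neg_div_neg_eq] at h4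
    have h5 : f' c < 0 := by
      by_contra h6
      push Not at h6
      have := div_nonpos_of_nonneg_of_nonpos h6 hc.2.le
      linarith
    rw [hc', h0, zero_sub, zero_sub, neg_div_neg_eq] at h5
    by_contra h6
    push Not at h6
    have := div_nonneg_of_nonpos h6 hn.le
    linarith
  · have hin : ∀ x, 0 ≤ x → x ≤ t → |x| < r := fun x hx1 hx2 => abs_lt.2 ⟨by linarith, by linarith⟩
    obtain ⟨c, hc, hc'⟩ := exists_hasDerivAt_eq_slope f f' hp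
      (fun x hx => (h1 x (hin x hx.1 hx.2)).continuousAt.continuousWithinAt)
      (fun x hx => h1 x (hin x hx.1.le hx.2.le))
    obtain ⟨e, he, he'⟩ := exists_hasDerivAt_eq_slope f' f'' hc.1
      (fun x hx => (h2 x (hin x hx.1 (hx.2.trans hc.2.le))).continuousAt.continuousWithinAt)
      (fun x hx => h2 x (hin x hx.1.le (hx.2.le.trans hc.2.le)))
    have h4 := h3 e (hin e he.1.le (he.2.le.trans hc.2.le))
    rw [he', h0', sub_zero, sub_zero] at h4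
    have h5 : 0 < f' c := by
      have := mul_pos h4 hc.1
      rwa [div_mul_cancel₀ _ hc.1.ne'] at this
    rw [hc', h0, sub_zero, sub_zero] at h5
    have := mul_pos h5 hp
    rwa [div_mul_cancel₀ _ hp.ne'] at this

theorem b8_neg {f f' f'' : ℝ → ℝ} {r : ℝ} (h1 : ∀ t, |t| < r → HasDerivAt f (f' t) t)
    (h2 : ∀ t, |t| < r → HasDerivAt f' (f'' t) t) (h3 : ∀ t, |t| < r → f'' t < 0) (h0 : 0 ≤ f 0)
    (s t : ℝ) (hs0 : 0 < s) (hst : s ≤ t) (ht : t < r) (hs : f s < 0) : f t < 0 := by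
  rcases eq_or_lt_of_le hst with h | hst
  · rw [← h]; exact hs
  have hin : ∀ x, 0 ≤ x → x ≤ t → |x| < r := fun x hx1 hx2 => abs_lt.2 ⟨by linarith, by linarith⟩
  obtain ⟨c, hc, hc'⟩ := exists_hasDerivAt_eq_slope f f' hs0
    (fun x hx => (h1 x (hin x hx.1 (hx.2.trans hst.le))).continuousAt.continuousWithinAt)
    (fun x hx => h1 x (hin x hx.1.le (hx.2.le.trans hst.le)))
  obtain ⟨d, hd, hd'⟩ := exists_hasDerivAt_eq_slope f f' hst
    (fun x hx => (h1 x (hin x (hs0.le.trans hx.1) hx.2)).continuousAt.continuousWithinAt)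
    (fun x hx => h1 x (hin x (hs0.le.trans hx.1.le) hx.2.le))
  have hcd : c < d := hc.2.trans hd.1
  obtain ⟨e, he, he'⟩ := exists_hasDerivAt_eq_slope f' f'' hcd
    (fun x hx => (h2 x (hin x (hc.1.le.trans hx.1) (hx.2.trans hd.2.le))).continuousAt.continuousWithinAt)
    (fun x hx => h2 x (hin x (hc.1.le.trans hx.1.le) (hx.2.le.trans hd.2.le)))
  have h4 := h3 e (hin e (hc.1.le.trans he.1.le) (he.2.le.trans hd.2.le))
  have h5 : f' d < f' c := by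
    rw [he', div_lt_iff₀ (by linarith)] at h4
    linarith
  have h6 : f' c < 0 := by
    rw [hc', div_lt_iff₀ (by linarith)]
    linarith
  have h7 : f' d < 0 := h5.trans h6
  rw [hd', div_lt_iff₀ (by linarith)] at h7
  linarith

theorem b8_dir {ψ : ℝ × ℝ → ℝ} {z : ℝ → ℝ × ℝ} {e : ℝ × ℝ} {t : ℝ} (hz : HasDerivAt z e t)
    (h : ContDiffAt ℝ 2 ψ (z t)) :
    HasDerivAt (fun u => ψ (z u)) (fderiv ℝ ψ (z t) e) t ∧
      HasDerivAt (fun u => fderiv ℝ ψ (z u) e) (fderiv ℝ (fderiv ℝ ψ) (z t) e e) t := by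
  have h1 : DifferentiableAt ℝ ψ (z t) := h.differentiableAt (by norm_num)
  have h2 : ContDiffAt ℝ 1 (fderiv ℝ ψ) (z t) := h.fderiv_right (by norm_num)
  have h3 : DifferentiableAt ℝ (fderiv ℝ ψ) (z t) := h2.differentiableAt (by norm_num)
  refine ⟨h1.hasFDerivAt.comp_hasDerivAt t hz, ?_⟩
  have h4 := h3.hasFDerivAt.comp_hasDerivAt t hz
  exact (ContinuousLinearMap.apply ℝ ℝ e).hasFDerivAt.comp_hasDerivAt t h4

theorem saddle_plane (ψ : ℝ × ℝ → ℝ) (h2 : ContDiffAt ℝ 2 ψ 0) (h0 : ψ 0 = 0) (h1 : fderiv ℝ ψ 0 = 0)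
    (hp : 0 < fderiv ℝ (fderiv ℝ ψ) 0 (1, 0) (1, 0)) (hn : fderiv ℝ (fderiv ℝ ψ) 0 (0, 1) (0, 1) < 0)
    (ρ : ℝ) (hρ : 0 < ρ) :
    ∃ r r1 : ℝ, 0 < r1 ∧ r1 < r ∧ r < ρ ∧ (∀ a : ℝ, a ≠ 0 → |a| ≤ r → 0 < ψ (a, 0)) ∧ ψ (0, r) < 0 ∧ ψ (0, -r) < 0 ∧
      (∀ ξ : ℝ × ℝ, ‖ξ‖ ≤ r1 → ψ ξ < 0 → 0 < ξ.2 → JoinedIn {η : ℝ × ℝ | ‖η‖ < ρ ∧ ψ η < 0} ξ (0, r)) ∧
      ∀ ξ : ℝ × ℝ, ‖ξ‖ ≤ r1 → ψ ξ < 0 → ξ.2 < 0 → JoinedIn {η : ℝ × ℝ | ‖η‖ < ρ ∧ ψ η < 0} ξ (0, -r) := by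
  have e1 : ∀ᶠ y in 𝓝 (0 : ℝ × ℝ), ContDiffAt ℝ 2 ψ y := h2.eventually (by simp)
  have hc1 : ContDiffAt ℝ 1 (fderiv ℝ ψ) 0 := h2.fderiv_right (by norm_num)
  have hc0 : ContDiffAt ℝ 0 (fderiv ℝ (fderiv ℝ ψ)) 0 := hc1.fderiv_right (by norm_num)
  have hcc := hc0.continuousAt
  have hca : ∀ e : ℝ × ℝ, ContinuousAt (fun y => fderiv ℝ (fderiv ℝ ψ) y e e) 0 := fun e =>
    (hcc.clm_apply continuousAt_const).clm_apply continuousAt_const
  have e2 : ∀ᶠ y in 𝓝 (0 : ℝ × ℝ), 0 < fderiv ℝ (fderiv ℝ ψ) y (1, 0) (1, 0) :=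
    continuousAt_const.eventually_lt (hca (1, 0)) hp
  have e3 : ∀ᶠ y in 𝓝 (0 : ℝ × ℝ), fderiv ℝ (fderiv ℝ ψ) y (0, 1) (0, 1) < 0 :=
    (hca (0, 1)).eventually_lt continuousAt_const hn
  obtain ⟨r0, hr0, hball⟩ := Metric.eventually_nhds_iff.1 (e1.and (e2.and e3))
  set r0' : ℝ := min r0 ρ with hr0'
  have hr0'0 : 0 < r0' := lt_min hr0 hρ
  have hB : ∀ y : ℝ × ℝ, |y.1| < r0' → |y.2| < r0' → ContDiffAt ℝ 2 ψ y ∧
      0 < fderiv ℝ (fderiv ℝ ψ) y (1, 0) (1, 0) ∧ fderiv ℝ (fderiv ℝ ψ) y (0, 1) (0, 1) < 0 := by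
    intro y hy1 hy2
    refine hball ?_
    rw [dist_zero_right, Prod.norm_def, max_lt_iff]
    exact ⟨hy1.trans_le (min_le_left _ _), hy2.trans_le (min_le_left _ _)⟩
  have z1 : ∀ a t : ℝ, HasDerivAt (fun u : ℝ => ((u, a) : ℝ × ℝ)) (1, 0) t := fun a t =>
    (hasDerivAt_id t).prodMk (hasDerivAt_const t a)
  have z2 : ∀ a t : ℝ, HasDerivAt (fun u : ℝ => ((a, u) : ℝ × ℝ)) (0, 1) t := fun a t =>
    (hasDerivAt_const t a).prodMk (hasDerivAt_id t)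
  have z3 : ∀ a t : ℝ, HasDerivAt (fun u : ℝ => ((a, -u) : ℝ × ℝ)) (0, -1) t := fun a t =>
    (hasDerivAt_const t a).prodMk (hasDerivAt_neg t)
  have hq0 : |(0 : ℝ)| < r0' := by rw [abs_zero]; exact hr0'0
  have hax : ∀ a : ℝ, a ≠ 0 → |a| < r0' → 0 < ψ (a, 0) := by
    intro a ha0 ha
    refine b8_pos (f := fun u => ψ (u, 0)) (f' := fun u => fderiv ℝ ψ (u, 0) (1, 0))
      (f'' := fun u => fderiv ℝ (fderiv ℝ ψ) (u, 0) (1, 0) (1, 0)) (r := r0') ?_ ?_ ?_ ?_ ?_ a ha0 ha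
    · exact fun t ht => (b8_dir (z1 0 t) (hB (t, 0) ht hq0).1).1
    · exact fun t ht => (b8_dir (z1 0 t) (hB (t, 0) ht hq0).1).2
    · exact fun t ht => (hB (t, 0) ht hq0).2.1
    · exact h0
    · show fderiv ℝ ψ (0, 0) (1, 0) = 0
      rw [show ((0, 0) : ℝ × ℝ) = 0 from rfl, h1]; rfl
  have hay : ∀ a : ℝ, a ≠ 0 → |a| < r0' → ψ (0, a) < 0 := by
    intro a ha0 ha
    have h4 := b8_pos (f := fun u => -ψ (0, u)) (f' := fun u => -fderiv ℝ ψ (0, u) (0, 1))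
      (f'' := fun u => -fderiv ℝ (fderiv ℝ ψ) (0, u) (0, 1) (0, 1)) (r := r0')
      (fun t ht => (b8_dir (z2 0 t) (hB (0, t) hq0 ht).1).1.neg)
      (fun t ht => (b8_dir (z2 0 t) (hB (0, t) hq0 ht).1).2.neg)
      (fun t ht => neg_pos.2 (hB (0, t) hq0 ht).2.2)
      (by show -ψ (0, 0) = 0; rw [show ((0, 0) : ℝ × ℝ) = 0 from rfl, h0, neg_zero])
      (by show -fderiv ℝ ψ (0, 0) (0, 1) = 0; rw [show ((0, 0) : ℝ × ℝ) = 0 from rfl, h1]; simp)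
      a ha0 ha
    linarith
  have hax0 : ∀ a : ℝ, |a| < r0' → 0 ≤ ψ (a, 0) := by
    intro a ha
    by_cases ha0 : a = 0
    · rw [ha0, show ((0, 0) : ℝ × ℝ) = 0 from rfl, h0]
    · exact (hax a ha0 ha).le
  have hup : ∀ a s t : ℝ, |a| < r0' → 0 < s → s ≤ t → t < r0' → ψ (a, s) < 0 → ψ (a, t) < 0 := by
    intro a s t ha hs hst ht hneg
    exact b8_neg (f := fun u => ψ (a, u)) (f' := fun u => fderiv ℝ ψ (a, u) (0, 1))
      (f'' := fun u => fderiv ℝ (fderiv ℝ ψ) (a, u) (0, 1) (0, 1)) (r := r0')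
      (fun t ht => (b8_dir (z2 a t) (hB (a, t) ha ht).1).1)
      (fun t ht => (b8_dir (z2 a t) (hB (a, t) ha ht).1).2)
      (fun t ht => (hB (a, t) ha ht).2.2) (hax0 a ha) s t hs hst ht hneg
  have hdn : ∀ a s t : ℝ, |a| < r0' → 0 < s → s ≤ t → t < r0' → ψ (a, -s) < 0 → ψ (a, -t) < 0 := by
    intro a s t ha hs hst ht hneg
    refine b8_neg (f := fun u => ψ (a, -u)) (f' := fun u => fderiv ℝ ψ (a, -u) (0, -1))
      (f'' := fun u => fderiv ℝ (fderiv ℝ ψ) (a, -u) (0, -1) (0, -1)) (r := r0')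
      (fun t ht => (b8_dir (z3 a t) (hB (a, -t) ha (by show |-t| < r0'; rwa [abs_neg])).1).1)
      (fun t ht => (b8_dir (z3 a t) (hB (a, -t) ha (by show |-t| < r0'; rwa [abs_neg])).1).2)
      (fun t ht => ?_) ?_ s t hs hst ht hneg
    · have h5 := (hB (a, -t) ha (by show |-t| < r0'; rwa [abs_neg])).2.2
      have h6 : ((0, -1) : ℝ × ℝ) = -(0, 1) := by simp
      show fderiv ℝ (fderiv ℝ ψ) (a, -t) (0, -1) (0, -1) < 0
      rw [h6, map_neg, map_neg, ContinuousLinearMap.neg_apply, neg_neg]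
      exact h5
    · show 0 ≤ ψ (a, -0)
      rw [neg_zero]; exact hax0 a ha
  set r : ℝ := r0' / 2 with hr
  have hr_pos : 0 < r := by positivity
  have hrr : r < r0' := by linarith
  have hrρ : r < ρ := hrr.trans_le (min_le_right _ _)
  have hcr : ∀ b : ℝ, |b| < r0' → ContinuousAt (fun a : ℝ => ψ (a, b)) 0 := by
    intro b hb
    have h5 : ContinuousAt ψ (0, b) := (hB (0, b) hq0 hb).1.continuousAt
    exact ContinuousAt.comp (f := fun a : ℝ => ((a, b) : ℝ × ℝ)) h5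
      (by fun_prop : Continuous fun a : ℝ => ((a, b) : ℝ × ℝ)).continuousAt
  have habsr : |r| < r0' := by rw [abs_of_pos hr_pos]; exact hrr
  have habsr' : |-r| < r0' := by rw [abs_neg]; exact habsr
  have e4 : ∀ᶠ a in 𝓝 (0 : ℝ), ψ (a, r) < 0 :=
    (hcr r habsr).eventually_lt continuousAt_const (hay r hr_pos.ne' habsr)
  have e5 : ∀ᶠ a in 𝓝 (0 : ℝ), ψ (a, -r) < 0 :=
    (hcr (-r) habsr').eventually_lt continuousAt_const (hay (-r) (by linarith) habsr')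
  obtain ⟨r2, hr2, hb2⟩ := Metric.eventually_nhds_iff.1 (e4.and e5)
  set r1 : ℝ := min r2 r / 2 with hr1
  have hm : 0 < min r2 r := lt_min hr2 hr_pos
  have hr1_pos : 0 < r1 := by positivity
  have hr1r : r1 < r := by have := min_le_right r2 r; linarith
  have hr1r2 : r1 < r2 := by have := min_le_left r2 r; linarith
  have hb3 : ∀ a : ℝ, |a| ≤ r1 → ψ (a, r) < 0 ∧ ψ (a, -r) < 0 := by
    intro a ha
    refine hb2 ?_
    rw [dist_zero_right, Real.norm_eq_abs]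
    linarith
  have hhor : ∀ b : ℝ, |b| = r → (∀ a : ℝ, |a| ≤ r1 → ψ (a, b) < 0) → ∀ a : ℝ, |a| ≤ r1 →
      JoinedIn {η : ℝ × ℝ | ‖η‖ < ρ ∧ ψ η < 0} (a, b) (0, b) := by
    intro b hb hneg a ha
    have h5 : JoinedIn (Icc (-r1) r1) a 0 :=
      JoinedIn.of_segment_subset ((convex_Icc (-r1) r1).segment_subset (abs_le.1 ha)
        ⟨by linarith, hr1_pos.le⟩)
    refine (h5.map (by fun_prop : Continuous fun u : ℝ => ((u, b) : ℝ × ℝ))).mono ?_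
    rintro _ ⟨u, hu, rfl⟩
    have hu' : |u| ≤ r1 := abs_le.2 hu
    refine ⟨?_, hneg u hu'⟩
    show ‖((u, b) : ℝ × ℝ)‖ < ρ
    rw [Prod.norm_def, max_lt_iff]
    exact ⟨by show |u| < ρ; linarith, by show |b| < ρ; linarith⟩
  refine ⟨r, r1, hr1_pos, hr1r, hrρ, fun a ha0 ha => hax a ha0 (ha.trans_lt hrr), hay r hr_pos.ne' habsr,
    hay (-r) (by linarith) habsr', ?_, ?_⟩
  · rintro ⟨a, s⟩ hξ hneg hs
    rw [Prod.norm_def, max_le_iff] at hξ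
    have ha : |a| ≤ r1 := hξ.1
    have hs1 : |s| ≤ r1 := hξ.2
    have hs : 0 < s := hs
    rw [abs_of_pos hs] at hs1
    have ha' : |a| < r0' := by linarith
    have h5 : JoinedIn (Icc s r) s r :=
      JoinedIn.of_segment_subset ((convex_Icc s r).segment_subset ⟨le_rfl, by linarith⟩ ⟨by linarith, le_rfl⟩)
    have h6 : JoinedIn {η : ℝ × ℝ | ‖η‖ < ρ ∧ ψ η < 0} (a, s) (a, r) := by
      refine (h5.map (by fun_prop : Continuous fun u : ℝ => ((a, u) : ℝ × ℝ))).mono ?_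
      rintro _ ⟨u, hu, rfl⟩
      refine ⟨?_, hup a s u ha' hs hu.1 (hu.2.trans_lt hrr) hneg⟩
      show ‖((a, u) : ℝ × ℝ)‖ < ρ
      rw [Prod.norm_def, max_lt_iff]
      have hu0 : 0 < u := hs.trans_le hu.1
      exact ⟨by show |a| < ρ; linarith, by show |u| < ρ; rw [abs_of_pos hu0]; linarith [hu.2]⟩
    exact h6.trans (hhor r (abs_of_pos hr_pos) (fun a ha => (hb3 a ha).1) a ha)
  · rintro ⟨a, s⟩ hξ hneg hs
    rw [Prod.norm_def, max_le_iff] at hξ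
    have ha : |a| ≤ r1 := hξ.1
    have hs1 : |s| ≤ r1 := hξ.2
    have hs : s < 0 := hs
    rw [abs_of_neg hs] at hs1
    have ha' : |a| < r0' := by linarith
    have h5 : JoinedIn (Icc (-s) r) (-s) r :=
      JoinedIn.of_segment_subset ((convex_Icc (-s) r).segment_subset ⟨le_rfl, by linarith⟩ ⟨by linarith, le_rfl⟩)
    have h6 : JoinedIn {η : ℝ × ℝ | ‖η‖ < ρ ∧ ψ η < 0} (a, -(-s)) (a, -r) := by
      refine (h5.map (by fun_prop : Continuous fun u : ℝ => ((a, -u) : ℝ × ℝ))).mono ?_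
      rintro _ ⟨u, hu, rfl⟩
      refine ⟨?_, hdn a (-s) u ha' (by linarith) hu.1 (hu.2.trans_lt hrr) (by rw [neg_neg]; exact hneg)⟩
      show ‖((a, -u) : ℝ × ℝ)‖ < ρ
      rw [Prod.norm_def, max_lt_iff]
      have hu0 : 0 < u := lt_of_lt_of_le (by linarith) hu.1
      exact ⟨by show |a| < ρ; linarith, by show |-u| < ρ; rw [abs_neg, abs_of_pos hu0]; linarith [hu.2]⟩
    rw [neg_neg] at h6
    exact h6.trans (hhor (-r) (by rw [abs_neg]; exact abs_of_pos hr_pos) (fun a ha => (hb3 a ha).2) a ha)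

end H48U
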