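import Pool.Agent.Lib.H48U.B4
import Pool.Agent.Lib.H48U.B6
import Pool.Agent.Lib.H48U.B8
import Pool.Agent.Lib.H48U.B9

set_option autoImplicit false

/-! # H48U, chunk B12 (M/L): the structure of a saddle

PROOF. `v, w` are linearly independent (a multiple of `v` has `D2 ≥ 0`, a multiple of `w` has `D2 ≤ 0`). Let `r'` be as in
`Vert`, `ψ ξ = φ (pt ξ 0)`, `saddle_plane` with `ρ = r'` gives `r, r1`; `r0 = r1 / 2`. `p = pt (0, r) δ`,
`q = pt (0, -r) δ` with `0 < δ < r'` so small that `φ < 0` there (`ψ (0, ±r) < 0`, continuity). For `‖ξ‖ < r1`, `s > 0`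
small, `pt ξ s ∈ Ω`: `ψ ξ < φ (pt ξ s) < 0`, so `ξ.2 ≠ 0`; if `ξ.2 > 0` `lift` and `saddle_plane` give a path from `pt ξ s`
to `p`; if `ξ.2 < 0` to `q`. (S2): points near `pt ξ0 0`, `ξ0.2 > 0`, `‖ξ0‖ ≤ r0`, are `pt ξ s` with `ξ.2 > 0`, `‖ξ‖ < r1`
(`coords_at`), and in `sub` means `s > 0`. (S3): the same at `ξ0 = 0` (`coords`). Adherence of `x`: `ψ (0, a) < 0` for
small `a ≠ 0` (`saddle_plane` with small `ρ`, or directly), then `pt (0, a) s`, `s → 0+`. -/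

open Set Filter Topology Metric

namespace H48U

open Pool.Agent.Lib.PenroseSph (E3)

theorem b12_norm (a : ℝ) : ‖((0, a) : ℝ × ℝ)‖ = |a| := by
  rw [Prod.norm_mk, norm_zero, Real.norm_eq_abs]
  exact max_eq_right (abs_nonneg a)

theorem b12_indep (φ : E3 → ℝ) (v w x : E3) (hp : 0 < D2 φ x v v) (hn : D2 φ x w w < 0) :
    LinearIndependent ℝ ![v, w] := by
  have hv : v ≠ 0 := by
    intro h
    rw [h] at hp
    simp [D2] at hp
  rw [LinearIndependent.pair_iff]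
  intro s t h
  have ht : t = 0 := by
    by_contra h1
    have h2 : w = (-(s / t)) • v := by
      have h3 : t • w = (-s) • v := by
        rw [neg_smul]
        exact (eq_neg_of_add_eq_zero_right h)
      calc w = (t⁻¹ * t) • w := by rw [inv_mul_cancel₀ h1, one_smul]
        _ = t⁻¹ • ((-s) • v) := by rw [mul_smul, h3]
        _ = (-(s / t)) • v := by
          rw [smul_smul]
          ring_nf
    have h4 : D2 φ x w w = (s / t) ^ 2 * D2 φ x v v := by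
      rw [h2]
      simp only [D2, map_smul, smul_apply, smul_eq_mul]
      ring
    rw [h4] at hn
    have := mul_nonneg (sq_nonneg (s / t)) hp.le
    linarith
  refine ⟨?_, ht⟩
  rw [ht, zero_smul, add_zero] at h
  rcases smul_eq_zero.1 h with h1 | h1
  · exact h1
  · exact absurd h1 hv

theorem b12_cont (b v w x : E3) : Continuous fun z : (ℝ × ℝ) × ℝ => pt b v w x z.1 z.2 := by
  unfold pt
  fun_prop

theorem b12_small (φ : E3 → ℝ) (b v w x : E3) (ξ : ℝ × ℝ) (h : ContinuousAt φ (pt b v w x ξ 0))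
    (h0 : φ (pt b v w x ξ 0) < 0) : ∀ᶠ s : ℝ in 𝓝 0, φ (pt b v w x ξ s) < 0 := by
  have h2 : Continuous fun s : ℝ => pt b v w x ξ s := by
    unfold pt
    fun_prop
  have h1 : Tendsto (fun s : ℝ => pt b v w x ξ s) (𝓝 0) (𝓝 (pt b v w x ξ 0)) := h2.tendsto 0
  exact (h.tendsto.comp h1).eventually (gt_mem_nhds h0)

theorem b12_below (b v w x : E3) (hb : b ≠ 0) (hv : inner ℝ b v = (0 : ℝ)) (hw : inner ℝ b w = (0 : ℝ))
    (ξ : ℝ × ℝ) (s : ℝ) : ht b (pt b v w x ξ s) < ht b x ↔ 0 < s := by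
  have hb2 : 0 < ‖b‖ ^ 2 := pow_pos (norm_pos_iff.2 hb) 2
  rw [ht_pt b v w x hv hw]
  constructor
  · intro h
    by_contra h1
    have := mul_nonneg (neg_nonneg.2 (not_lt.1 h1)) hb2.le
    linarith
  · intro h
    have := mul_pos h hb2
    linarith

theorem saddle_struct (Ω : Set E3) (φ : E3 → ℝ) (b v w x : E3) (hb : b ≠ 0) (hl : IsLoc Ω φ x) (hcr : Crit φ b x)
    (hv : inner ℝ b v = (0 : ℝ)) (hw : inner ℝ b w = (0 : ℝ)) (hp : 0 < D2 φ x v v) (hn : D2 φ x w w < 0) :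
    LinearIndependent ℝ ![v, w] ∧
    ∃ r0 > 0, ∃ p ∈ sub Ω (ht b) (ht b x), ∃ q ∈ sub Ω (ht b) (ht b x),
      (∀ a : ℝ, a ≠ 0 → |a| ≤ r0 → 0 < φ (pt b v w x (a, 0) 0)) ∧
      (∀ ξ : ℝ × ℝ, ‖ξ‖ ≤ r0 → 0 < ξ.2 → ∀ᶠ y in 𝓝 (pt b v w x ξ 0), y ∈ sub Ω (ht b) (ht b x) →
        JoinedIn (sub Ω (ht b) (ht b x)) y p) ∧
      (∀ ξ : ℝ × ℝ, ‖ξ‖ ≤ r0 → ξ.2 < 0 → ∀ᶠ y in 𝓝 (pt b v w x ξ 0), y ∈ sub Ω (ht b) (ht b x) →
        JoinedIn (sub Ω (ht b) (ht b x)) y q) ∧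
      (∀ᶠ y in 𝓝 x, y ∈ sub Ω (ht b) (ht b x) →
        JoinedIn (sub Ω (ht b) (ht b x)) y p ∨ JoinedIn (sub Ω (ht b) (ht b x)) y q) ∧
      x ∈ closure (sub Ω (ht b) (ht b x)) := by
  have hli := b12_indep φ v w x hp hn
  refine ⟨hli, ?_⟩
  obtain ⟨r', hV⟩ := vert_exists Ω φ b v w x hb hl hcr
  have hr' := hV.1
  have hV1 := hV.2
  obtain ⟨g2, g0, g1, gD⟩ := restrict φ b v w x hl.1 hl.2.1 hcr hv hw
  have gp : 0 < fderiv ℝ (fderiv ℝ (fun ξ : ℝ × ℝ => φ (pt b v w x ξ 0))) 0 (1, 0) (1, 0) := by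
    rw [gD]
    simpa using hp
  have gn : fderiv ℝ (fderiv ℝ (fun ξ : ℝ × ℝ => φ (pt b v w x ξ 0))) 0 (0, 1) (0, 1) < 0 := by
    rw [gD]
    simpa using hn
  obtain ⟨r, r1, hr1, hr1r, hrr', hax, hup, hdn, hjup, hjdn⟩ :=
    saddle_plane (fun ξ : ℝ × ℝ => φ (pt b v w x ξ 0)) g2 g0 g1 gp gn r' hr'
  have hrpos : 0 < r := hr1.trans hr1r
  have hnu : ‖((0, r) : ℝ × ℝ)‖ < r' := by rw [b12_norm, abs_of_pos hrpos]; exact hrr'
  have hnd : ‖((0, -r) : ℝ × ℝ)‖ < r' := by rw [b12_norm, abs_neg, abs_of_pos hrpos]; exact hrr'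
  have hz : |(0 : ℝ)| < r' := by rw [abs_zero]; exact hr'
  -- the number delta
  obtain ⟨δ, hδ, hδr, hδu, hδd⟩ : ∃ δ : ℝ, 0 < δ ∧ δ < r' ∧ φ (pt b v w x (0, r) δ) < 0 ∧
      φ (pt b v w x (0, -r) δ) < 0 := by
    have e1 := b12_small φ b v w x (0, r) (((hV1 (0, r) hnu).2 0 hz).1) hup
    have e2 := b12_small φ b v w x (0, -r) (((hV1 (0, -r) hnd).2 0 hz).1) hdn
    have e3 : ∀ᶠ s : ℝ in 𝓝 0, s < r' := gt_mem_nhds hr'
    have e4 : ∀ᶠ s : ℝ in 𝓝[>] 0, 0 < s := eventually_mem_nhdsWithin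
    obtain ⟨δ, h1, h2, h3, h4⟩ := (e4.and ((e3.and (e1.and e2)).filter_mono nhdsWithin_le_nhds)).exists
    exact ⟨δ, h1, h2, h3, h4⟩
  have hδa : |δ| < r' := by rw [abs_of_pos hδ]; exact hδr
  have hpO : pt b v w x (0, r) δ ∈ Ω := ((hV1 (0, r) hnu).2 δ hδa).2.2 hδu
  have hqO : pt b v w x (0, -r) δ ∈ Ω := ((hV1 (0, -r) hnd).2 δ hδa).2.2 hδd
  -- points below are joined with one of the two
  have key : ∀ (ξ : ℝ × ℝ) (s : ℝ), ‖ξ‖ ≤ r1 → 0 < s → s < r' → pt b v w x ξ s ∈ Ω →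
      ξ.2 ≠ 0 ∧ (0 < ξ.2 → JoinedIn (sub Ω (ht b) (ht b x)) (pt b v w x ξ s) (pt b v w x (0, r) δ)) ∧
      (ξ.2 < 0 → JoinedIn (sub Ω (ht b) (ht b x)) (pt b v w x ξ s) (pt b v w x (0, -r) δ)) := by
    intro ξ s h1 h2 h3 h4
    have h5 : ‖ξ‖ < r' := lt_of_le_of_lt h1 (hr1r.trans hrr')
    have h6 : |s| < r' := by rw [abs_of_pos h2]; exact h3
    have h7 : φ (pt b v w x ξ s) < 0 := ((hV1 ξ h5).2 s h6).2.1 h4
    have h8 : φ (pt b v w x ξ 0) < 0 := ((hV1 ξ h5).1 0 s (by linarith) h2 h3).trans h7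
    refine ⟨?_, ?_, ?_⟩
    · intro h9
      have h10 : ξ = (ξ.1, 0) := Prod.ext rfl h9
      by_cases h11 : ξ.1 = 0
      · have h12 : ξ = 0 := by rw [h10, h11]; rfl
        have h13 : φ (pt b v w x 0 0) = 0 := g0
        rw [h12, h13] at h8
        exact lt_irrefl _ h8
      · have h12 : |ξ.1| ≤ r := ((norm_fst_le ξ).trans h1).trans hr1r.le
        have h13 : 0 < φ (pt b v w x (ξ.1, 0) 0) := hax ξ.1 h11 h12
        rw [← h10] at h13
        linarith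
    · intro h9
      exact lift Ω φ b v w x hb hv hw r' hV ξ (0, r) s δ h2 h3 hδ hδr h4 hpO (hjup ξ h1 h8 h9)
    · intro h9
      exact lift Ω φ b v w x hb hv hw r' hV ξ (0, -r) s δ h2 h3 hδ hδr h4 hqO (hjdn ξ h1 h8 h9)
  refine ⟨r1 / 2, by positivity, pt b v w x (0, r) δ, ⟨hpO, (b12_below b v w x hb hv hw _ _).2 hδ⟩,
    pt b v w x (0, -r) δ, ⟨hqO, (b12_below b v w x hb hv hw _ _).2 hδ⟩, ?_, ?_, ?_, ?_, ?_⟩
  · intro a ha h
    exact hax a ha (h.trans (by linarith))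
  · intro ξ hξ h2
    have hρ : 0 < min (min (r1 / 2) ξ.2) r' := lt_min (lt_min (by positivity) h2) hr'
    filter_upwards [coords_at b v w x hb hv hw hli ξ _ hρ] with y hy hys
    obtain ⟨ξ', s, h3, h4, rfl⟩ := hy
    have h5 : 0 < s := (b12_below b v w x hb hv hw _ _).1 hys.2
    have h6 : s < r' := by
      rw [abs_of_pos h5] at h4
      exact lt_of_lt_of_le h4 (min_le_right _ _)
    have h7 : ‖ξ'‖ ≤ r1 := by
      have h8 : ‖ξ' - ξ‖ < r1 / 2 := lt_of_lt_of_le h3 ((min_le_left _ _).trans (min_le_left _ _))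
      have h9 : ‖ξ'‖ ≤ ‖ξ' - ξ‖ + ‖ξ‖ := by
        have := norm_add_le (ξ' - ξ) ξ
        rwa [sub_add_cancel] at this
      linarith
    have h10 : 0 < ξ'.2 := by
      have h8 : ‖ξ' - ξ‖ < ξ.2 := lt_of_lt_of_le h3 ((min_le_left _ _).trans (min_le_right _ _))
      have h9 : |ξ'.2 - ξ.2| ≤ ‖ξ' - ξ‖ := norm_snd_le (ξ' - ξ)
      have h11 := neg_le_of_abs_le h9
      linarith
    exact (key ξ' s h7 h5 h6 hys.1).2.1 h10
  · intro ξ hξ h2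
    have hρ : 0 < min (min (r1 / 2) (-ξ.2)) r' := lt_min (lt_min (by positivity) (by linarith)) hr'
    filter_upwards [coords_at b v w x hb hv hw hli ξ _ hρ] with y hy hys
    obtain ⟨ξ', s, h3, h4, rfl⟩ := hy
    have h5 : 0 < s := (b12_below b v w x hb hv hw _ _).1 hys.2
    have h6 : s < r' := by
      rw [abs_of_pos h5] at h4
      exact lt_of_lt_of_le h4 (min_le_right _ _)
    have h7 : ‖ξ'‖ ≤ r1 := by
      have h8 : ‖ξ' - ξ‖ < r1 / 2 := lt_of_lt_of_le h3 ((min_le_left _ _).trans (min_le_left _ _))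
      have h9 : ‖ξ'‖ ≤ ‖ξ' - ξ‖ + ‖ξ‖ := by
        have := norm_add_le (ξ' - ξ) ξ
        rwa [sub_add_cancel] at this
      linarith
    have h10 : ξ'.2 < 0 := by
      have h8 : ‖ξ' - ξ‖ < -ξ.2 := lt_of_lt_of_le h3 ((min_le_left _ _).trans (min_le_right _ _))
      have h9 : |ξ'.2 - ξ.2| ≤ ‖ξ' - ξ‖ := norm_snd_le (ξ' - ξ)
      have h11 := (abs_le.1 h9).2
      linarith
    exact (key ξ' s h7 h5 h6 hys.1).2.2 h10
  · have hρ : 0 < min r1 r' := lt_min hr1 hr'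
    filter_upwards [coords b v w x hb hv hw hli _ hρ] with y hy hys
    obtain ⟨ξ', s, h3, h4, rfl⟩ := hy
    have h5 : 0 < s := (b12_below b v w x hb hv hw _ _).1 hys.2
    have h6 : s < r' := by
      rw [abs_of_pos h5] at h4
      exact lt_of_lt_of_le h4 (min_le_right _ _)
    have h7 : ‖ξ'‖ ≤ r1 := (lt_of_lt_of_le h3 (min_le_left _ _)).le
    obtain ⟨k1, k2, k3⟩ := key ξ' s h7 h5 h6 hys.1
    rcases lt_or_gt_of_ne k1 with h8 | h8
    · exact Or.inr (k3 h8)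
    · exact Or.inl (k2 h8)
  · rw [mem_closure_iff_nhds]
    intro U hU
    have hc : Tendsto (fun z : (ℝ × ℝ) × ℝ => pt b v w x z.1 z.2) (𝓝 0) (𝓝 x) :=
      (b12_cont b v w x).tendsto' 0 x (by simp [pt])
    obtain ⟨ρ, hρ, hρU⟩ := Metric.mem_nhds_iff.1 (hc hU)
    have hρ' : 0 < min ρ r' := lt_min hρ hr'
    obtain ⟨t, t1, ht1, ht1t, htρ, -, htup, -, -, -⟩ :=
      saddle_plane (fun ξ : ℝ × ℝ => φ (pt b v w x ξ 0)) g2 g0 g1 gp gn (min ρ r') hρ'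
    have htpos : 0 < t := ht1.trans ht1t
    have hnt : ‖((0, t) : ℝ × ℝ)‖ < r' := by
      rw [b12_norm, abs_of_pos htpos]
      exact lt_of_lt_of_le htρ (min_le_right _ _)
    have hnρ : ‖((0, t) : ℝ × ℝ)‖ < ρ := by
      rw [b12_norm, abs_of_pos htpos]
      exact lt_of_lt_of_le htρ (min_le_left _ _)
    have e1 := b12_small φ b v w x (0, t) (((hV1 (0, t) hnt).2 0 hz).1) htup
    have e3 : ∀ᶠ s : ℝ in 𝓝 0, s < min ρ r' := gt_mem_nhds hρ'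
    have e4 : ∀ᶠ s : ℝ in 𝓝[>] 0, 0 < s := eventually_mem_nhdsWithin
    obtain ⟨s, h1, h2, h3⟩ := (e4.and ((e3.and e1).filter_mono nhdsWithin_le_nhds)).exists
    have h4 : |s| < r' := by
      rw [abs_of_pos h1]
      exact lt_of_lt_of_le h2 (min_le_right _ _)
    have h5 : |s| < ρ := by
      rw [abs_of_pos h1]
      exact lt_of_lt_of_le h2 (min_le_left _ _)
    refine ⟨pt b v w x (0, t) s, ?_, ((hV1 (0, t) hnt).2 s h4).2.2 h3, (b12_below b v w x hb hv hw _ _).2 h1⟩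
    have h6 : (((0, t), s) : (ℝ × ℝ) × ℝ) ∈ ball (0 : (ℝ × ℝ) × ℝ) ρ := by
      rw [mem_ball_zero_iff, Prod.norm_mk, Real.norm_eq_abs]
      exact max_lt hnρ h5
    have h7 := hρU h6
    rw [mem_preimage] at h7
    exact h7

theorem two_ind (Ω : Set E3) (φ : E3 → ℝ) (x b : E3) (hb : b ≠ 0) (hl : IsLoc Ω φ x) (hcr : Crit φ b x)
    (hi : IndT φ b x) : Two Ω (ht b) x ∧ ¬ Bottom Ω (ht b) x := by
  obtain ⟨v, w, hv, hw, hp, hn⟩ := hi
  obtain ⟨-, r0, -, p, -, q, -, -, -, -, h4, h5⟩ := saddle_struct Ω φ b v w x hb hl hcr hv hw hp hn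
  refine ⟨⟨_, h4, p, q, fun y hy => hy.1 hy.2⟩, ?_⟩
  rintro ⟨-, U, hU, hUe⟩
  rw [mem_closure_iff_nhds] at h5
  obtain ⟨y, hy⟩ := h5 U hU
  rw [hUe] at hy
  exact hy

end H48U
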