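import Pool.Agent.Lib.H48U.B0
import Pool.Agent.Lib.H48U.B1

set_option autoImplicit false

/-! # H48U, chunk B2 (S): consequences of `push` at a boundary point

PROOF. `Loc0`: take `w` with `fderiv ℝ φ x w < 0` (`fderiv ℝ φ x ≠ 0`), `push` for each `c > ht b x`, and shrink `U` so
that `ht b < c` on `U`. `Good` and adherence: `dir_exists` and `push` with `c = ht b x`. Not a `Bottom`: adherence. -/

open Set Filter Topology Metric

namespace H48U

open Pool.Agent.Lib.PenroseSph (E3)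

theorem loc0_bdry (Ω : Set E3) (φ : E3 → ℝ) (x b : E3) (hl : IsLoc Ω φ x) : Loc0 Ω (ht b) x := by
  intro c hc
  have hw : ∃ w : E3, fderiv ℝ φ x w < 0 := by
    have h1 : ∃ v, fderiv ℝ φ x v ≠ 0 := by
      by_contra hcon
      push Not at hcon
      apply hl.2.2.1
      ext v
      simpa using hcon v
    obtain ⟨v, hv⟩ := h1
    rcases lt_or_gt_of_ne hv with h2 | h2
    · exact ⟨v, h2⟩
    · exact ⟨-v, by rw [map_neg]; linarith⟩
  obtain ⟨w, hw⟩ := hw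
  obtain ⟨⟨U, hU, hjoin⟩, -⟩ := push Ω φ x b w c hl hw (Or.inl hc)
  have hcont : Continuous (ht b) := by
    unfold ht
    fun_prop
  refine ⟨U ∩ {v : E3 | ht b v < c}, inter_mem hU ((isOpen_lt hcont continuous_const).mem_nhds hc), ?_⟩
  intro y hy z hz
  exact hjoin y ⟨hy.1.1, hy.2, hy.1.2⟩ z ⟨hz.1.1, hz.2, hz.1.2⟩

theorem good_noncrit (Ω : Set E3) (φ : E3 → ℝ) (x b : E3) (hb : b ≠ 0) (hl : IsLoc Ω φ x) (hn : ¬ Crit φ b x) :
    Good Ω (ht b) x ∧ x ∈ closure (sub Ω (ht b) (ht b x)) ∧ ¬ Bottom Ω (ht b) x := by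
  obtain ⟨w, hw1, hw2⟩ := dir_exists (fderiv ℝ φ x) hl.2.2.1 b hb hn
  obtain ⟨hg, hcl⟩ := push Ω φ x b w (ht b x) hl hw1 (Or.inr ⟨rfl, hw2⟩)
  refine ⟨hg, hcl, ?_⟩
  rintro ⟨-, U, hU, hemp⟩
  obtain ⟨y, hy⟩ := mem_closure_iff_nhds.mp hcl U hU
  rw [hemp] at hy
  exact hy

end H48U
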