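import Pool.Agent.Lib.H48U.Defs

set_option autoImplicit false

/-! # H48U, chunk B3 (S): interior points

PROOF. A ball `U` around `x` inside `Ω`; `U ∩ {ht b < c}` is convex (`ht b` is linear), so two of its points are joined in
it (`JoinedIn` from the segment, `Convex`). Adherence: the points `x + s • b`, `s → 0+`, have `ht b` smaller. -/

open Set Filter Topology Metric

namespace H48U

open Pool.Agent.Lib.PenroseSph (E3)

theorem b3_joined (Ω : Set E3) (x b : E3) (r c : ℝ) (hr : ball x r ⊆ Ω) :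
    ∀ y ∈ ball x r ∩ sub Ω (ht b) c, ∀ z ∈ ball x r ∩ sub Ω (ht b) c, JoinedIn (sub Ω (ht b) c) y z := by
  intro y hy z hz
  have hconv : Convex ℝ (ball x r ∩ {v : E3 | ht b v < c}) := by
    apply (convex_ball x r).inter
    have : {v : E3 | ht b v < c} = {v : E3 | (-(innerSL ℝ b) : E3 →L[ℝ] ℝ) v < c} := by
      ext v
      simp [ht]
    rw [this]
    exact convex_halfSpace_lt (-(innerSL ℝ b) : E3 →L[ℝ] ℝ).toLinearMap.isLinear c
  have hj : JoinedIn (ball x r ∩ {v : E3 | ht b v < c}) y z :=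
    JoinedIn.of_segment_subset (hconv.segment_subset ⟨hy.1, hy.2.2⟩ ⟨hz.1, hz.2.2⟩)
  exact hj.mono fun v hv => ⟨hr hv.1, hv.2⟩

theorem interior_pt (Ω : Set E3) (hΩ : IsOpen Ω) (x b : E3) (hx : x ∈ Ω) (hb : b ≠ 0) :
    Loc0 Ω (ht b) x ∧ Good Ω (ht b) x ∧ x ∈ closure (sub Ω (ht b) (ht b x)) ∧ ¬ Bottom Ω (ht b) x := by
  obtain ⟨r, hr0, hr⟩ := Metric.isOpen_iff.mp hΩ x hx
  have hcont : Continuous (ht b) := by
    unfold ht
    fun_prop
  have hcl : x ∈ closure (sub Ω (ht b) (ht b x)) := by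
    have hlim : Tendsto (fun s : ℝ => x + s • b) (𝓝[>] 0) (𝓝 x) := by
      have h1 : Tendsto (fun s : ℝ => x + s • b) (𝓝 0) (𝓝 (x + (0 : ℝ) • b)) := by
        apply Continuous.tendsto
        fun_prop
      rw [zero_smul, add_zero] at h1
      exact h1.mono_left nhdsWithin_le_nhds
    apply mem_closure_of_tendsto hlim
    have h2 : ∀ᶠ s in 𝓝[>] (0 : ℝ), x + s • b ∈ Ω := hlim (hΩ.mem_nhds hx)
    filter_upwards [h2, self_mem_nhdsWithin] with s hs hs0
    refine ⟨hs, ?_⟩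
    have hs0' : (0 : ℝ) < s := hs0
    have hbb : 0 < inner ℝ b b := by
      rw [real_inner_self_eq_norm_sq]
      positivity
    simp only [ht, inner_add_right, inner_smul_right]
    nlinarith [mul_pos hs0' hbb]
  refine ⟨?_, ?_, hcl, ?_⟩
  · intro c hc
    have hU : ball x r ∩ {v : E3 | ht b v < c} ∈ 𝓝 x :=
      inter_mem (ball_mem_nhds x hr0) ((isOpen_lt hcont continuous_const).mem_nhds hc)
    refine ⟨_, hU, fun y hy z hz => ?_⟩
    exact b3_joined Ω x b r c hr y ⟨hy.1.1, hy.2, hy.1.2⟩ z ⟨hz.1.1, hz.2, hz.1.2⟩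
  · exact ⟨ball x r, ball_mem_nhds x hr0, b3_joined Ω x b r (ht b x) hr⟩
  · rintro ⟨-, U, hU, hemp⟩
    obtain ⟨y, hy⟩ := mem_closure_iff_nhds.mp hcl U hU
    rw [hemp] at hy
    exact hy

end H48U
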