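import Pool.Agent.Lib.H48U.Defs

set_option autoImplicit false

/-! # H48U, chunk B4 (S/M): coordinates near a point

PROOF. `v, w, b` are linearly independent (`b` is orthogonal to `v`, `w` and nonzero), so `(ξ, s) ↦ ξ.1 v + ξ.2 w + s b` is
a linear bijection of `(ℝ × ℝ) × ℝ` with `E3` (dimension 3), hence a homeomorphism (`LinearEquiv.toContinuousLinearEquiv`);
the image of the ball is a neighbourhood of 0. Second claim: a continuous linear bijection of finite dimensional spaces is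
bounded below (`LinearMap.exists_antilipschitzWith` / operator norm of the inverse). -/

open Set Filter Topology Metric

namespace H48U

open Pool.Agent.Lib.PenroseSph (E3)

/-- The linear map of the coordinates. -/
noncomputable def b4_lin (b v w : E3) : (ℝ × ℝ) × ℝ →ₗ[ℝ] E3 where
  toFun p := p.1.1 • v + p.1.2 • w + p.2 • b
  map_add' p q := by
    simp only [Prod.fst_add, Prod.snd_add, add_smul]
    abel
  map_smul' c p := by
    simp only [Prod.smul_fst, Prod.smul_snd, smul_eq_mul, RingHom.id_apply, smul_add, smul_smul]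

theorem b4_inj (b v w : E3) (hb : b ≠ 0) (hv : inner ℝ b v = (0 : ℝ)) (hw : inner ℝ b w = (0 : ℝ))
    (hi : LinearIndependent ℝ ![v, w]) : Function.Injective (b4_lin b v w) := by
  rw [← LinearMap.ker_eq_bot, LinearMap.ker_eq_bot']
  rintro ⟨⟨a, c⟩, s⟩ h
  have h' : a • v + c • w + s • b = 0 := h
  have h1 : s * inner ℝ b b = 0 := by
    have := congrArg (fun z => inner ℝ b z) h'
    simpa [inner_add_right, inner_smul_right, hv, hw] using this
  have hs : s = 0 := by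
    rcases mul_eq_zero.mp h1 with h2 | h2
    · exact h2
    · exact absurd (inner_self_eq_zero.mp h2) hb
  rw [hs, zero_smul, add_zero] at h'
  have h3 := LinearIndependent.pair_iff.mp hi a c h'
  rw [h3.1, h3.2, hs]
  rfl

theorem b4_equiv (b v w : E3) (hb : b ≠ 0) (hv : inner ℝ b v = (0 : ℝ)) (hw : inner ℝ b w = (0 : ℝ))
    (hi : LinearIndependent ℝ ![v, w]) :
    ∃ e : ((ℝ × ℝ) × ℝ) ≃L[ℝ] E3, ∀ p, e p = p.1.1 • v + p.1.2 • w + p.2 • b := by
  have hdim : Module.finrank ℝ ((ℝ × ℝ) × ℝ) = Module.finrank ℝ E3 := by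
    simp
  refine ⟨(LinearEquiv.ofInjectiveOfFinrankEq (b4_lin b v w) (b4_inj b v w hb hv hw hi)
    hdim).toContinuousLinearEquiv, fun p => ?_⟩
  rfl

/-- The same near a point of the plane. -/
theorem coords_at (b v w x : E3) (hb : b ≠ 0) (hv : inner ℝ b v = (0 : ℝ)) (hw : inner ℝ b w = (0 : ℝ))
    (hi : LinearIndependent ℝ ![v, w]) (ξ0 : ℝ × ℝ) (ρ : ℝ) (hρ : 0 < ρ) :
    ∀ᶠ y in 𝓝 (pt b v w x ξ0 0), ∃ (ξ : ℝ × ℝ) (s : ℝ), ‖ξ - ξ0‖ < ρ ∧ |s| < ρ ∧ y = pt b v w x ξ s := by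
  obtain ⟨e, he⟩ := b4_equiv b v w hb hv hw hi
  have hc : Continuous fun y : E3 => e.symm (y - x) := by fun_prop
  have h0 : e.symm (pt b v w x ξ0 0 - x) = (ξ0, 0) := by
    rw [ContinuousLinearEquiv.symm_apply_eq, he]
    simp only [pt]
    abel
  have hopen : {y : E3 | ‖(e.symm (y - x)).1 - ξ0‖ < ρ ∧ |(e.symm (y - x)).2| < ρ} ∈ 𝓝 (pt b v w x ξ0 0) := by
    apply IsOpen.mem_nhds
    · have c1 : Continuous fun y : E3 => ‖(e.symm (y - x)).1 - ξ0‖ := (hc.fst.sub continuous_const).norm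
      have c2 : Continuous fun y : E3 => |(e.symm (y - x)).2| := hc.snd.abs
      exact (isOpen_lt c1 continuous_const).inter (isOpen_lt c2 continuous_const)
    · change ‖(e.symm (pt b v w x ξ0 0 - x)).1 - ξ0‖ < ρ ∧ |(e.symm (pt b v w x ξ0 0 - x)).2| < ρ
      rw [h0]
      simp [hρ]
  filter_upwards [hopen] with y hy
  refine ⟨(e.symm (y - x)).1, (e.symm (y - x)).2, hy.1, hy.2, ?_⟩
  have h1 : e (e.symm (y - x)) = y - x := e.apply_symm_apply _
  rw [he] at h1
  rw [pt, add_assoc, add_assoc, ← add_assoc ((e.symm (y - x)).1.1 • v), h1]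
  abel

theorem coords (b v w x : E3) (hb : b ≠ 0) (hv : inner ℝ b v = (0 : ℝ)) (hw : inner ℝ b w = (0 : ℝ))
    (hi : LinearIndependent ℝ ![v, w]) (ρ : ℝ) (hρ : 0 < ρ) :
    ∀ᶠ y in 𝓝 x, ∃ (ξ : ℝ × ℝ) (s : ℝ), ‖ξ‖ < ρ ∧ |s| < ρ ∧ y = pt b v w x ξ s := by
  have h := coords_at b v w x hb hv hw hi 0 ρ hρ
  have h0 : pt b v w x 0 0 = x := by simp [pt]
  rw [h0] at h
  simpa using h

theorem pt_lower (b v w x : E3) (hi : LinearIndependent ℝ ![v, w]) :
    ∃ k > 0, ∀ ξ : ℝ × ℝ, k * ‖ξ‖ ≤ ‖pt b v w x ξ 0 - x‖ := by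
  let f : ℝ × ℝ →ₗ[ℝ] E3 :=
    { toFun := fun p => p.1 • v + p.2 • w
      map_add' := fun p q => by
        simp only [Prod.fst_add, Prod.snd_add, add_smul]
        abel
      map_smul' := fun c p => by
        simp only [Prod.smul_fst, Prod.smul_snd, smul_eq_mul, RingHom.id_apply, smul_add, smul_smul] }
  have hker : LinearMap.ker f = ⊥ := by
    rw [LinearMap.ker_eq_bot']
    rintro ⟨a, c⟩ h
    have h3 := LinearIndependent.pair_iff.mp hi a c h
    rw [h3.1, h3.2]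
    rfl
  obtain ⟨K, hK, hanti⟩ := f.exists_antilipschitzWith hker
  refine ⟨(K : ℝ)⁻¹, inv_pos.mpr (by exact_mod_cast hK), fun ξ => ?_⟩
  have h1 : ‖ξ‖ ≤ K * ‖f ξ‖ := by
    have := hanti.le_mul_dist ξ 0
    simpa [dist_eq_norm] using this
  have h2 : pt b v w x ξ 0 - x = f ξ := by
    simp only [pt, zero_smul, add_zero]
    change x + ξ.1 • v + ξ.2 • w - x = ξ.1 • v + ξ.2 • w
    abel
  rw [h2, inv_mul_le_iff₀ (by exact_mod_cast hK)]
  exact h1

end H48U
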