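import Pool.Agent.Lib.H48U.Defs

set_option autoImplicit false

/-! # H48U, chunk B5 (S/M): vertical monotonicity near a critical point

PROOF. `Crit` gives `fderiv ℝ φ x b = l ‖b‖² > 0`; by continuity of the derivative (`C²`) there is `ρ > 0` with
`fderiv ℝ φ y b > 0`, `φ` differentiable at `y` and `(y ∈ Ω ↔ φ y < 0)` for all `y ∈ ball x ρ`. Choose `r` such that
`pt b v w x ξ s ∈ ball x ρ` for `‖ξ‖ < r`, `|s| < r` (`r (‖v‖ + ‖w‖ + ‖b‖) < ρ`). The derivative of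
`s ↦ φ (pt b v w x ξ s)` is `fderiv ℝ φ _ b > 0` (`strictMonoOn_of_deriv_pos` on the interval). -/

open Set Filter Topology Metric

namespace H48U

open Pool.Agent.Lib.PenroseSph (E3)

theorem b5_mem (b v w x : E3) (ρ : ℝ) (hρ : 0 < ρ) :
    ∃ r, 0 < r ∧ ∀ (ξ : ℝ × ℝ) (s : ℝ), ‖ξ‖ < r → |s| < r → pt b v w x ξ s ∈ ball x ρ := by
  refine ⟨ρ / (‖v‖ + ‖w‖ + ‖b‖ + 1), by positivity, fun ξ s hξ hs => ?_⟩
  set r := ρ / (‖v‖ + ‖w‖ + ‖b‖ + 1) with hr
  have hr0 : 0 < r := by positivity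
  have hrρ : r * (‖v‖ + ‖w‖ + ‖b‖ + 1) = ρ := by
    rw [hr]
    field_simp
  rw [mem_ball, dist_eq_norm]
  have h1 : pt b v w x ξ s - x = ξ.1 • v + ξ.2 • w + s • b := by
    simp only [pt]
    abel
  rw [h1]
  have h2 : ‖ξ.1 • v‖ ≤ r * ‖v‖ := by
    rw [norm_smul]
    exact mul_le_mul_of_nonneg_right ((norm_fst_le ξ).trans hξ.le) (norm_nonneg v)
  have h3 : ‖ξ.2 • w‖ ≤ r * ‖w‖ := by
    rw [norm_smul]
    exact mul_le_mul_of_nonneg_right ((norm_snd_le ξ).trans hξ.le) (norm_nonneg w)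
  have h4 : ‖s • b‖ ≤ r * ‖b‖ := by
    rw [norm_smul]
    exact mul_le_mul_of_nonneg_right (by rw [Real.norm_eq_abs]; exact hs.le) (norm_nonneg b)
  have h5 := norm_add_le (ξ.1 • v + ξ.2 • w) (s • b)
  have h6 := norm_add_le (ξ.1 • v) (ξ.2 • w)
  nlinarith

theorem vert_exists (Ω : Set E3) (φ : E3 → ℝ) (b v w x : E3) (hb : b ≠ 0) (hl : IsLoc Ω φ x) (hcr : Crit φ b x) :
    ∃ r, Vert Ω φ b v w x r := by
  obtain ⟨hφ, hφ0, -, hΩ⟩ := hl
  obtain ⟨l, hl0, hlv⟩ := hcr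
  have hpos : 0 < fderiv ℝ φ x b := by
    rw [hlv b, real_inner_self_eq_norm_sq]
    have := norm_pos_iff.mpr hb
    positivity
  have e1 : ∀ᶠ y in 𝓝 x, DifferentiableAt ℝ φ y := by
    filter_upwards [hφ.eventually (by simp)] with y hy
    exact hy.differentiableAt (by norm_num)
  have e2 : ∀ᶠ y in 𝓝 x, 0 < fderiv ℝ φ y b := by
    have h1 : ContDiffAt ℝ 1 (fderiv ℝ φ) x := hφ.fderiv_right (by norm_num)
    have h2 : ContinuousAt (fun y => fderiv ℝ φ y b) x := h1.continuousAt.clm_apply continuousAt_const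
    exact continuousAt_const.eventually_lt h2 hpos
  obtain ⟨ρ, hρ, hball⟩ := Metric.eventually_nhds_iff_ball.mp (e1.and (e2.and hΩ))
  obtain ⟨r, hr, hmem⟩ := b5_mem b v w x ρ hρ
  refine ⟨r, hr, fun ξ hξ => ⟨?_, ?_⟩⟩
  · intro s s' h1 h2 h3
    have hder : ∀ u ∈ Ioo (-r) r, HasDerivAt (fun s : ℝ => φ (pt b v w x ξ s))
        (fderiv ℝ φ (pt b v w x ξ u) b) u := by
      intro u hu
      have h4 : HasDerivAt (fun s : ℝ => pt b v w x ξ s) b u := by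
        simpa [pt] using ((hasDerivAt_id u).smul_const b).const_add (x + ξ.1 • v + ξ.2 • w)
      have h5 := (hball _ (hmem ξ u hξ (abs_lt.mpr hu))).1
      exact h5.hasFDerivAt.comp_hasDerivAt u h4
    have hmono : StrictMonoOn (fun s : ℝ => φ (pt b v w x ξ s)) (Ioo (-r) r) := by
      apply strictMonoOn_of_deriv_pos (convex_Ioo (-r) r)
      · intro u hu
        exact (hder u hu).continuousAt.continuousWithinAt
      · intro u hu
        rw [interior_Ioo] at hu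
        rw [(hder u hu).deriv]
        exact (hball _ (hmem ξ u hξ (abs_lt.mpr hu))).2.1
    exact hmono ⟨h1, h2.trans h3⟩ ⟨h1.trans h2, h3⟩ h2
  · intro s hs
    have h1 := hball _ (hmem ξ s hξ hs)
    exact ⟨h1.1.continuousAt, h1.2.2⟩

theorem Vert.mono {Ω : Set E3} {φ : E3 → ℝ} {b v w x : E3} {r r' : ℝ} (h : Vert Ω φ b v w x r) (h0 : 0 < r')
    (hr : r' ≤ r) : Vert Ω φ b v w x r' := by
  refine ⟨h0, fun ξ hξ => ⟨fun s s' h1 h2 h3 => ?_, fun s hs => ?_⟩⟩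
  · exact (h.2 ξ (hξ.trans_le hr)).1 s s' (by linarith) h2 (by linarith)
  · exact (h.2 ξ (hξ.trans_le hr)).2 s (hs.trans_le hr)

end H48U
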