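import Pool.Agent.Lib.H48U.Defs
import Pool.Agent.Lib.H17S.Br3

set_option autoImplicit false

/-! # H48U, chunk C1 (M): the hex lemma outside a square

PROOF. Let the far points be in `G1` (otherwise reflect `ξ ↦ (-ξ.1, ξ.2)` and exchange `G1`, `G2`). There are continuous
`u, v : ℝ × ℝ → [-1, 1]` with `u = 1` on `G1`, `u = -1` on `G2`, `v = 1` on `F1`, `v = -1` on `F2`, `v` of compact support
(`exists_continuous_zero_one_of_isClosed`; `exists_continuous_one_zero_of_isCompact` for `F1` and for `F2`, difference of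
two functions). Let `W = (u, v)`; `‖W ξ‖ = 1` (maximum norm) for `r ≤ ‖ξ‖`. For `ζ ≠ 0` let
`κ ζ = (r / (‖ζ‖ * min ‖ζ‖ 1)) • ζ`, so `r ≤ ‖κ ζ‖`, and `Φ ζ = - W (κ ζ)`, `Φ 0 = (-1, 0)`. Near `0` the norm of `κ ζ` is
large, so `Φ = (-1, 0)` there; `Φ` is continuous and bounded by `1`. Brouwer's theorem (`H17S.brouwer_bdd`, for
`EuclideanSpace ℝ (Fin 2)`; transport with a linear homeomorphism) gives `ζ` with `Φ ζ = ζ`, `‖ζ‖ = 1`, `ζ = - W (r ζ)`,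
`‖r ζ‖ = r`. If `r ζ ∈ F1` then `ζ.2 = -1`, against `b1`; similarly in the other cases. -/

open Set Filter Topology Metric

namespace H48U

theorem brouwer_prod (f : ℝ × ℝ → ℝ × ℝ) (hf : Continuous f) (R : ℝ) (hm : ∀ x, ‖f x‖ ≤ R) : ∃ x, f x = x := by
  let e : WithLp 2 (ℝ × ℝ) ≃L[ℝ] ℝ × ℝ := WithLp.prodContinuousLinearEquiv 2 ℝ ℝ ℝ
  obtain ⟨x, hx⟩ := H17S.brouwer_bdd (fun x => e.symm (f (e x)))
    (e.symm.continuous.comp (hf.comp e.continuous))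
    (‖(e.symm : (ℝ × ℝ) →L[ℝ] WithLp 2 (ℝ × ℝ))‖ * R) (fun x => by
      refine ((e.symm : (ℝ × ℝ) →L[ℝ] WithLp 2 (ℝ × ℝ)).le_opNorm _).trans ?_
      exact mul_le_mul_of_nonneg_left (hm _) (norm_nonneg _))
  refine ⟨e x, ?_⟩
  have := congrArg e hx
  simpa using this

theorem c1_aux (r : ℝ) (hr : 0 < r) (F1 F2 G1 G2 : Set (ℝ × ℝ)) (c1 : IsClosed F1) (c2 : IsClosed F2) (c3 : IsClosed G1)
    (c4 : IsClosed G2) (k1 : Bornology.IsBounded F1) (k2 : Bornology.IsBounded F2) (hF : Disjoint F1 F2)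
    (hG : Disjoint G1 G2) (hcov : ∀ ξ : ℝ × ℝ, r ≤ ‖ξ‖ → ξ ∈ F1 ∨ ξ ∈ F2 ∨ ξ ∈ G1 ∨ ξ ∈ G2)
    (b1 : ∀ ξ ∈ F1, ‖ξ‖ = r → 0 < ξ.2) (b2 : ∀ ξ ∈ F2, ‖ξ‖ = r → ξ.2 < 0)
    (b3 : ∀ ξ ∈ G1, ‖ξ‖ = r → 0 < ξ.1) (b4 : ∀ ξ ∈ G2, ‖ξ‖ = r → ξ.1 < 0)
    (R : ℝ) (hfar : ∀ ξ : ℝ × ℝ, R ≤ ‖ξ‖ → ξ ∈ G1) : False := by
  obtain ⟨f, hf0, hf1, hf⟩ := exists_continuous_zero_one_of_isClosed c4 c3 hG.symm
  obtain ⟨g, hg0, hg1, hg⟩ := exists_continuous_zero_one_of_isClosed c2 c1 hF.symm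
  obtain ⟨B, hB⟩ := (k1.union k2).exists_norm_le
  let χ : ℝ × ℝ → ℝ := fun ξ => max 0 (min 1 (B + 1 - ‖ξ‖))
  have hχc : Continuous χ := by fun_prop
  have hχ0 : ∀ ξ, 0 ≤ χ ξ := fun ξ => le_max_left _ _
  have hχ1 : ∀ ξ, χ ξ ≤ 1 := fun ξ => max_le zero_le_one (min_le_left _ _)
  have hχin : ∀ ξ ∈ F1 ∪ F2, χ ξ = 1 := by
    intro ξ h
    have h1 := hB ξ h
    have h2 : min 1 (B + 1 - ‖ξ‖) = 1 := min_eq_left (by linarith)
    simp only [χ]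
    rw [h2]
    norm_num
  have hχout : ∀ ξ : ℝ × ℝ, B + 1 ≤ ‖ξ‖ → χ ξ = 0 := by
    intro ξ h
    simp only [χ]
    exact max_eq_left ((min_le_right _ _).trans (by linarith))
  let u : ℝ × ℝ → ℝ := fun ξ => 2 * f ξ - 1
  let v : ℝ × ℝ → ℝ := fun ξ => (2 * g ξ - 1) * χ ξ
  have huc : Continuous u := by fun_prop
  have hvc : Continuous v := by fun_prop
  have hua : ∀ ξ, |u ξ| ≤ 1 := by
    intro ξ
    have := hf ξ
    simp only [u]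
    rw [abs_le]
    constructor <;> linarith [this.1, this.2]
  have hva : ∀ ξ, |v ξ| ≤ 1 := by
    intro ξ
    have h1 := hg ξ
    simp only [v]
    rw [abs_mul, abs_of_nonneg (hχ0 ξ)]
    have h2 : |2 * g ξ - 1| ≤ 1 := by
      rw [abs_le]
      constructor <;> linarith [h1.1, h1.2]
    exact mul_le_one₀ h2 (hχ0 ξ) (hχ1 ξ)
  have huG1 : ∀ ξ ∈ G1, u ξ = 1 := by
    intro ξ h
    have h1 : f ξ = 1 := hf1 h
    simp only [u]
    rw [h1]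
    norm_num
  have huG2 : ∀ ξ ∈ G2, u ξ = -1 := by
    intro ξ h
    have h1 : f ξ = 0 := hf0 h
    simp only [u]
    rw [h1]
    norm_num
  have hvF1 : ∀ ξ ∈ F1, v ξ = 1 := by
    intro ξ h
    have h1 : g ξ = 1 := hg1 h
    simp only [v]
    rw [h1, hχin ξ (Or.inl h)]
    norm_num
  have hvF2 : ∀ ξ ∈ F2, v ξ = -1 := by
    intro ξ h
    have h1 : g ξ = 0 := hg0 h
    simp only [v]
    rw [h1, hχin ξ (Or.inr h)]
    norm_num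
  have hWn : ∀ ξ : ℝ × ℝ, ‖((u ξ, v ξ) : ℝ × ℝ)‖ ≤ 1 := by
    intro ξ
    rw [Prod.norm_mk, Real.norm_eq_abs, Real.norm_eq_abs]
    exact max_le (hua ξ) (hva ξ)
  have hW1 : ∀ ξ : ℝ × ℝ, r ≤ ‖ξ‖ → ‖((u ξ, v ξ) : ℝ × ℝ)‖ = 1 := by
    intro ξ h
    refine le_antisymm (hWn ξ) ?_
    rw [Prod.norm_mk, Real.norm_eq_abs, Real.norm_eq_abs]
    rcases hcov ξ h with h1 | h1 | h1 | h1
    · exact le_max_of_le_right (by rw [hvF1 ξ h1]; simp)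
    · exact le_max_of_le_right (by rw [hvF2 ξ h1]; simp)
    · exact le_max_of_le_left (by rw [huG1 ξ h1]; simp)
    · exact le_max_of_le_left (by rw [huG2 ξ h1]; simp)
  let κ : ℝ × ℝ → ℝ × ℝ := fun ζ => (r / (‖ζ‖ * min ‖ζ‖ 1)) • ζ
  have hκn : ∀ ζ : ℝ × ℝ, ζ ≠ 0 → ‖κ ζ‖ = r / min ‖ζ‖ 1 := by
    intro ζ h
    have h1 : 0 < ‖ζ‖ := norm_pos_iff.2 h
    have h2 : 0 < min ‖ζ‖ 1 := lt_min h1 one_pos
    simp only [κ]
    rw [norm_smul, Real.norm_of_nonneg (by positivity)]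
    field_simp
  have hκc : ∀ ζ : ℝ × ℝ, ζ ≠ 0 → ContinuousAt κ ζ := by
    intro ζ h
    have h1 : 0 < ‖ζ‖ := norm_pos_iff.2 h
    have h2 : 0 < min ‖ζ‖ 1 := lt_min h1 one_pos
    have h3 : ‖ζ‖ * min ‖ζ‖ 1 ≠ 0 := by positivity
    have h4 : ContinuousAt (fun ζ : ℝ × ℝ => ‖ζ‖ * min ‖ζ‖ 1) ζ := by fun_prop
    have h5 : ContinuousAt (fun ζ : ℝ × ℝ => r / (‖ζ‖ * min ‖ζ‖ 1)) ζ :=
      ContinuousAt.div (f := fun _ => r) continuousAt_const h4 h3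
    exact h5.smul continuousAt_id
  classical
  let Φ : ℝ × ℝ → ℝ × ℝ := fun ζ => if ζ = 0 then (-1, 0) else - (u (κ ζ), v (κ ζ))
  have hΦ0 : Φ 0 = (-1, 0) := by simp only [Φ, if_pos]
  have hΦne : ∀ ζ : ℝ × ℝ, ζ ≠ 0 → Φ ζ = - (u (κ ζ), v (κ ζ)) := by
    intro ζ h
    simp only [Φ]
    rw [if_neg h]
  have hΦc : Continuous Φ := by
    rw [continuous_iff_continuousAt]
    intro ζ
    by_cases h : ζ = 0
    · subst h
      have h1 : Φ =ᶠ[𝓝 0] fun _ => ((-1, 0) : ℝ × ℝ) := by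
        have hM : 0 < max (max R (B + 1)) 1 := lt_of_lt_of_le one_pos (le_max_right _ _)
        have h2 : ∀ᶠ ζ : ℝ × ℝ in 𝓝 0, ‖ζ‖ < min 1 (r / max (max R (B + 1)) 1) := by
          have h3 : Tendsto (fun ζ : ℝ × ℝ => ‖ζ‖) (𝓝 0) (𝓝 0) := by
            simpa using (continuous_norm (E := ℝ × ℝ)).tendsto 0
          exact h3.eventually (gt_mem_nhds (lt_min one_pos (by positivity)))
        filter_upwards [h2] with ζ hζ
        by_cases h4 : ζ = 0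
        · rw [h4, hΦ0]
        · rw [hΦne ζ h4]
          have h5 : 0 < ‖ζ‖ := norm_pos_iff.2 h4
          have h6 : min ‖ζ‖ 1 = ‖ζ‖ := min_eq_left (hζ.le.trans (min_le_left _ _))
          have h7 : ‖ζ‖ < r / max (max R (B + 1)) 1 := lt_of_lt_of_le hζ (min_le_right _ _)
          have h8 : max (max R (B + 1)) 1 ≤ ‖κ ζ‖ := by
            rw [hκn ζ h4, h6, le_div_iff₀ h5]
            rw [lt_div_iff₀ hM] at h7
            linarith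
          have h9 : R ≤ ‖κ ζ‖ := ((le_max_left _ _).trans (le_max_left _ _)).trans h8
          have h10 : B + 1 ≤ ‖κ ζ‖ := ((le_max_right _ _).trans (le_max_left _ _)).trans h8
          have h11 : v (κ ζ) = 0 := by
            simp only [v]
            rw [hχout _ h10, mul_zero]
          rw [huG1 _ (hfar _ h9), h11]
          ext <;> simp
      exact continuousAt_const.congr h1.symm
    · have h1 : Φ =ᶠ[𝓝 ζ] fun ζ => - (u (κ ζ), v (κ ζ)) := by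
        filter_upwards [isOpen_ne.mem_nhds h] with ζ' h'
        exact hΦne ζ' h'
      refine ContinuousAt.congr ?_ h1.symm
      exact (ContinuousAt.prodMk (huc.continuousAt.comp (hκc ζ h)) (hvc.continuousAt.comp (hκc ζ h))).neg
  have hΦb : ∀ ζ, ‖Φ ζ‖ ≤ 1 := by
    intro ζ
    by_cases h : ζ = 0
    · rw [h, hΦ0, Prod.norm_mk]
      simp
    · rw [hΦne ζ h, norm_neg]
      exact hWn _
  obtain ⟨ζ, hζ⟩ := brouwer_prod Φ hΦc 1 hΦb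
  have hζ0 : ζ ≠ 0 := by
    intro h
    rw [h, hΦ0] at hζ
    have := congrArg Prod.fst hζ
    norm_num at this
  have hz1 : 0 < ‖ζ‖ := norm_pos_iff.2 hζ0
  have hκr : r ≤ ‖κ ζ‖ := by
    rw [hκn ζ hζ0, le_div_iff₀ (lt_min hz1 one_pos)]
    calc r * min ‖ζ‖ 1 ≤ r * 1 := mul_le_mul_of_nonneg_left (min_le_right _ _) hr.le
      _ = r := mul_one r
  rw [hΦne ζ hζ0] at hζ
  have hn1 : ‖ζ‖ = 1 := by
    rw [← hζ, norm_neg]
    exact hW1 _ hκr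
  have hκζ : κ ζ = r • ζ := by
    simp only [κ]
    rw [hn1]
    norm_num
  have hκn1 : ‖κ ζ‖ = r := by
    rw [hκζ, norm_smul, hn1, mul_one, Real.norm_of_nonneg hr.le]
  have e1 : ζ.1 = - u (κ ζ) := by
    have := congrArg Prod.fst hζ
    simpa using this.symm
  have e2 : ζ.2 = - v (κ ζ) := by
    have := congrArg Prod.snd hζ
    simpa using this.symm
  have e3 : (κ ζ).1 = r * ζ.1 := by rw [hκζ]; simp
  have e4 : (κ ζ).2 = r * ζ.2 := by rw [hκζ]; simp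
  rcases hcov (κ ζ) hκr with h1 | h1 | h1 | h1
  · have h2 := b1 _ h1 hκn1
    rw [e4, e2, hvF1 _ h1] at h2
    linarith
  · have h2 := b2 _ h1 hκn1
    rw [e4, e2, hvF2 _ h1] at h2
    linarith
  · have h2 := b3 _ h1 hκn1
    rw [e3, e1, huG1 _ h1] at h2
    linarith
  · have h2 := b4 _ h1 hκn1
    rw [e3, e1, huG2 _ h1] at h2
    linarith

theorem hex (r : ℝ) (hr : 0 < r) (F1 F2 G1 G2 : Set (ℝ × ℝ)) (c1 : IsClosed F1) (c2 : IsClosed F2) (c3 : IsClosed G1)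
    (c4 : IsClosed G2) (k1 : Bornology.IsBounded F1) (k2 : Bornology.IsBounded F2) (hF : Disjoint F1 F2)
    (hG : Disjoint G1 G2) (hcov : ∀ ξ : ℝ × ℝ, r ≤ ‖ξ‖ → ξ ∈ F1 ∨ ξ ∈ F2 ∨ ξ ∈ G1 ∨ ξ ∈ G2)
    (b1 : ∀ ξ ∈ F1, ‖ξ‖ = r → 0 < ξ.2) (b2 : ∀ ξ ∈ F2, ‖ξ‖ = r → ξ.2 < 0)
    (b3 : ∀ ξ ∈ G1, ‖ξ‖ = r → 0 < ξ.1) (b4 : ∀ ξ ∈ G2, ‖ξ‖ = r → ξ.1 < 0)
    (hfar : ∃ R : ℝ, (∀ ξ : ℝ × ℝ, R ≤ ‖ξ‖ → ξ ∈ G1) ∨ ∀ ξ : ℝ × ℝ, R ≤ ‖ξ‖ → ξ ∈ G2) : False := by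
  obtain ⟨R, hR | hR⟩ := hfar
  · exact c1_aux r hr F1 F2 G1 G2 c1 c2 c3 c4 k1 k2 hF hG hcov b1 b2 b3 b4 R hR
  · let τ : ℝ × ℝ → ℝ × ℝ := fun ξ => (-ξ.1, ξ.2)
    have hτc : Continuous τ := by fun_prop
    have hτn : ∀ ξ, ‖τ ξ‖ = ‖ξ‖ := by
      intro ξ
      simp only [τ]
      rw [Prod.norm_mk, Prod.norm_def, norm_neg]
    have hb : ∀ F : Set (ℝ × ℝ), Bornology.IsBounded F → Bornology.IsBounded (τ ⁻¹' F) := by
      intro F h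
      obtain ⟨B, hB⟩ := h.exists_norm_le
      rw [isBounded_iff_forall_norm_le]
      exact ⟨B, fun x hx => by rw [← hτn x]; exact hB _ hx⟩
    refine c1_aux r hr (τ ⁻¹' F1) (τ ⁻¹' F2) (τ ⁻¹' G2) (τ ⁻¹' G1) (c1.preimage hτc) (c2.preimage hτc) (c4.preimage hτc)
      (c3.preimage hτc) (hb _ k1) (hb _ k2) (hF.preimage τ) (hG.symm.preimage τ) ?_ ?_ ?_ ?_ ?_ R ?_
    · intro ξ h
      rcases hcov (τ ξ) (by rw [hτn]; exact h) with h1 | h1 | h1 | h1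
      · exact Or.inl h1
      · exact Or.inr (Or.inl h1)
      · exact Or.inr (Or.inr (Or.inr h1))
      · exact Or.inr (Or.inr (Or.inl h1))
    · intro ξ h h1
      exact b1 (τ ξ) h (by rw [hτn]; exact h1)
    · intro ξ h h1
      exact b2 (τ ξ) h (by rw [hτn]; exact h1)
    · intro ξ h h1
      have h2 := b4 (τ ξ) h (by rw [hτn]; exact h1)
      simp only [τ] at h2
      linarith
    · intro ξ h h1
      have h2 := b3 (τ ξ) h (by rw [hτn]; exact h1)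
      simp only [τ] at h2
      linarith
    · intro ξ h
      exact hR (τ ξ) (by rw [hτn]; exact h)

end H48U
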