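import Pool.Agent.Lib.H48U.Defs

set_option autoImplicit false

/-! # H48U, chunk C2 (S): at a good point the adherent component is unique

PROOF. `sub Ω h c = Jn ∪ Nj`, so its closure is the union of the closures. If `z` is in both closures, the neighbourhood of
`Good` contains `y ∈ Jn` and `y' ∈ Nj`, joined in `sub Ω h (h z)`, so `y' ∈ Jn`. -/

open Set Filter Topology Metric

namespace H48U

theorem adh_split {X : Type*} [TopologicalSpace X] (Ω : Set X) (h : X → ℝ) (z p : X)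
    (hz : z ∈ closure (sub Ω h (h z))) :
    z ∈ closure (Jn Ω h (h z) p) ∨ z ∈ closure (Nj Ω h (h z) p) := by
  have h1 : sub Ω h (h z) ⊆ Jn Ω h (h z) p ∪ Nj Ω h (h z) p := by
    intro y hy
    by_cases hj : JoinedIn (sub Ω h (h z)) y p
    · exact Or.inl ⟨hy, hj⟩
    · exact Or.inr ⟨hy, hj⟩
  have h2 := closure_mono h1 hz
  rw [closure_union] at h2
  exact h2

theorem adh_disj {X : Type*} [TopologicalSpace X] (Ω : Set X) (h : X → ℝ) (z p : X) (hg : Good Ω h z)
    (h1 : z ∈ closure (Jn Ω h (h z) p)) (h2 : z ∈ closure (Nj Ω h (h z) p)) : False := by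
  obtain ⟨U, hU, hjoin⟩ := hg
  obtain ⟨y, hyU, hy⟩ := mem_closure_iff_nhds.mp h1 U hU
  obtain ⟨y', hyU', hy'⟩ := mem_closure_iff_nhds.mp h2 U hU
  have h3 : JoinedIn (sub Ω h (h z)) y' y := hjoin y' ⟨hyU', hy'.1⟩ y ⟨hyU, hy.1⟩
  exact hy'.2 (h3.trans hy.2)

end H48U
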