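import Pool.Agent.Lib.H48U.B2
import Pool.Agent.Lib.H48U.B3

set_option autoImplicit false

/-! # H48U, chunk C3 (M): the two sides of a level

PROOF. `locOm`: `φ y = θ y - t`. `locEx`: `θ x = t` implies `‖x‖ < R`, so near `x` the set `Ex` is `{t - θ < 0}`.
`locSph`: `‖x‖ = R + 1` implies `t < θ x`, so near `x` the set is `{‖y‖² - (R+1)² < 0}`; the derivative of `‖y‖²` is
`2 ⟪y, ·⟫`, nonzero. `critSph`: `2 ⟪x, ·⟫ = - l ⟪b, ·⟫` with `l > 0` means `x = - (l/2) b`, and `‖x‖ = R + 1`. -/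

open Set Filter Topology Metric

namespace H48U

open Pool.Agent.Lib.PenroseSph (E3)

variable {θ : E3 → ℝ} {t R : ℝ}

theorem c3_lt (h : Lev θ t R) {x : E3} (hx : θ x ≤ t) : ‖x‖ < R := by
  by_contra hc
  have h1 := h.far x (not_lt.1 hc)
  linarith

theorem isOpen_Om (h : Lev θ t R) : IsOpen (Om θ t) := isOpen_lt h.cont continuous_const

theorem isOpen_Ex (h : Lev θ t R) : IsOpen (Ex θ t R) :=
  (isOpen_lt continuous_const h.cont).inter (isOpen_lt continuous_norm continuous_const)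

theorem closure_Om (h : Lev θ t R) {x : E3} (hx : x ∈ closure (Om θ t)) : (x ∈ Om θ t ∨ θ x = t) ∧ ‖x‖ < R := by
  have h1 : x ∈ {y : E3 | θ y ≤ t} :=
    closure_minimal (fun y hy => le_of_lt hy) (isClosed_le h.cont continuous_const) hx
  have h2 : θ x ≤ t := h1
  refine ⟨?_, c3_lt h h2⟩
  rcases lt_or_eq_of_le h2 with h3 | h3
  · exact Or.inl h3
  · exact Or.inr h3

theorem closure_Ex (h : Lev θ t R) {x : E3} (hx : x ∈ closure (Ex θ t R)) :
    x ∈ Ex θ t R ∨ (θ x = t ∧ ‖x‖ < R) ∨ (‖x‖ = R + 1 ∧ t < θ x) := by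
  have h0 : Ex θ t R ⊆ {y : E3 | t ≤ θ y} ∩ {y : E3 | ‖y‖ ≤ R + 1} :=
    fun y hy => ⟨le_of_lt hy.1, le_of_lt hy.2⟩
  have h1 : x ∈ {y : E3 | t ≤ θ y} ∩ {y : E3 | ‖y‖ ≤ R + 1} :=
    closure_minimal h0 ((isClosed_le continuous_const h.cont).inter (isClosed_le continuous_norm continuous_const)) hx
  have h2 : t ≤ θ x := h1.1
  have h3 : ‖x‖ ≤ R + 1 := h1.2
  rcases lt_or_eq_of_le h2 with h4 | h4
  · rcases lt_or_eq_of_le h3 with h5 | h5
    · exact Or.inl ⟨h4, h5⟩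
    · exact Or.inr (Or.inr ⟨h5, h4⟩)
  · exact Or.inr (Or.inl ⟨h4.symm, c3_lt h h4.symm.le⟩)

theorem locOm (h : Lev θ t R) {x : E3} (hx : θ x = t) : IsLoc (Om θ t) (fun y => θ y - t) x := by
  refine ⟨(h.reg x hx).1.sub contDiffAt_const, sub_eq_zero.2 hx, ?_, ?_⟩
  · rw [show fderiv ℝ (fun y => θ y - t) x = fderiv ℝ θ x from fderiv_sub_const t]
    exact (h.reg x hx).2
  · exact Eventually.of_forall fun y => ⟨fun h2 => sub_neg.2 h2, fun h2 => sub_neg.1 h2⟩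

theorem locEx (h : Lev θ t R) {x : E3} (hx : θ x = t) : IsLoc (Ex θ t R) (fun y => t - θ y) x := by
  refine ⟨contDiffAt_const.sub (h.reg x hx).1, sub_eq_zero.2 hx.symm, ?_, ?_⟩
  · rw [show fderiv ℝ (fun y => t - θ y) x = - fderiv ℝ θ x from fderiv_const_sub t]
    exact neg_ne_zero.2 (h.reg x hx).2
  · have h1 : ∀ᶠ y : E3 in 𝓝 x, ‖y‖ < R + 1 :=
      (continuous_norm.tendsto x).eventually_lt_const (by linarith [c3_lt h hx.le])
    filter_upwards [h1] with y hy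
    exact ⟨fun h2 => sub_neg.2 h2.1, fun h2 => ⟨sub_neg.1 h2, hy⟩⟩

theorem c3_fd (R : ℝ) (x : E3) :
    fderiv ℝ (fun y : E3 => ‖y‖ ^ 2 - (R + 1) ^ 2) x = (2 : ℝ) • innerSL ℝ x := by
  have h1 : HasFDerivAt (fun y : E3 => ‖y‖ ^ 2) (2 • innerSL ℝ x) x := (hasStrictFDerivAt_norm_sq x).hasFDerivAt
  rw [(h1.sub_const ((R + 1) ^ 2)).fderiv]
  ext v
  simp

theorem locSph (h : Lev θ t R) {x : E3} (hx : ‖x‖ = R + 1) :
    IsLoc (Ex θ t R) (fun y => ‖y‖ ^ 2 - (R + 1) ^ 2) x := by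
  have hR := h.pos
  refine ⟨(contDiff_norm_sq ℝ).contDiffAt.sub contDiffAt_const, ?_, ?_, ?_⟩
  · simp only
    rw [hx, sub_self]
  · rw [c3_fd]
    intro h0
    have h1 : ((2 : ℝ) • innerSL ℝ x : E3 →L[ℝ] ℝ) x = 0 := by rw [h0]; rfl
    have h2 : (2 : ℝ) * inner ℝ x x = 0 := h1
    rw [real_inner_self_eq_norm_sq, hx] at h2
    nlinarith
  · have h1 : ∀ᶠ y : E3 in 𝓝 x, t < θ y :=
      (h.cont.tendsto x).eventually_const_lt (h.far x (by linarith))
    filter_upwards [h1] with y hy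
    constructor
    · intro h2
      have h3 : ‖y‖ < R + 1 := h2.2
      nlinarith [norm_nonneg y]
    · intro h2
      refine ⟨hy, ?_⟩
      by_contra hc
      have h3 : R + 1 ≤ ‖y‖ := not_lt.1 hc
      nlinarith

theorem critSph (h : Lev θ t R) {x b : E3} (hb : b ≠ 0) (hx : ‖x‖ = R + 1) :
    Crit (fun y : E3 => ‖y‖ ^ 2 - (R + 1) ^ 2) (-b) x ↔ x = (-((R + 1) / ‖b‖)) • b := by
  have hR := h.pos
  have hbn : 0 < ‖b‖ := norm_pos_iff.2 hb
  unfold Crit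
  rw [c3_fd]
  constructor
  · rintro ⟨l, hl, h1⟩
    have h2 : x = (-(l / 2)) • b := by
      apply ext_inner_right ℝ
      intro v
      have h3 : (2 : ℝ) * inner ℝ x v = l * inner ℝ (-b) v := h1 v
      rw [inner_neg_left] at h3
      rw [inner_smul_left]
      simp only [conj_trivial]
      linarith
    have h4 : R + 1 = l / 2 * ‖b‖ := by
      have h5 := congrArg norm h2
      rw [norm_smul, norm_neg, Real.norm_eq_abs, abs_of_pos (by linarith), hx] at h5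
      exact h5
    rw [h2]
    congr 2
    rw [h4]
    field_simp
  · intro h1
    refine ⟨2 * ((R + 1) / ‖b‖), by positivity, fun v => ?_⟩
    have h3 : ((2 : ℝ) • innerSL ℝ x : E3 →L[ℝ] ℝ) v = 2 * inner ℝ x v := rfl
    rw [h3, h1, inner_smul_left, inner_neg_left]
    simp only [conj_trivial]
    ring

theorem posSph (h : Lev θ t R) {x b : E3} : PosT (fun y : E3 => ‖y‖ ^ 2 - (R + 1) ^ 2) (-b) x := by
  intro v _ hv
  unfold D2
  have h1 : fderiv ℝ (fun y : E3 => ‖y‖ ^ 2 - (R + 1) ^ 2) = fun y => ((2 : ℝ) • innerSL ℝ (E := E3)) y := by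
    funext y
    rw [c3_fd]
    rfl
  rw [h1]
  have h2 : fderiv ℝ (fun y => ((2 : ℝ) • innerSL ℝ (E := E3)) y) x = (2 : ℝ) • innerSL ℝ (E := E3) :=
    ContinuousLinearMap.fderiv _
  rw [h2]
  have h3 : ((2 : ℝ) • innerSL ℝ (E := E3)) v v = 2 * inner ℝ v v := rfl
  rw [h3, real_inner_self_eq_norm_sq]
  have h4 : 0 < ‖v‖ := norm_pos_iff.2 hv
  positivity

end H48U
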