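import Pool.Agent.Lib.H48U.Defs

set_option autoImplicit false

/-! # H48U, chunk C4 (S/M): types for `θ - t` and `t - θ`

PROOF. `fderiv (θ - t) = fderiv θ`, `fderiv (t - θ) = - fderiv θ` everywhere, so `D2 (θ - t) = D2 θ`,
`D2 (t - θ) = - D2 θ`. -/

open Set Filter Topology Metric

namespace H48U

open Pool.Agent.Lib.PenroseSph (E3)

variable (θ : E3 → ℝ) (t : ℝ) (b x : E3)

theorem c4_sub : fderiv ℝ (fun y => θ y - t) = fderiv ℝ θ := by
  funext y
  exact fderiv_sub_const t

theorem c4_rsub : fderiv ℝ (fun y => t - θ y) = fun y => - fderiv ℝ θ y := by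
  funext y
  exact fderiv_const_sub t

theorem D2_sub (v w : E3) : D2 (fun y => θ y - t) x v w = D2 θ x v w := by
  unfold D2
  rw [c4_sub]

theorem D2_rsub (v w : E3) : D2 (fun y => t - θ y) x v w = - D2 θ x v w := by
  unfold D2
  rw [c4_rsub]
  have h : fderiv ℝ (fun y => - fderiv ℝ θ y) x = - fderiv ℝ (fderiv ℝ θ) x := fderiv_neg
  rw [h]
  rfl

theorem crit_sub : Crit (fun y => θ y - t) b x ↔ Crit θ b x := by
  unfold Crit
  rw [c4_sub]

theorem crit_rsub : Crit (fun y => t - θ y) (-b) x ↔ Crit θ b x := by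
  unfold Crit
  rw [c4_rsub]
  constructor
  · rintro ⟨l, hl, h⟩
    refine ⟨l, hl, fun v => ?_⟩
    have h1 := h v
    rw [inner_neg_left] at h1
    have h2 : -(fderiv ℝ θ x v) = l * -(inner ℝ b v) := h1
    linarith
  · rintro ⟨l, hl, h⟩
    refine ⟨l, hl, fun v => ?_⟩
    have h1 := h v
    rw [inner_neg_left]
    have h2 : -(fderiv ℝ θ x v) = l * -(inner ℝ b v) := by rw [h1]; ring
    exact h2

theorem pos_sub : PosT (fun y => θ y - t) b x ↔ PosT θ b x := by
  unfold PosT
  simp only [D2_sub]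

theorem neg_sub : NegT (fun y => θ y - t) b x ↔ NegT θ b x := by
  unfold NegT
  simp only [D2_sub]

theorem ind_sub : IndT (fun y => θ y - t) b x ↔ IndT θ b x := by
  unfold IndT
  simp only [D2_sub]

theorem pos_rsub : PosT (fun y => t - θ y) (-b) x ↔ NegT θ b x := by
  unfold PosT NegT
  simp only [D2_rsub, inner_neg_left, neg_eq_zero, neg_pos]

theorem neg_rsub : NegT (fun y => t - θ y) (-b) x ↔ PosT θ b x := by
  unfold PosT NegT
  simp only [D2_rsub, inner_neg_left, neg_eq_zero, neg_lt_zero]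

theorem ind_rsub : IndT (fun y => t - θ y) (-b) x ↔ IndT θ b x := by
  unfold IndT
  simp only [D2_rsub, inner_neg_left, neg_eq_zero, neg_lt_zero, neg_pos]
  constructor
  · rintro ⟨v, w, h1, h2, h3, h4⟩
    exact ⟨w, v, h2, h1, h4, h3⟩
  · rintro ⟨v, w, h1, h2, h3, h4⟩
    exact ⟨w, v, h2, h1, h4, h3⟩

end H48U
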