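import Pool.Agent.Lib.H48U.Defs

set_option autoImplicit false

/-! # H48U, chunk C5 (S/M): a circle is connected

PROOF. Let `f = (a / ‖b‖²) • b` be the foot point, `K = (ℝ ∙ b)ᗮ`, of dimension 2 (`Submodule.finrank_orthogonal_span_singleton`).
The set is empty if `‖f‖ > ρ`; otherwise it is the image of the sphere of radius `√(ρ² - ‖f‖²)` of `K`
(`isPreconnected_sphere`, rank of `K` greater than one) under the continuous map `k ↦ f + k` (`x - f ∈ K`, Pythagoras). -/

open Set Filter Topology Metric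

namespace H48U

open Pool.Agent.Lib.PenroseSph (E3)

theorem circle_conn (b : E3) (hb : b ≠ 0) (a ρ : ℝ) : IsPreconnected {x : E3 | inner ℝ b x = a ∧ ‖x‖ = ρ} := by
  rcases Set.eq_empty_or_nonempty {x : E3 | inner ℝ b x = a ∧ ‖x‖ = ρ} with he | ⟨x0, hx0, hx0ρ⟩
  · rw [he]
    exact isPreconnected_empty
  set f : E3 := (a / ‖b‖ ^ 2) • b with hf
  set K : Submodule ℝ E3 := (Submodule.span ℝ {b})ᗮ with hK
  have hbn : ‖b‖ ≠ 0 := norm_ne_zero_iff.mpr hb
  have hbf : inner ℝ b f = a := by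
    rw [hf, inner_smul_right, real_inner_self_eq_norm_sq]
    field_simp
  have hmemK : ∀ k : E3, k ∈ K ↔ inner ℝ b k = 0 := fun k => Submodule.mem_orthogonal_singleton_iff_inner_right
  have hpy : ∀ k : E3, k ∈ K → ‖f + k‖ ^ 2 = ‖f‖ ^ 2 + ‖k‖ ^ 2 := by
    intro k hk
    have h1 : inner ℝ f k = 0 := by
      rw [hf, inner_smul_left, (hmemK k).1 hk]
      simp
    rw [norm_add_sq_real, h1]
    ring
  have hsub : ∀ x : E3, inner ℝ b x = a → x - f ∈ K := by
    intro x hx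
    rw [hmemK, inner_sub_right, hx, hbf, sub_self]
  have hρ : 0 ≤ ρ := hx0ρ ▸ norm_nonneg x0
  have hρf : ‖f‖ ^ 2 ≤ ρ ^ 2 := by
    have h1 := hpy _ (hsub x0 hx0)
    rw [add_sub_cancel, hx0ρ] at h1
    have : 0 ≤ ‖x0 - f‖ ^ 2 := by positivity
    linarith
  have hrank : 1 < Module.rank ℝ K := by
    have : Fact (Module.finrank ℝ E3 = 2 + 1) := ⟨by simp⟩
    have h1 : Module.finrank ℝ K = 2 := Submodule.finrank_orthogonal_span_singleton hb
    rw [← Module.finrank_eq_rank, h1]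
    norm_num
  have hset : {x : E3 | inner ℝ b x = a ∧ ‖x‖ = ρ}
      = (fun k : K => f + (k : E3)) '' sphere (0 : K) (Real.sqrt (ρ ^ 2 - ‖f‖ ^ 2)) := by
    ext x
    constructor
    · rintro ⟨h1, h2⟩
      refine ⟨⟨x - f, hsub x h1⟩, ?_, by simp⟩
      rw [mem_sphere_zero_iff_norm]
      have h3 := hpy _ (hsub x h1)
      rw [add_sub_cancel, h2] at h3
      have h4 : ρ ^ 2 - ‖f‖ ^ 2 = ‖x - f‖ ^ 2 := by linarith
      rw [h4, Real.sqrt_sq (norm_nonneg _)]
      rfl
    · rintro ⟨k, hk, rfl⟩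
      rw [mem_sphere_zero_iff_norm] at hk
      have hk' : ‖(k : E3)‖ = Real.sqrt (ρ ^ 2 - ‖f‖ ^ 2) := hk
      refine ⟨?_, ?_⟩
      · change inner ℝ b (f + (k : E3)) = a
        rw [inner_add_right, hbf, (hmemK _).1 k.2, add_zero]
      · change ‖f + (k : E3)‖ = ρ
        have h1 := hpy k k.2
        rw [hk', Real.sq_sqrt (by linarith)] at h1
        have h2 : ‖f + (k : E3)‖ ^ 2 = ρ ^ 2 := by linarith
        exact (pow_left_inj₀ (norm_nonneg _) hρ (by norm_num)).mp h2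
  rw [hset]
  exact (isPreconnected_sphere hrank 0 _).image _ (by fun_prop)

end H48U
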