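import Pool.Agent.Lib.H48U.B2
import Pool.Agent.Lib.H48U.C3
import Pool.Agent.Lib.H48U.C4

set_option autoImplicit false

/-! # H48U, chunk C6 (S/M): the points of the plane of a saddle

Let `s` be a critical point of the level (`θ s = t`, `Crit θ b s`) and the only critical point of its height.
`planeOm`: for `z ≠ s` in the plane with `θ z ≤ t`: interior point (`interior_pt`) or `θ z = t` and not critical
(`good_noncrit` with `locOm`, `crit_sub`). `planeEx`: for `z ≠ s` in the plane with `t ≤ θ z`, `‖z‖ ≤ R + 1`: interior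
point of `Ex`, or `θ z = t` (`locEx`, `crit_rsub`), or `‖z‖ = R + 1` (`locSph`; by `critSph` the only critical point is
`-((R+1)/‖b‖) b`, whose `inner ℝ b` is `-(R+1)‖b‖ < -‖b‖ ‖s‖ ≤ inner ℝ b s`). -/

open Set Filter Topology Metric

namespace H48U

open Pool.Agent.Lib.PenroseSph (E3)

variable {θ : E3 → ℝ} {t R : ℝ}

theorem planeOm (h : Lev θ t R) (b s z : E3) (hb : b ≠ 0) (hd : ∀ x, θ x = t → Crit θ b x → inner ℝ b x = (inner ℝ b s : ℝ) → x = s)
    (hz : inner ℝ b z = (inner ℝ b s : ℝ)) (hne : z ≠ s) (ht1 : θ z ≤ t) :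
    Good (Om θ t) (ht b) z ∧ z ∈ closure (sub (Om θ t) (ht b) (ht b z)) := by
  rcases lt_or_eq_of_le ht1 with h1 | h1
  · have := interior_pt (Om θ t) (isOpen_Om h) z b h1 hb
    exact ⟨this.2.1, this.2.2.1⟩
  · have hn : ¬ Crit (fun y => θ y - t) b z := by
      rw [crit_sub]
      intro hc
      exact hne (hd z h1 hc hz)
    have := good_noncrit (Om θ t) _ z b hb (locOm h h1) hn
    exact ⟨this.1, this.2.1⟩

theorem planeEx (h : Lev θ t R) (b s z : E3) (hb : b ≠ 0) (hs : θ s = t)
    (hd : ∀ x, θ x = t → Crit θ b x → inner ℝ b x = (inner ℝ b s : ℝ) → x = s)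
    (hz : inner ℝ b z = (inner ℝ b s : ℝ)) (hne : z ≠ s) (ht1 : t ≤ θ z) (hR : ‖z‖ ≤ R + 1) :
    Good (Ex θ t R) (ht (-b)) z ∧ z ∈ closure (sub (Ex θ t R) (ht (-b)) (ht (-b) z)) := by
  have hb' : -b ≠ 0 := neg_ne_zero.mpr hb
  rcases eq_or_lt_of_le ht1 with h1 | h1
  · have hn : ¬ Crit (fun y => t - θ y) (-b) z := by
      rw [crit_rsub]
      intro hc
      exact hne (hd z h1.symm hc hz)
    have := good_noncrit (Ex θ t R) _ z (-b) hb' (locEx h h1.symm) hn
    exact ⟨this.1, this.2.1⟩
  · rcases eq_or_lt_of_le hR with h2 | h2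
    · have hn : ¬ Crit (fun y : E3 => ‖y‖ ^ 2 - (R + 1) ^ 2) (-b) z := by
        rw [critSph h hb h2]
        intro hc
        have hsR : ‖s‖ < R := by
          by_contra hcon
          push Not at hcon
          have := h.far s hcon
          linarith
        have hnb : 0 < ‖b‖ := norm_pos_iff.mpr hb
        have h3 : inner ℝ b z = -((R + 1) * ‖b‖) := by
          rw [hc, inner_smul_right, real_inner_self_eq_norm_sq]
          field_simp
        have h4 : -(‖b‖ * ‖s‖) ≤ inner ℝ b s := by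
          have := abs_real_inner_le_norm b s
          exact (abs_le.mp this).1
        have h5 : ‖b‖ * ‖s‖ < (R + 1) * ‖b‖ := by
          nlinarith
        rw [h3] at hz
        linarith
      have := good_noncrit (Ex θ t R) _ z (-b) hb' (locSph h h2) hn
      exact ⟨this.1, this.2.1⟩
    · have := interior_pt (Ex θ t R) (isOpen_Ex h) z (-b) ⟨h1, h2⟩ hb'
      exact ⟨this.2.1, this.2.2.1⟩

end H48U
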