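import Pool.Agent.Lib.H48U.B12
import Pool.Agent.Lib.H48U.C1
import Pool.Agent.Lib.H48U.C2
import Pool.Agent.Lib.H48U.C5
import Pool.Agent.Lib.H48U.C6

set_option autoImplicit false

/-! # H48U, chunk C7 (L): no saddle is a pass for both sides

PROOF. Suppose `s` is not good on both sides. Let `v, w` be orthogonal to `b` with `D2 θ s v v > 0 > D2 θ s w w`;
`saddle_struct` for `Om`, `φ = θ - t`, `b, v, w` gives `r0, p, q`; `saddle_struct` for `Ex`, `φ = t - θ`, `-b, w, v` gives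
`r0', p', q'` (its coordinates are exchanged: `pt (-b) w v s (ξ.2, ξ.1) 0 = pt b v w s ξ 0`). Write
`P ξ = pt b v w s ξ 0`; `inner ℝ b (P ξ) = inner ℝ b s`, `P ξ ≠ s` for `ξ ≠ 0`. Since `s` is not good, `q` is not joined
with `p` (else (S3) gives `Good`), and `q'` is not joined with `p'`. Let `0 < r ≤ min r0 r0'` with `‖P ξ‖ < R + 1` for
`‖ξ‖ = r`. Let `JO, NO` be `Jn, Nj` for `Om`, `ht b`, level of `s`, point `p`; `JE, NE` for `Ex`, `ht (-b)`, level of `s`, point `p'`.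
`F1 = {r ≤ ‖ξ‖, P ξ ∈ closure JO}`, `F2 = {r ≤ ‖ξ‖, P ξ ∈ closure NO}`: closed, bounded (`closure_Om`, `pt_lower`),
disjoint (`adh_disj`, `planeOm`), and cover `{r ≤ ‖ξ‖, θ (P ξ) ≤ t}` (`adh_split`). `G1°`, `G2°` the same with `JE`, `NE`;
they cover `{r ≤ ‖ξ‖, t ≤ θ (P ξ), ‖P ξ‖ ≤ R + 1}`. The circle `C = {inner ℝ b x = inner ℝ b s, ‖x‖ = R + 1}` is
connected (`circle_conn`) and covered by the disjoint closed sets `closure JE`, `closure NE` (`planeEx`, `Lev.far`), so it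
lies in one of them. If `C ⊆ closure JE` put `G1 = G1° ∪ {R + 1 ≤ ‖P ξ‖}`, `G2 = G2°`, otherwise
`G1 = G1°`, `G2 = G2° ∪ {R + 1 ≤ ‖P ξ‖}`; disjoint because `closure (Ex θ t R) ⊆ {‖x‖ ≤ R + 1}`. Boundary conditions at
`‖ξ‖ = r`: if `ξ.2 = 0` then `θ (P ξ) > t`, so `ξ ∉ F1, F2`; if `ξ.2 > 0` near `P ξ` all points of `sub` are in `JO`, so
`ξ ∉ F2`; if `ξ.2 < 0` they are joined with `q`, so in `NO`, and `ξ ∉ F1`. The same for `G1, G2` with `ξ.1`. Far points are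
in `{R + 1 ≤ ‖P ξ‖}` (`pt_lower`). `hex` gives `False`. -/

open Set Filter Topology Metric

namespace H48U

open Pool.Agent.Lib.PenroseSph (E3)

variable {θ : E3 → ℝ} {t R : ℝ}

theorem c7_side (Ω : Set E3) (φ : E3 → ℝ) (b v w x : E3) (hb : b ≠ 0) (hl : IsLoc Ω φ x) (hcr : Crit φ b x)
    (hv : inner ℝ b v = (0 : ℝ)) (hw : inner ℝ b w = (0 : ℝ)) (hp : 0 < D2 φ x v v) (hn : D2 φ x w w < 0)
    (hng : ¬ Good Ω (ht b) x) :
    ∃ r0 > 0, ∃ p : E3,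
      (∀ a : ℝ, a ≠ 0 → |a| ≤ r0 → 0 < φ (pt b v w x (a, 0) 0)) ∧
      (∀ ξ : ℝ × ℝ, ‖ξ‖ ≤ r0 → 0 < ξ.2 → pt b v w x ξ 0 ∉ closure (Nj Ω (ht b) (ht b x) p)) ∧
      (∀ ξ : ℝ × ℝ, ‖ξ‖ ≤ r0 → ξ.2 < 0 → pt b v w x ξ 0 ∉ closure (Jn Ω (ht b) (ht b x) p)) := by
  obtain ⟨-, r0, hr0, p, hpm, q, hqm, h1, h2, h3, h4, h5⟩ := saddle_struct Ω φ b v w x hb hl hcr hv hw hp hn
  have hqp : ¬ JoinedIn (sub Ω (ht b) (ht b x)) q p := by
    intro hj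
    apply hng
    refine ⟨_, h4, ?_⟩
    rintro y ⟨hy1, hy2⟩ z ⟨hz1, hz2⟩
    have hy : JoinedIn (sub Ω (ht b) (ht b x)) y p := by
      rcases hy1 hy2 with h | h
      · exact h
      · exact h.trans hj
    have hz : JoinedIn (sub Ω (ht b) (ht b x)) z p := by
      rcases hz1 hz2 with h | h
      · exact h
      · exact h.trans hj
    exact hy.trans hz.symm
  refine ⟨r0, hr0, p, h1, ?_, ?_⟩
  · intro ξ hξ h0 hc
    rw [mem_closure_iff_frequently] at hc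
    obtain ⟨y, hy1, hy2⟩ := (hc.and_eventually (h2 ξ hξ h0)).exists
    exact hy1.2 (hy2 hy1.1)
  · intro ξ hξ h0 hc
    rw [mem_closure_iff_frequently] at hc
    obtain ⟨y, hy1, hy2⟩ := (hc.and_eventually (h3 ξ hξ h0)).exists
    exact hqp ((hy2 hy1.1).symm.trans hy1.2)

theorem c7_ht (b x y : E3) (h : inner ℝ b x = (inner ℝ b y : ℝ)) : ht b x = ht b y := by
  unfold ht
  rw [h]

theorem c7_ht' (b x y : E3) (h : inner ℝ b x = (inner ℝ b y : ℝ)) : ht (-b) x = ht (-b) y := by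
  unfold ht
  rw [inner_neg_left, inner_neg_left, h]

theorem c7_in (b v w s : E3) (hv : inner ℝ b v = (0 : ℝ)) (hw : inner ℝ b w = (0 : ℝ)) (ξ : ℝ × ℝ) :
    inner ℝ b (pt b v w s ξ 0) = (inner ℝ b s : ℝ) := by
  unfold pt
  rw [inner_add_right, inner_add_right, inner_add_right, inner_smul_right, inner_smul_right, inner_smul_right, hv, hw]
  ring

theorem c7_cont (b v w s : E3) : Continuous (fun ξ : ℝ × ℝ => pt b v w s ξ 0) := by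
  unfold pt
  fun_prop

theorem c7_swap (b v w s : E3) (ξ : ℝ × ℝ) : pt (-b) w v s (ξ.2, ξ.1) 0 = pt b v w s ξ 0 := by
  unfold pt
  simp only [zero_smul, add_zero]
  abel

theorem no_double (h : Lev θ t R) (b s : E3) (hb : b ≠ 0) (hs : θ s = t) (hcr : Crit θ b s) (hi : IndT θ b s)
    (hd : ∀ x, θ x = t → Crit θ b x → inner ℝ b x = (inner ℝ b s : ℝ) → x = s) :
    Good (Om θ t) (ht b) s ∨ Good (Ex θ t R) (ht (-b)) s := by
  by_contra hcon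
  rw [not_or] at hcon
  obtain ⟨hg1, hg2⟩ := hcon
  obtain ⟨v, w, hv, hw, hv2, hw2⟩ := hi
  have hnb : -b ≠ 0 := neg_ne_zero.2 hb
  have hv' : inner ℝ (-b) v = (0 : ℝ) := by rw [inner_neg_left, hv, neg_zero]
  have hw' : inner ℝ (-b) w = (0 : ℝ) := by rw [inner_neg_left, hw, neg_zero]
  have hcr1 : Crit (fun y => θ y - t) b s := (crit_sub θ t b s).2 hcr
  have hcr2 : Crit (fun y => t - θ y) (-b) s := (crit_rsub θ t b s).2 hcr
  have hli : LinearIndependent ℝ ![v, w] :=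
    (saddle_struct (Om θ t) (fun y => θ y - t) b v w s hb (locOm h hs) hcr1 hv hw
      (by rw [D2_sub]; exact hv2) (by rw [D2_sub]; exact hw2)).1
  obtain ⟨r0, hr0, p, a1, a2, a3⟩ := c7_side (Om θ t) (fun y => θ y - t) b v w s hb (locOm h hs) hcr1 hv hw
    (by rw [D2_sub]; exact hv2) (by rw [D2_sub]; exact hw2) hg1
  obtain ⟨r0', hr0', p', a1', a2', a3'⟩ := c7_side (Ex θ t R) (fun y => t - θ y) (-b) w v s hnb (locEx h hs) hcr2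
    hw' hv' (by rw [D2_rsub]; linarith) (by rw [D2_rsub]; linarith) hg2
  obtain ⟨k, hk, hk2⟩ := pt_lower b v w s hli
  have hPc := c7_cont b v w s
  have hPin := c7_in b v w s hv hw
  have hPne : ∀ ξ : ℝ × ℝ, ξ ≠ 0 → pt b v w s ξ 0 ≠ s := by
    intro ξ hξ heq
    have h1 := hk2 ξ
    rw [heq, sub_self, norm_zero] at h1
    have h2 : 0 < ‖ξ‖ := norm_pos_iff.2 hξ
    nlinarith
  have hsR : ‖s‖ < R := by
    by_contra hc
    have h1 := h.far s (not_lt.1 hc)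
    linarith
  -- the radius
  have hP0 : pt b v w s 0 0 = s := by
    unfold pt
    simp
  have hnear : ∀ᶠ ξ : ℝ × ℝ in 𝓝 0, ‖pt b v w s ξ 0‖ < R + 1 := by
    have h1 : Tendsto (fun ξ : ℝ × ℝ => ‖pt b v w s ξ 0‖) (𝓝 0) (𝓝 ‖s‖) := by
      have := (hPc.norm).tendsto (0 : ℝ × ℝ)
      rwa [hP0] at this
    exact h1.eventually_lt_const (by linarith)
  obtain ⟨δ, hδ, hδ2⟩ := Metric.eventually_nhds_iff.1 hnear
  set r : ℝ := min (min r0 r0') (δ / 2) with hr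
  have hrpos : 0 < r := lt_min (lt_min hr0 hr0') (by linarith)
  have hr1 : r ≤ r0 := (min_le_left _ _).trans (min_le_left _ _)
  have hr2 : r ≤ r0' := (min_le_left _ _).trans (min_le_right _ _)
  have hr3 : r < δ := (min_le_right _ _).trans_lt (by linarith)
  have hrR : ∀ ξ : ℝ × ℝ, ‖ξ‖ = r → ‖pt b v w s ξ 0‖ < R + 1 := by
    intro ξ hξ
    apply hδ2
    rw [dist_zero_right, hξ]
    exact hr3
  have hne0 : ∀ ξ : ℝ × ℝ, r ≤ ‖ξ‖ → ξ ≠ 0 := by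
    intro ξ hξ h0
    rw [h0, norm_zero] at hξ
    linarith
  -- the closed sets of the space
  set JO := closure (Jn (Om θ t) (ht b) (ht b s) p) with hJO
  set NO := closure (Nj (Om θ t) (ht b) (ht b s) p) with hNO
  set JE := closure (Jn (Ex θ t R) (ht (-b)) (ht (-b) s) p') with hJE
  set NE := closure (Nj (Ex θ t R) (ht (-b)) (ht (-b) s) p') with hNE
  have subOm : ∀ z, z ∈ JO ∨ z ∈ NO → z ∈ closure (Om θ t) := by
    rintro z (hz | hz)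
    · exact closure_mono (fun y hy => hy.1.1) hz
    · exact closure_mono (fun y hy => hy.1.1) hz
  have subEx : ∀ z, z ∈ JE ∨ z ∈ NE → z ∈ closure (Ex θ t R) := by
    rintro z (hz | hz)
    · exact closure_mono (fun y hy => hy.1.1) hz
    · exact closure_mono (fun y hy => hy.1.1) hz
  have leOm : ∀ z, z ∈ closure (Om θ t) → θ z ≤ t := by
    intro z hz
    rcases (closure_Om h hz).1 with h1 | h1
    · exact le_of_lt h1
    · exact h1.le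
  have geEx : ∀ z, z ∈ closure (Ex θ t R) → t ≤ θ z ∧ ‖z‖ ≤ R + 1 := by
    intro z hz
    rcases closure_Ex h hz with h1 | h1 | h1
    · exact ⟨h1.1.le, h1.2.le⟩
    · exact ⟨h1.1.ge, by linarith [h1.2]⟩
    · exact ⟨h1.2.le, h1.1.le⟩
  have disO : ∀ z, inner ℝ b z = (inner ℝ b s : ℝ) → z ≠ s → z ∈ JO → z ∈ NO → False := by
    intro z hz hzs h1 h2
    have h3 := planeOm h b s z hb hd hz hzs (leOm z (subOm z (Or.inl h1)))
    have h4 := c7_ht b z s hz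
    apply adh_disj (Om θ t) (ht b) z p h3.1
    · rw [h4]; exact h1
    · rw [h4]; exact h2
  have covO : ∀ z, inner ℝ b z = (inner ℝ b s : ℝ) → z ≠ s → θ z ≤ t → z ∈ JO ∨ z ∈ NO := by
    intro z hz hzs h1
    have h3 := planeOm h b s z hb hd hz hzs h1
    have h4 := c7_ht b z s hz
    have h5 := adh_split (Om θ t) (ht b) z p h3.2
    rw [h4] at h5
    exact h5
  have disE : ∀ z, inner ℝ b z = (inner ℝ b s : ℝ) → z ≠ s → z ∈ JE → z ∈ NE → False := by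
    intro z hz hzs h1 h2
    have h0 := geEx z (subEx z (Or.inl h1))
    have h3 := planeEx h b s z hb hs hd hz hzs h0.1 h0.2
    have h4 := c7_ht' b z s hz
    apply adh_disj (Ex θ t R) (ht (-b)) z p' h3.1
    · rw [h4]; exact h1
    · rw [h4]; exact h2
  have covE : ∀ z, inner ℝ b z = (inner ℝ b s : ℝ) → z ≠ s → t ≤ θ z → ‖z‖ ≤ R + 1 → z ∈ JE ∨ z ∈ NE := by
    intro z hz hzs h1 h2
    have h3 := planeEx h b s z hb hs hd hz hzs h1 h2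
    have h4 := c7_ht' b z s hz
    have h5 := adh_split (Ex θ t R) (ht (-b)) z p' h3.2
    rw [h4] at h5
    exact h5
  -- the circle
  have circ : (∀ z, inner ℝ b z = (inner ℝ b s : ℝ) → ‖z‖ = R + 1 → z ∈ JE) ∨
      (∀ z, inner ℝ b z = (inner ℝ b s : ℝ) → ‖z‖ = R + 1 → z ∈ NE) := by
    have hC := circle_conn b hb (inner ℝ b s) (R + 1)
    rw [isPreconnected_closed_iff] at hC
    by_contra hcc
    rw [not_or] at hcc
    obtain ⟨hc1, hc2⟩ := hcc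
    push Not at hc1 hc2
    obtain ⟨z1, hz1, hz1', hz1''⟩ := hc1
    obtain ⟨z2, hz2, hz2', hz2''⟩ := hc2
    have hcov : ∀ z, inner ℝ b z = (inner ℝ b s : ℝ) → ‖z‖ = R + 1 → z ∈ JE ∨ z ∈ NE := by
      intro z hz hzR
      apply covE z hz
      · intro hzs
        rw [hzs] at hzR
        linarith
      · exact (h.far z (by linarith)).le
      · exact hzR.le
    obtain ⟨z, ⟨hz, hzR⟩, hzJ, hzN⟩ := hC JE NE isClosed_closure isClosed_closure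
      (fun z hz => hcov z hz.1 hz.2)
      ⟨z2, ⟨hz2, hz2'⟩, (hcov z2 hz2 hz2').resolve_right hz2''⟩
      ⟨z1, ⟨hz1, hz1'⟩, (hcov z1 hz1 hz1').resolve_left hz1''⟩
    apply disE z hz _ hzJ hzN
    intro hzs
    rw [hzs] at hzR
    linarith
  -- plane sets
  have clO : ∀ A : Set E3, IsClosed A → IsClosed {ξ : ℝ × ℝ | r ≤ ‖ξ‖ ∧ pt b v w s ξ 0 ∈ A} := by
    intro A hA
    exact (isClosed_le continuous_const continuous_norm).inter (hA.preimage hPc)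
  have clFar : IsClosed {ξ : ℝ × ℝ | R + 1 ≤ ‖pt b v w s ξ 0‖} := isClosed_le continuous_const hPc.norm
  have bdO : ∀ A : Set E3, (∀ z ∈ A, z ∈ closure (Om θ t)) →
      Bornology.IsBounded {ξ : ℝ × ℝ | r ≤ ‖ξ‖ ∧ pt b v w s ξ 0 ∈ A} := by
    intro A hA
    rw [isBounded_iff_forall_norm_le]
    refine ⟨(R + ‖s‖) / k, ?_⟩
    rintro ξ ⟨-, hξ⟩
    have h1 := (closure_Om h (hA _ hξ)).2
    have h2 := hk2 ξ
    have h3 : ‖pt b v w s ξ 0 - s‖ ≤ ‖pt b v w s ξ 0‖ + ‖s‖ := norm_sub_le _ _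
    rw [le_div_iff₀ hk]
    linarith [mul_comm k ‖ξ‖]
  -- boundary conditions on the inner side
  have bO0 : ∀ ξ : ℝ × ℝ, ‖ξ‖ = r → ξ.2 = 0 → pt b v w s ξ 0 ∉ closure (Om θ t) := by
    intro ξ hξ h0 hc
    have h1 : ξ = (ξ.1, 0) := Prod.ext rfl h0
    have h2 : ‖ξ‖ = |ξ.1| := by
      rw [h1, Prod.norm_def]
      simp
    have h3 : ξ.1 ≠ 0 := by
      intro h4
      rw [h2, h4, abs_zero] at hξ
      linarith
    have h5 := a1 ξ.1 h3 (by rw [← h2, hξ]; exact hr1)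
    rw [← h1] at h5
    have h6 := leOm _ hc
    linarith
  have bE0 : ∀ ξ : ℝ × ℝ, ‖ξ‖ = r → ξ.1 = 0 → pt b v w s ξ 0 ∉ closure (Ex θ t R) := by
    intro ξ hξ h0 hc
    have h1 : ξ = (0, ξ.2) := Prod.ext h0 rfl
    have h2 : ‖ξ‖ = |ξ.2| := by
      rw [h1, Prod.norm_def]
      simp
    have h3 : ξ.2 ≠ 0 := by
      intro h4
      rw [h2, h4, abs_zero] at hξ
      linarith
    have h5 := a1' ξ.2 h3 (by rw [← h2, hξ]; exact hr2)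
    have h7 := c7_swap b v w s ξ
    rw [h0] at h7
    rw [h7] at h5
    have h6 := (geEx _ hc).1
    linarith
  have nsw : ∀ ξ : ℝ × ℝ, ‖((ξ.2, ξ.1) : ℝ × ℝ)‖ = ‖ξ‖ := by
    intro ξ
    rw [Prod.norm_def, Prod.norm_def, max_comm]
  have q1 : ∀ ξ ∈ {ξ : ℝ × ℝ | r ≤ ‖ξ‖ ∧ pt b v w s ξ 0 ∈ JO}, ‖ξ‖ = r → 0 < ξ.2 := by
    rintro ξ ⟨-, hξ⟩ hr'
    rcases lt_trichotomy ξ.2 0 with h1 | h1 | h1
    · exact absurd hξ (a3 ξ (by rw [hr']; exact hr1) h1)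
    · exact absurd (subOm _ (Or.inl hξ)) (bO0 ξ hr' h1)
    · exact h1
  have q2 : ∀ ξ ∈ {ξ : ℝ × ℝ | r ≤ ‖ξ‖ ∧ pt b v w s ξ 0 ∈ NO}, ‖ξ‖ = r → ξ.2 < 0 := by
    rintro ξ ⟨-, hξ⟩ hr'
    rcases lt_trichotomy ξ.2 0 with h1 | h1 | h1
    · exact h1
    · exact absurd (subOm _ (Or.inr hξ)) (bO0 ξ hr' h1)
    · exact absurd hξ (a2 ξ (by rw [hr']; exact hr1) h1)
  have q3 : ∀ ξ : ℝ × ℝ, pt b v w s ξ 0 ∈ JE → ‖ξ‖ = r → 0 < ξ.1 := by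
    intro ξ hξ hr'
    rcases lt_trichotomy ξ.1 0 with h1 | h1 | h1
    · have h2 := a3' (ξ.2, ξ.1) (by rw [nsw, hr']; exact hr2) h1
      rw [c7_swap] at h2
      exact absurd hξ h2
    · exact absurd (subEx _ (Or.inl hξ)) (bE0 ξ hr' h1)
    · exact h1
  have q4 : ∀ ξ : ℝ × ℝ, pt b v w s ξ 0 ∈ NE → ‖ξ‖ = r → ξ.1 < 0 := by
    intro ξ hξ hr'
    rcases lt_trichotomy ξ.1 0 with h1 | h1 | h1
    · exact h1
    · exact absurd (subEx _ (Or.inr hξ)) (bE0 ξ hr' h1)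
    · have h2 := a2' (ξ.2, ξ.1) (by rw [nsw, hr']; exact hr2) h1
      rw [c7_swap] at h2
      exact absurd hξ h2
  have far : ∀ ξ : ℝ × ℝ, (R + 1 + ‖s‖) / k ≤ ‖ξ‖ → R + 1 ≤ ‖pt b v w s ξ 0‖ := by
    intro ξ hξ
    rw [div_le_iff₀ hk] at hξ
    have h2 := hk2 ξ
    have h3 : ‖pt b v w s ξ 0 - s‖ ≤ ‖pt b v w s ξ 0‖ + ‖s‖ := norm_sub_le _ _
    linarith [mul_comm k ‖ξ‖]
  have covAll : ∀ ξ : ℝ × ℝ, r ≤ ‖ξ‖ → ¬ R + 1 ≤ ‖pt b v w s ξ 0‖ →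
      pt b v w s ξ 0 ∈ JO ∨ pt b v w s ξ 0 ∈ NO ∨ pt b v w s ξ 0 ∈ JE ∨ pt b v w s ξ 0 ∈ NE := by
    intro ξ hξ hR
    rcases le_total (θ (pt b v w s ξ 0)) t with h1 | h1
    · rcases covO _ (hPin ξ) (hPne ξ (hne0 ξ hξ)) h1 with h2 | h2
      · exact Or.inl h2
      · exact Or.inr (Or.inl h2)
    · rcases covE _ (hPin ξ) (hPne ξ (hne0 ξ hξ)) h1 (by linarith [not_le.1 hR]) with h2 | h2
      · exact Or.inr (Or.inr (Or.inl h2))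
      · exact Or.inr (Or.inr (Or.inr h2))
  have dF : Disjoint {ξ : ℝ × ℝ | r ≤ ‖ξ‖ ∧ pt b v w s ξ 0 ∈ JO} {ξ : ℝ × ℝ | r ≤ ‖ξ‖ ∧ pt b v w s ξ 0 ∈ NO} := by
    rw [Set.disjoint_left]
    rintro ξ ⟨h1, h2⟩ ⟨-, h3⟩
    exact disO _ (hPin ξ) (hPne ξ (hne0 ξ h1)) h2 h3
  have hbO1 := bdO JO (fun z hz => subOm z (Or.inl hz))
  have hbO2 := bdO NO (fun z hz => subOm z (Or.inr hz))
  rcases circ with hC | hC
  · refine hex r hrpos {ξ : ℝ × ℝ | r ≤ ‖ξ‖ ∧ pt b v w s ξ 0 ∈ JO} {ξ : ℝ × ℝ | r ≤ ‖ξ‖ ∧ pt b v w s ξ 0 ∈ NO}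
      ({ξ : ℝ × ℝ | r ≤ ‖ξ‖ ∧ pt b v w s ξ 0 ∈ JE} ∪ {ξ : ℝ × ℝ | R + 1 ≤ ‖pt b v w s ξ 0‖})
      {ξ : ℝ × ℝ | r ≤ ‖ξ‖ ∧ pt b v w s ξ 0 ∈ NE} (clO _ isClosed_closure) (clO _ isClosed_closure)
      ((clO _ isClosed_closure).union clFar) (clO _ isClosed_closure) hbO1 hbO2 dF ?_ ?_ q1 q2 ?_ ?_ ?_
    · rw [Set.disjoint_left]
      rintro ξ (⟨h1, h2⟩ | h2) ⟨h3, h4⟩
      · exact disE _ (hPin ξ) (hPne ξ (hne0 ξ h1)) h2 h4
      · have h5 := (geEx _ (subEx _ (Or.inr h4))).2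
        exact disE _ (hPin ξ) (hPne ξ (hne0 ξ h3)) (hC _ (hPin ξ) (le_antisymm h5 h2)) h4
    · intro ξ hξ
      by_cases hR : R + 1 ≤ ‖pt b v w s ξ 0‖
      · exact Or.inr (Or.inr (Or.inl (Or.inr hR)))
      · rcases covAll ξ hξ hR with h1 | h1 | h1 | h1
        · exact Or.inl ⟨hξ, h1⟩
        · exact Or.inr (Or.inl ⟨hξ, h1⟩)
        · exact Or.inr (Or.inr (Or.inl (Or.inl ⟨hξ, h1⟩)))
        · exact Or.inr (Or.inr (Or.inr ⟨hξ, h1⟩))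
    · rintro ξ (⟨-, h2⟩ | h2) hr'
      · exact q3 ξ h2 hr'
      · exact absurd (hrR ξ hr') (not_lt.2 h2)
    · rintro ξ ⟨-, h2⟩ hr'
      exact q4 ξ h2 hr'
    · exact ⟨(R + 1 + ‖s‖) / k, Or.inl fun ξ hξ => Or.inr (far ξ hξ)⟩
  · refine hex r hrpos {ξ : ℝ × ℝ | r ≤ ‖ξ‖ ∧ pt b v w s ξ 0 ∈ JO} {ξ : ℝ × ℝ | r ≤ ‖ξ‖ ∧ pt b v w s ξ 0 ∈ NO}
      {ξ : ℝ × ℝ | r ≤ ‖ξ‖ ∧ pt b v w s ξ 0 ∈ JE}
      ({ξ : ℝ × ℝ | r ≤ ‖ξ‖ ∧ pt b v w s ξ 0 ∈ NE} ∪ {ξ : ℝ × ℝ | R + 1 ≤ ‖pt b v w s ξ 0‖})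
      (clO _ isClosed_closure) (clO _ isClosed_closure)
      (clO _ isClosed_closure) ((clO _ isClosed_closure).union clFar) hbO1 hbO2 dF ?_ ?_ q1 q2 ?_ ?_ ?_
    · rw [Set.disjoint_left]
      rintro ξ ⟨h1, h2⟩ (⟨h3, h4⟩ | h4)
      · exact disE _ (hPin ξ) (hPne ξ (hne0 ξ h1)) h2 h4
      · have h5 := (geEx _ (subEx _ (Or.inl h2))).2
        exact disE _ (hPin ξ) (hPne ξ (hne0 ξ h1)) h2 (hC _ (hPin ξ) (le_antisymm h5 h4))
    · intro ξ hξ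
      by_cases hR : R + 1 ≤ ‖pt b v w s ξ 0‖
      · exact Or.inr (Or.inr (Or.inr (Or.inr hR)))
      · rcases covAll ξ hξ hR with h1 | h1 | h1 | h1
        · exact Or.inl ⟨hξ, h1⟩
        · exact Or.inr (Or.inl ⟨hξ, h1⟩)
        · exact Or.inr (Or.inr (Or.inl ⟨hξ, h1⟩))
        · exact Or.inr (Or.inr (Or.inr (Or.inl ⟨hξ, h1⟩)))
    · rintro ξ ⟨-, h2⟩ hr'
      exact q3 ξ h2 hr'
    · rintro ξ (⟨-, h2⟩ | h2) hr'
      · exact q4 ξ h2 hr'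
      · exact absurd (hrR ξ hr') (not_lt.2 h2)
    · exact ⟨(R + 1 + ‖s‖) / k, Or.inr fun ξ hξ => Or.inr (far ξ hξ)⟩

end H48U
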