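import Pool.Agent.Lib.H48U.C3

set_option autoImplicit false

/-! # H48U, chunk D1 (M): both sides are path connected

PROOF. An open preconnected set of `E3` is path connected (`IsOpen.isConnected_iff_isPathConnected`). For `Ex`: the set
`{θ ≤ t}` is contained in `ball 0 R`. `{t < θ}` is path connected. The map `π x = x` if `‖x‖ ≤ R`, `π x = (R / ‖x‖) x`
otherwise, i.e. `(R / max R ‖x‖) • x`, is continuous, maps `{t < θ}` into `{t < θ} ∩ {‖x‖ ≤ R} ⊆ Ex` (`Lev.far`). So two
points of `Ex` of norm `≤ R` are joined in `Ex` by the image of a path; a point of `Ex` with `R < ‖x‖ < R + 1` is joined by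
the radial segment with `π x` (norms between `R` and `‖x‖`, so in `Ex`). -/

open Set Filter Topology Metric

namespace H48U

open Pool.Agent.Lib.PenroseSph (E3)

variable {θ : E3 → ℝ} {t R : ℝ}

theorem joined_Om (h : Lev θ t R) : ∀ y ∈ Om θ t, ∀ z ∈ Om θ t, JoinedIn (Om θ t) y z := by
  intro y hy z hz
  have hO : IsOpen (Om θ t) := isOpen_lt h.cont continuous_const
  exact (hO.isConnected_iff_isPathConnected.1 ⟨⟨y, hy⟩, h.connIn⟩).joinedIn y hy z hz

/-- The radial retraction onto the closed ball of radius `R`. -/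
noncomputable def d1ret (R : ℝ) (x : E3) : E3 := (R / max R ‖x‖) • x

theorem d1ret_cont {R : ℝ} (hR : 0 < R) : Continuous (d1ret R) := by
  unfold d1ret
  refine Continuous.smul (continuous_const.div (continuous_const.max continuous_norm) ?_) continuous_id
  intro x
  have : 0 < max R ‖x‖ := lt_of_lt_of_le hR (le_max_left _ _)
  exact this.ne'

theorem d1ret_small {R : ℝ} (hR : 0 < R) {x : E3} (hx : ‖x‖ ≤ R) : d1ret R x = x := by
  unfold d1ret
  rw [max_eq_left hx, div_self hR.ne', one_smul]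

theorem d1ret_big {R : ℝ} (hR : 0 < R) {x : E3} (hx : R < ‖x‖) : ‖d1ret R x‖ = R := by
  unfold d1ret
  have hx0 : 0 < ‖x‖ := hR.trans hx
  rw [max_eq_right hx.le, norm_smul, Real.norm_of_nonneg (by positivity), div_mul_cancel₀ _ hx0.ne']

theorem d1ret_Ex (h : Lev θ t R) {x : E3} (hx : t < θ x) : d1ret R x ∈ Ex θ t R := by
  rcases le_or_gt ‖x‖ R with h1 | h1
  · rw [d1ret_small h.pos h1]
    exact ⟨hx, by linarith⟩
  · have h2 := d1ret_big h.pos h1
    exact ⟨h.far _ h2.ge, by linarith⟩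

theorem d1ret_join (h : Lev θ t R) {x : E3} (hx : x ∈ Ex θ t R) : JoinedIn (Ex θ t R) x (d1ret R x) := by
  rcases le_or_gt ‖x‖ R with h1 | h1
  · rw [d1ret_small h.pos h1]
    exact JoinedIn.refl hx
  · have hx0 : 0 < ‖x‖ := h.pos.trans h1
    refine JoinedIn.of_segment_subset ?_
    rintro z ⟨a, b, ha, hb, hab, rfl⟩
    have e : a • x + b • d1ret R x = (a + b * (R / ‖x‖)) • x := by
      unfold d1ret
      rw [max_eq_right h1.le, smul_smul, add_smul]
    have hc : 0 ≤ a + b * (R / ‖x‖) := add_nonneg ha (mul_nonneg hb (div_nonneg h.pos.le hx0.le))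
    have hn : ‖a • x + b • d1ret R x‖ = a * ‖x‖ + b * R := by
      rw [e, norm_smul, Real.norm_of_nonneg hc, add_mul, mul_assoc, div_mul_cancel₀ _ hx0.ne']
    have h2 : R ≤ ‖a • x + b • d1ret R x‖ := by
      rw [hn]
      have hb1 : b = 1 - a := by linarith
      rw [hb1]
      nlinarith
    have h3 : ‖a • x + b • d1ret R x‖ ≤ ‖x‖ := by
      rw [hn]
      have ha1 : a = 1 - b := by linarith
      rw [ha1]
      nlinarith
    exact ⟨h.far _ h2, lt_of_le_of_lt h3 hx.2⟩

theorem joined_Ex (h : Lev θ t R) : ∀ y ∈ Ex θ t R, ∀ z ∈ Ex θ t R, JoinedIn (Ex θ t R) y z := by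
  intro y hy z hz
  have hO : IsOpen {x : E3 | t < θ x} := isOpen_lt continuous_const h.cont
  have h1 : JoinedIn {x : E3 | t < θ x} y z :=
    (hO.isConnected_iff_isPathConnected.1 ⟨⟨y, hy.1⟩, h.connOut⟩).joinedIn y hy.1 z hz.1
  have h2 : JoinedIn (Ex θ t R) (d1ret R y) (d1ret R z) := by
    refine (h1.map (d1ret_cont h.pos)).mono ?_
    rintro _ ⟨x, hx, rfl⟩
    exact d1ret_Ex h hx
  exact (d1ret_join h hy).trans (h2.trans (d1ret_join h hz).symm)

end H48U
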