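import Pool.Agent.Lib.H48U.A6
import Pool.Agent.Lib.H48U.B11
import Pool.Agent.Lib.H48U.B12
import Pool.Agent.Lib.H48U.C7
import Pool.Agent.Lib.H48U.D1

set_option autoImplicit false

/-! # H48U, chunk D2 (M): the signed number of points with a given normal is at most one

PROOF. Let `C` be the set of critical points of the level, `C = P ∪ N`. `M1 = P.filter (PosT θ b)`,
`M2 = P.filter (NegT θ b)`; `P ⊆ M1 ∪ M2`. `D1 = N.filter (¬ Good (Om θ t) (ht b))`,
`D2 = N.filter (¬ Good (Ex θ t R) (ht (-b)))`; by `no_double` they are disjoint, so `D1.card + D2.card ≤ N.card`.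
`count` for `Om`: the bottoms are exactly `M1` (`interior_pt`; on the level: `good_noncrit`, `bottom_pos`, `good_neg`,
`two_ind`; PosT, NegT, IndT exclude each other since there are nonzero vectors orthogonal to `b`, `plane_basis`; use
`locOm` and `C4`), all points of `closure Om` outside `D1` are good, `Loc0` by `interior_pt`, `loc0_bdry`; `Two` by
`two_ind`. So `M1.card ≤ D1.card + 1`. `count` for `Ex` with `ht (-b)`: the bottoms are `M2 ∪ {-((R+1)/‖b‖) b}`
(`locEx`, `C4`, `locSph`, `critSph`, `posSph`), a disjoint union since the norm of the last point is `R + 1`; so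
`M2.card + 1 ≤ D2.card + 1`. -/

open Set Filter Topology Metric

namespace H48U

open Pool.Agent.Lib.PenroseSph (E3)

variable {θ : E3 → ℝ} {t R : ℝ}

theorem d2_cont (b : E3) : Continuous (ht b) := by
  unfold ht
  fun_prop

theorem d2_norm_lt (h : Lev θ t R) {x : E3} (hx : θ x = t) : ‖x‖ < R := by
  by_contra hc
  have h1 := h.far x (not_lt.1 hc)
  linarith

theorem signed_le (h : Lev θ t R) (b : E3) (hb : b ≠ 0) (P N : Finset E3)
    (hPN : ∀ x, θ x = t → Crit θ b x → x ∈ P ∨ x ∈ N)
    (hP : ∀ x ∈ P, θ x = t ∧ Crit θ b x ∧ (PosT θ b x ∨ NegT θ b x))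
    (hN : ∀ x ∈ N, θ x = t ∧ Crit θ b x ∧ IndT θ b x)
    (hd : ∀ x x', θ x = t → θ x' = t → Crit θ b x → Crit θ b x' → inner ℝ b x = (inner ℝ b x' : ℝ) → x = x') :
    P.card ≤ N.card + 1 := by
  classical
  have hnb : -b ≠ 0 := neg_ne_zero.2 hb
  have hc1 : IsCompact (closure (Om θ t)) := by
    apply Metric.isCompact_of_isClosed_isBounded isClosed_closure
    rw [isBounded_iff_forall_norm_le]
    exact ⟨R, fun x hx => (closure_Om h hx).2.le⟩
  have hc2 : IsCompact (closure (Ex θ t R)) := by
    apply Metric.isCompact_of_isClosed_isBounded isClosed_closure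
    rw [isBounded_iff_forall_norm_le]
    refine ⟨R + 1, fun x hx => ?_⟩
    rcases closure_Ex h hx with h1 | h1 | h1
    · exact h1.2.le
    · linarith [h1.2]
    · exact h1.1.le
  set xi : E3 := (-((R + 1) / ‖b‖)) • b with hxi
  have hbn : 0 < ‖b‖ := norm_pos_iff.2 hb
  have hR1 : 0 < R + 1 := by linarith [h.pos]
  have hxin : ‖xi‖ = R + 1 := by
    rw [hxi, norm_smul, norm_neg, Real.norm_eq_abs, abs_of_pos (div_pos hR1 hbn)]
    field_simp
  have hxit : t < θ xi := h.far xi (by linarith)
  -- facts for critical points of the level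
  have A1 : ∀ x, θ x = t → Crit θ b x → Crit (fun y => θ y - t) b x := fun x _ hx => (crit_sub θ t b x).2 hx
  have A2 : ∀ x, θ x = t → Crit θ b x → Crit (fun y => t - θ y) (-b) x := fun x _ hx => (crit_rsub θ t b x).2 hx
  have B1 : P.card ≤ (P.filter (fun x => PosT θ b x)).card + (P.filter (fun x => NegT θ b x)).card := by
    have h1 : P ⊆ P.filter (fun x => PosT θ b x) ∪ P.filter (fun x => NegT θ b x) := by
      intro x hx
      rw [Finset.mem_union, Finset.mem_filter, Finset.mem_filter]
      rcases (hP x hx).2.2 with h2 | h2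
      · exact Or.inl ⟨hx, h2⟩
      · exact Or.inr ⟨hx, h2⟩
    exact (Finset.card_le_card h1).trans (Finset.card_union_le _ _)
  have B2 : (N.filter (fun x => ¬ Good (Om θ t) (ht b) x)).card +
      (N.filter (fun x => ¬ Good (Ex θ t R) (ht (-b)) x)).card ≤ N.card := by
    have h1 : Disjoint (N.filter (fun x => ¬ Good (Om θ t) (ht b) x))
        (N.filter (fun x => ¬ Good (Ex θ t R) (ht (-b)) x)) := by
      rw [Finset.disjoint_left]
      intro x hx1 hx2
      rw [Finset.mem_filter] at hx1 hx2
      obtain ⟨h2, h3, h4⟩ := hN x hx1.1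
      rcases no_double h b x hb h2 h3 h4 (fun y hy1 hy2 hy3 => hd y x hy1 h2 hy2 h3 hy3) with h5 | h5
      · exact hx1.2 h5
      · exact hx2.2 h5
    rw [← Finset.card_union_of_disjoint h1]
    exact Finset.card_le_card (Finset.union_subset (Finset.filter_subset _ _) (Finset.filter_subset _ _))
  -- the inner side
  have C1 : (P.filter (fun x => PosT θ b x)).card ≤ (N.filter (fun x => ¬ Good (Om θ t) (ht b) x)).card + 1 := by
    refine count (Om θ t) (joined_Om h) hc1 (ht b) (d2_cont b) ?_ _ _ ?_ ?_ ?_
    · intro x hx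
      rcases (closure_Om h hx).1 with h1 | h1
      · exact (interior_pt _ (isOpen_Om h) x b h1 hb).1
      · exact loc0_bdry _ _ x b (locOm h h1)
    · intro x
      rw [Finset.mem_filter]
      constructor
      · rintro ⟨h1, h2⟩
        obtain ⟨h3, h4, -⟩ := hP x h1
        exact (bottom_pos _ _ x b hb (locOm h h3) (A1 x h3 h4) ((pos_sub θ t b x).2 h2)).1
      · intro hB
        rcases (closure_Om h hB.1).1 with h1 | h1
        · exact absurd hB (interior_pt _ (isOpen_Om h) x b h1 hb).2.2.2
        · by_cases hcr : Crit θ b x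
          · rcases hPN x h1 hcr with h2 | h2
            · rcases (hP x h2).2.2 with h3 | h3
              · exact ⟨h2, h3⟩
              · exact absurd hB (good_neg _ _ x b hb (locOm h h1) (A1 x h1 hcr) ((neg_sub θ t b x).2 h3)).2.2
            · exact absurd hB (two_ind _ _ x b hb (locOm h h1) (A1 x h1 hcr)
                ((ind_sub θ t b x).2 (hN x h2).2.2)).2
          · exact absurd hB (good_noncrit _ _ x b hb (locOm h h1) (fun hc => hcr ((crit_sub θ t b x).1 hc))).2.2
    · intro x hx hxD
      rcases (closure_Om h hx).1 with h1 | h1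
      · exact (interior_pt _ (isOpen_Om h) x b h1 hb).2.1
      · by_cases hcr : Crit θ b x
        · rcases hPN x h1 hcr with h2 | h2
          · rcases (hP x h2).2.2 with h3 | h3
            · exact (bottom_pos _ _ x b hb (locOm h h1) (A1 x h1 hcr) ((pos_sub θ t b x).2 h3)).2
            · exact (good_neg _ _ x b hb (locOm h h1) (A1 x h1 hcr) ((neg_sub θ t b x).2 h3)).1
          · by_contra hg
            exact hxD (Finset.mem_filter.2 ⟨h2, hg⟩)
        · exact (good_noncrit _ _ x b hb (locOm h h1) (fun hc => hcr ((crit_sub θ t b x).1 hc))).1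
    · intro x hx
      rw [Finset.mem_filter] at hx
      obtain ⟨h2, h3, h4⟩ := hN x hx.1
      exact (two_ind _ _ x b hb (locOm h h2) (A1 x h2 h3) ((ind_sub θ t b x).2 h4)).1
  -- the outer side
  have C2 : (insert xi (P.filter (fun x => NegT θ b x))).card ≤
      (N.filter (fun x => ¬ Good (Ex θ t R) (ht (-b)) x)).card + 1 := by
    refine count (Ex θ t R) (joined_Ex h) hc2 (ht (-b)) (d2_cont (-b)) ?_ _ _ ?_ ?_ ?_
    · intro x hx
      rcases closure_Ex h hx with h1 | h1 | h1
      · exact (interior_pt _ (isOpen_Ex h) x (-b) h1 hnb).1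
      · exact loc0_bdry _ _ x (-b) (locEx h h1.1)
      · exact loc0_bdry _ _ x (-b) (locSph h h1.1)
    · intro x
      rw [Finset.mem_insert, Finset.mem_filter]
      constructor
      · rintro (h1 | ⟨h1, h2⟩)
        · have h3 : ‖x‖ = R + 1 := by rw [h1]; exact hxin
          exact (bottom_pos _ _ x (-b) hnb (locSph h h3) ((critSph h hb h3).2 h1) (posSph h)).1
        · obtain ⟨h3, h4, -⟩ := hP x h1
          exact (bottom_pos _ _ x (-b) hnb (locEx h h3) (A2 x h3 h4) ((pos_rsub θ t b x).2 h2)).1
      · intro hB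
        rcases closure_Ex h hB.1 with h1 | h1 | h1
        · exact absurd hB (interior_pt _ (isOpen_Ex h) x (-b) h1 hnb).2.2.2
        · by_cases hcr : Crit θ b x
          · rcases hPN x h1.1 hcr with h2 | h2
            · rcases (hP x h2).2.2 with h3 | h3
              · exact absurd hB (good_neg _ _ x (-b) hnb (locEx h h1.1) (A2 x h1.1 hcr)
                  ((neg_rsub θ t b x).2 h3)).2.2
              · exact Or.inr ⟨h2, h3⟩
            · exact absurd hB (two_ind _ _ x (-b) hnb (locEx h h1.1) (A2 x h1.1 hcr)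
                ((ind_rsub θ t b x).2 (hN x h2).2.2)).2
          · exact absurd hB (good_noncrit _ _ x (-b) hnb (locEx h h1.1)
              (fun hc => hcr ((crit_rsub θ t b x).1 hc))).2.2
        · by_cases hcr : Crit (fun y : E3 => ‖y‖ ^ 2 - (R + 1) ^ 2) (-b) x
          · exact Or.inl ((critSph h hb h1.1).1 hcr)
          · exact absurd hB (good_noncrit _ _ x (-b) hnb (locSph h h1.1) hcr).2.2
    · intro x hx hxD
      rcases closure_Ex h hx with h1 | h1 | h1
      · exact (interior_pt _ (isOpen_Ex h) x (-b) h1 hnb).2.1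
      · by_cases hcr : Crit θ b x
        · rcases hPN x h1.1 hcr with h2 | h2
          · rcases (hP x h2).2.2 with h3 | h3
            · exact (good_neg _ _ x (-b) hnb (locEx h h1.1) (A2 x h1.1 hcr) ((neg_rsub θ t b x).2 h3)).1
            · exact (bottom_pos _ _ x (-b) hnb (locEx h h1.1) (A2 x h1.1 hcr) ((pos_rsub θ t b x).2 h3)).2
          · by_contra hg
            exact hxD (Finset.mem_filter.2 ⟨h2, hg⟩)
        · exact (good_noncrit _ _ x (-b) hnb (locEx h h1.1) (fun hc => hcr ((crit_rsub θ t b x).1 hc))).1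
      · by_cases hcr : Crit (fun y : E3 => ‖y‖ ^ 2 - (R + 1) ^ 2) (-b) x
        · exact (bottom_pos _ _ x (-b) hnb (locSph h h1.1) hcr (posSph h)).2
        · exact (good_noncrit _ _ x (-b) hnb (locSph h h1.1) hcr).1
    · intro x hx
      rw [Finset.mem_filter] at hx
      obtain ⟨h2, h3, h4⟩ := hN x hx.1
      exact (two_ind _ _ x (-b) hnb (locEx h h2) (A2 x h2 h3) ((ind_rsub θ t b x).2 h4)).1
  have C3 : xi ∉ P.filter (fun x => NegT θ b x) := by
    intro h1
    rw [Finset.mem_filter] at h1
    have h2 := (hP xi h1.1).1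
    linarith
  rw [Finset.card_insert_of_notMem C3] at C2
  omega

end H48U
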