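import Pool.Agent.Lib.PenroseSph.Defs
import Pool.Agent.Lib.H44G.Defs

set_option autoImplicit false

/-!
# H48U: definitions

The signed number of points of a level surface with a given normal is at most one, if both sides of the surface are
connected; with the area formula this gives the Gauss-Bonnet inequality for almost every level of a smooth function.
-/

open Set Filter Topology MeasureTheory Metric
open scoped ContDiff

namespace H48U

open Pool.Agent.Lib.PenroseSph (E3 pd)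

/-! ## the density -/

/-- The gradient as a vector of `E3`. -/
noncomputable def grad (θ : E3 → ℝ) (x : E3) : E3 := WithLp.toLp 2 fun i => pd i θ x

/-- The map `ρ(θ) ∇θ / |∇θ|` with `ρ² ρ' = 1`, `ρ(c) = 1`. -/
noncomputable def fm (θ : E3 → ℝ) (c : ℝ) (x : E3) : E3 :=
  ((3 * (θ x - c) + 1) ^ (1 / 3 : ℝ) * ‖grad θ x‖⁻¹) • grad θ x

/-! ## sublevel sets of a domain -/

section top

variable {X : Type*} [TopologicalSpace X]

/-- The part of `Ω` where `h < c`. -/
def sub (Ω : Set X) (h : X → ℝ) (c : ℝ) : Set X := {y | y ∈ Ω ∧ h y < c}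

/-- All points of `Ω` near `x` and below the level of `x` can be joined below the level of `x`. -/
def Good (Ω : Set X) (h : X → ℝ) (x : X) : Prop :=
  ∃ U ∈ 𝓝 x, ∀ y ∈ U ∩ sub Ω h (h x), ∀ z ∈ U ∩ sub Ω h (h x), JoinedIn (sub Ω h (h x)) y z

/-- `x` is a local minimum of `h` on the closure of `Ω`. -/
def Bottom (Ω : Set X) (h : X → ℝ) (x : X) : Prop := x ∈ closure Ω ∧ ∃ U ∈ 𝓝 x, U ∩ sub Ω h (h x) = ∅

/-- All points of `Ω` near `x` can be joined below each level above the level of `x`. -/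
def Loc0 (Ω : Set X) (h : X → ℝ) (x : X) : Prop :=
  ∀ c, h x < c → ∃ U ∈ 𝓝 x, ∀ y ∈ U ∩ Ω, ∀ z ∈ U ∩ Ω, JoinedIn (sub Ω h c) y z

/-- The points of `Ω` near `x` and below the level of `x` belong to at most two components. -/
def Two (Ω : Set X) (h : X → ℝ) (x : X) : Prop :=
  ∃ U ∈ 𝓝 x, ∃ p q, ∀ y ∈ U ∩ sub Ω h (h x), JoinedIn (sub Ω h (h x)) y p ∨ JoinedIn (sub Ω h (h x)) y q

/-- The component of `y` below the level `c` is adherent to `m`. -/
def Reach (Ω : Set X) (h : X → ℝ) (c : ℝ) (y m : X) : Prop :=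
  h m < c ∧ ∀ U ∈ 𝓝 m, ∃ z ∈ U, JoinedIn (sub Ω h c) y z

end top

/-! ## local geometry -/

/-- The height with gradient `-b`. -/
noncomputable def ht (b : E3) (x : E3) : ℝ := - inner ℝ b x

/-- `b` is a positive multiple of the gradient of `φ` at `x`. -/
def Crit (φ : E3 → ℝ) (b x : E3) : Prop := ∃ l : ℝ, 0 < l ∧ ∀ v, fderiv ℝ φ x v = l * inner ℝ b v

/-- The second derivative. -/
noncomputable def D2 (φ : E3 → ℝ) (x v w : E3) : ℝ := fderiv ℝ (fderiv ℝ φ) x v w

/-- The second derivative is positive on the plane orthogonal to `b`. -/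
def PosT (φ : E3 → ℝ) (b x : E3) : Prop := ∀ v : E3, inner ℝ b v = 0 → v ≠ 0 → 0 < D2 φ x v v

/-- The second derivative is negative on the plane orthogonal to `b`. -/
def NegT (φ : E3 → ℝ) (b x : E3) : Prop := ∀ v : E3, inner ℝ b v = 0 → v ≠ 0 → D2 φ x v v < 0

/-- The second derivative is indefinite on the plane orthogonal to `b`. -/
def IndT (φ : E3 → ℝ) (b x : E3) : Prop :=
  ∃ v w : E3, inner ℝ b v = 0 ∧ inner ℝ b w = 0 ∧ 0 < D2 φ x v v ∧ D2 φ x w w < 0

/-- Near `x` the set `Ω` is `{φ < 0}`, `φ` is of class `C²` with `φ x = 0` and nonzero differential. -/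
def IsLoc (Ω : Set E3) (φ : E3 → ℝ) (x : E3) : Prop :=
  ContDiffAt ℝ 2 φ x ∧ φ x = 0 ∧ fderiv ℝ φ x ≠ 0 ∧ ∀ᶠ y in 𝓝 x, (y ∈ Ω ↔ φ y < 0)

/-- The point with plane coordinates `ξ` and depth `s`. -/
def pt (b v w x : E3) (ξ : ℝ × ℝ) (s : ℝ) : E3 := x + ξ.1 • v + ξ.2 • w + s • b

/-- Near `x` the function `φ` increases with the depth and `Ω` is `{φ < 0}`. -/
def Vert (Ω : Set E3) (φ : E3 → ℝ) (b v w x : E3) (r : ℝ) : Prop :=
  0 < r ∧ ∀ ξ : ℝ × ℝ, ‖ξ‖ < r →
    (∀ s s' : ℝ, -r < s → s < s' → s' < r → φ (pt b v w x ξ s) < φ (pt b v w x ξ s')) ∧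
    ∀ s : ℝ, |s| < r → ContinuousAt φ (pt b v w x ξ s) ∧ (pt b v w x ξ s ∈ Ω ↔ φ (pt b v w x ξ s) < 0)

/-! ## the two sides of a level -/

/-- The inner side. -/
def Om (θ : E3 → ℝ) (t : ℝ) : Set E3 := {x | θ x < t}

/-- The outer side in a large ball. -/
def Ex (θ : E3 → ℝ) (t R : ℝ) : Set E3 := {x | t < θ x ∧ ‖x‖ < R + 1}

/-- A regular level of a continuous function whose two sides are connected. -/
structure Lev (θ : E3 → ℝ) (t R : ℝ) : Prop where
  cont : Continuous θ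
  pos : 0 < R
  far : ∀ x : E3, R ≤ ‖x‖ → t < θ x
  reg : ∀ x : E3, θ x = t → ContDiffAt ℝ 2 θ x ∧ fderiv ℝ θ x ≠ 0
  connIn : IsPreconnected (Om θ t)
  connOut : IsPreconnected {x : E3 | t < θ x}

/-- The points of `sub Ω h c` which are joined with `p`. -/
def Jn {X : Type*} [TopologicalSpace X] (Ω : Set X) (h : X → ℝ) (c : ℝ) (p : X) : Set X :=
  {y | y ∈ sub Ω h c ∧ JoinedIn (sub Ω h c) y p}

/-- The points of `sub Ω h c` which are not joined with `p`. -/
def Nj {X : Type*} [TopologicalSpace X] (Ω : Set X) (h : X → ℝ) (c : ℝ) (p : X) : Set X :=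
  {y | y ∈ sub Ω h c ∧ ¬ JoinedIn (sub Ω h c) y p}

end H48U
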