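import Pool.Agent.Lib.H48U.Defs

set_option autoImplicit false

/-! # H48U, chunk E1 (M): the area formula with multiplicity

PROOF. By the inverse function theorem (`ContDiffAt.toOpenPartialHomeomorph` or `HasStrictFDerivAt`) every `x ∈ W` has an
open neighbourhood `U ⊆ W` on which `F` is injective; `W` is Lindelöf (second countable), so countably many cover it;
disjointing (`disjointed`) gives measurable disjoint `W_n` with union `W`, `F` injective on `W_n`. On each piece
`lintegral_image_eq_lintegral_abs_det_fderiv_mul` gives `∫⁻ y in F '' W_n, g y = ∫⁻ x in W_n, |det| g (F x)`. Sum: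
`lintegral_iUnion`, `lintegral_tsum`; `∑' n, indicator (F '' W_n) 1 y` is the number of points of the fibre (each point of the fibre
is in exactly one `W_n`). `F '' W_n` is measurable (`MeasurableSet.image_of_continuousOn_injOn`). -/

open Set Filter Topology MeasureTheory Metric
open scoped ContDiff ENNReal

namespace H48U

open Pool.Agent.Lib.PenroseSph (E3)

theorem e1_loc (W : Set E3) (hW : IsOpen W) (F : E3 → E3) (hF : ContDiffOn ℝ 1 F W) (x : E3) (hx : x ∈ W)
    (hd : (fderiv ℝ F x).det ≠ 0) : ∃ U : Set E3, IsOpen U ∧ x ∈ U ∧ U ⊆ W ∧ InjOn F U := by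
  have h1 : ContDiffAt ℝ 1 F x := hF.contDiffAt (hW.mem_nhds hx)
  have h2 : HasStrictFDerivAt F (fderiv ℝ F x) x := h1.hasStrictFDerivAt (by norm_num)
  have h3 : HasStrictFDerivAt F
      (((fderiv ℝ F x).toContinuousLinearEquivOfDetNeZero hd : E3 ≃L[ℝ] E3) : E3 →L[ℝ] E3) x := by
    rw [ContinuousLinearMap.coe_toContinuousLinearEquivOfDetNeZero]
    exact h2
  refine ⟨(h3.toOpenPartialHomeomorph F).source ∩ W, (h3.toOpenPartialHomeomorph F).open_source.inter hW,
    ⟨h3.mem_toOpenPartialHomeomorph_source, hx⟩, inter_subset_right, ?_⟩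
  have h4 := (h3.toOpenPartialHomeomorph F).injOn
  intro a ha b hb hab
  exact h4 ha.1 hb.1 (by simpa using hab)

/-- A countable measurable partition into pieces of injectivity. -/
theorem partition (W : Set E3) (hW : IsOpen W) (F : E3 → E3) (hF : ContDiffOn ℝ 1 F W)
    (hd : ∀ x ∈ W, (fderiv ℝ F x).det ≠ 0) :
    ∃ Q : ℕ → Set E3, (∀ n, MeasurableSet (Q n)) ∧ (∀ n, InjOn F (Q n)) ∧ Pairwise (Function.onFun Disjoint Q) ∧
      ⋃ n, Q n = W := by
  classical
  have h1 : ∀ x : E3, ∃ U : Set E3, x ∈ W → (IsOpen U ∧ x ∈ U ∧ U ⊆ W ∧ InjOn F U) := by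
    intro x
    by_cases hx : x ∈ W
    · obtain ⟨U, hU⟩ := e1_loc W hW F hF x hx (hd x hx)
      exact ⟨U, fun _ => hU⟩
    · exact ⟨∅, fun h => absurd h hx⟩
  choose U hU using h1
  obtain ⟨t, htW, htc, hcov⟩ := TopologicalSpace.countable_cover_nhdsWithin (s := W) (f := U)
    (fun x hx => mem_nhdsWithin_of_mem_nhds ((hU x hx).1.mem_nhds (hU x hx).2.1))
  rcases t.eq_empty_or_nonempty with he | hne
  · have hWe : W = ∅ := by
      rw [he] at hcov
      simpa using hcov
    refine ⟨fun _ => ∅, fun _ => MeasurableSet.empty, fun _ => injOn_empty F, ?_, ?_⟩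
    · intro i j _
      simp [Function.onFun]
    · rw [hWe]
      simp
  · obtain ⟨f, hf⟩ := htc.exists_eq_range hne
    have hft : ∀ n, f n ∈ t := fun n => by rw [hf]; exact mem_range_self n
    refine ⟨disjointed (fun n => U (f n)), ?_, ?_, ?_, ?_⟩
    · intro n
      exact MeasurableSet.disjointed (fun n => (hU (f n) (htW (hft n))).1.measurableSet) n
    · intro n
      exact ((hU (f n) (htW (hft n))).2.2.2).mono (disjointed_subset _ n)
    · exact disjoint_disjointed _
    · rw [iUnion_disjointed]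
      apply Subset.antisymm
      · exact iUnion_subset fun n => (hU (f n) (htW (hft n))).2.2.1
      · intro x hx
        have := hcov hx
        simp only [mem_iUnion] at this ⊢
        obtain ⟨y, hy, hxy⟩ := this
        rw [hf] at hy
        obtain ⟨n, hn⟩ := hy
        exact ⟨n, by rw [hn]; exact hxy⟩

theorem e1_count (W : Set E3) (F : E3 → E3) (Q : ℕ → Set E3) (hi : ∀ n, InjOn F (Q n))
    (hdis : Pairwise (Function.onFun Disjoint Q)) (hu : ⋃ n, Q n = W) (y : E3) :
    (({x | x ∈ W ∧ F x = y}.encard : ℕ∞) : ℝ≥0∞) = ∑' n, (F '' Q n).indicator (fun _ => (1 : ℝ≥0∞)) y := by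
  classical
  have h0 : (∑' n, (F '' Q n).indicator (fun _ => (1 : ℝ≥0∞)) y) =
      ∑' n, ({n | y ∈ F '' Q n} : Set ℕ).indicator (fun _ => (1 : ℝ≥0∞)) n := by
    apply tsum_congr
    intro n
    by_cases h : y ∈ F '' Q n
    · rw [indicator_of_mem h, indicator_of_mem (show n ∈ {n | y ∈ F '' Q n} from h)]
    · rw [indicator_of_notMem h, indicator_of_notMem (show n ∉ {n | y ∈ F '' Q n} from h)]
  rw [h0, ← tsum_subtype, ENNReal.tsum_set_one]
  congr 1
  have h1 : ∀ n : ℕ, ∃ x : E3, y ∈ F '' Q n → (x ∈ Q n ∧ F x = y) := by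
    intro n
    by_cases h : y ∈ F '' Q n
    · obtain ⟨x, hx, hxy⟩ := h
      exact ⟨x, fun _ => ⟨hx, hxy⟩⟩
    · exact ⟨0, fun h' => absurd h' h⟩
  choose p hp using h1
  have h2 : {x | x ∈ W ∧ F x = y} = p '' {n | y ∈ F '' Q n} := by
    ext x
    constructor
    · rintro ⟨hx, hxy⟩
      rw [← hu] at hx
      obtain ⟨n, hn⟩ := mem_iUnion.1 hx
      have hy : y ∈ F '' Q n := ⟨x, hn, hxy⟩
      refine ⟨n, hy, ?_⟩
      exact hi n (hp n hy).1 hn (by rw [(hp n hy).2, hxy])
    · rintro ⟨n, hn, rfl⟩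
      exact ⟨by rw [← hu]; exact mem_iUnion.2 ⟨n, (hp n hn).1⟩, (hp n hn).2⟩
  rw [h2]
  apply InjOn.encard_image
  intro a ha b hb hab
  by_contra hne
  have h3 := (hp a ha).1
  have h4 := (hp b hb).1
  rw [← hab] at h4
  exact (disjoint_left.1 (hdis hne)) h3 h4

theorem area_lintegral (W : Set E3) (hW : IsOpen W) (F : E3 → E3) (hF : ContDiffOn ℝ 1 F W)
    (hd : ∀ x ∈ W, (fderiv ℝ F x).det ≠ 0) (g : E3 → ℝ≥0∞) (hg : Measurable g) :
    Measurable (fun y : E3 => (({x | x ∈ W ∧ F x = y}.encard : ℕ∞) : ℝ≥0∞)) ∧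
    ∫⁻ x in W, g (F x) * ENNReal.ofReal |(fderiv ℝ F x).det| =
      ∫⁻ y, g y * (({x | x ∈ W ∧ F x = y}.encard : ℕ∞) : ℝ≥0∞) := by
  obtain ⟨Q, hQm, hQi, hQd, hQu⟩ := partition W hW F hF hd
  have hsub : ∀ n, Q n ⊆ W := fun n => by rw [← hQu]; exact subset_iUnion Q n
  have hm : ∀ n, MeasurableSet (F '' Q n) := fun n =>
    (hQm n).image_of_continuousOn_injOn (hF.continuousOn.mono (hsub n)) (hQi n)
  have hcount : (fun y : E3 => (({x | x ∈ W ∧ F x = y}.encard : ℕ∞) : ℝ≥0∞)) =
      fun y => ∑' n, (F '' Q n).indicator (fun _ => (1 : ℝ≥0∞)) y := by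
    funext y
    exact e1_count W F Q hQi hQd hQu y
  have hmi : ∀ n, Measurable ((F '' Q n).indicator (fun _ => (1 : ℝ≥0∞))) := fun n =>
    measurable_const.indicator (hm n)
  constructor
  · rw [hcount]
    exact Measurable.ennreal_tsum hmi
  · have hcount' : ∀ y, (({x | x ∈ W ∧ F x = y}.encard : ℕ∞) : ℝ≥0∞) =
        ∑' n, (F '' Q n).indicator (fun _ => (1 : ℝ≥0∞)) y := fun y => e1_count W F Q hQi hQd hQu y
    calc ∫⁻ x in W, g (F x) * ENNReal.ofReal |(fderiv ℝ F x).det|
        = ∫⁻ x in ⋃ n, Q n, g (F x) * ENNReal.ofReal |(fderiv ℝ F x).det| := by rw [hQu]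
      _ = ∑' n, ∫⁻ x in Q n, g (F x) * ENNReal.ofReal |(fderiv ℝ F x).det| := lintegral_iUnion hQm hQd _
      _ = ∑' n, ∫⁻ y in F '' Q n, g y := by
          apply tsum_congr
          intro n
          rw [lintegral_image_eq_lintegral_abs_det_fderiv_mul volume (hQm n) (f' := fderiv ℝ F) ?_ (hQi n) g]
          · apply lintegral_congr
            intro x
            exact mul_comm _ _
          · intro x hx
            have : DifferentiableAt ℝ F x :=
              (hF.differentiableOn (by norm_num) x (hsub n hx)).differentiableAt (hW.mem_nhds (hsub n hx))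
            exact this.hasFDerivAt.hasFDerivWithinAt
      _ = ∑' n, ∫⁻ y, g y * (F '' Q n).indicator (fun _ => (1 : ℝ≥0∞)) y := by
          apply tsum_congr
          intro n
          rw [← lintegral_indicator (hm n)]
          apply lintegral_congr
          intro y
          by_cases h : y ∈ F '' Q n
          · rw [indicator_of_mem h, indicator_of_mem h, mul_one]
          · rw [indicator_of_notMem h, indicator_of_notMem h, mul_zero]
      _ = ∫⁻ y, ∑' n, g y * (F '' Q n).indicator (fun _ => (1 : ℝ≥0∞)) y := by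
          rw [lintegral_tsum]
          intro n
          exact (hg.mul (hmi n)).aemeasurable
      _ = ∫⁻ y, g y * (({x | x ∈ W ∧ F x = y}.encard : ℕ∞) : ℝ≥0∞) := by
          apply lintegral_congr
          intro y
          rw [hcount' y, ENNReal.tsum_mul_left]

end H48U
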