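import Pool.Agent.Lib.H48U.Defs

set_option autoImplicit false

/-! # H48U, chunk E3 (M): the regular part of a zero set is null

PROOF. It is enough that every `y0` in the set has a neighbourhood `N` with `volume (N ∩ set) = 0`
(`measure_null_of_locally_null`). Let `e` be a unit vector with `fderiv ℝ w y0 e ≠ 0` and
`Ψ y = y + (w y - ⟪e, y⟫) • e`; `Ψ` is `C¹` near `y0` with invertible derivative (if `v + (w' v - ⟪e, v⟫) e = 0` then `v` is a
multiple of `e`, and `w' v = 0`), so it is a local diffeomorphism, with `C¹` inverse. It maps `{w = 0}` into the hyperplane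
`{⟪e, z⟫ = 0}`, which is null (`Measure.addHaar_submodule`), and the inverse maps null sets to null sets
(`addHaar_image_eq_zero_of_differentiableOn_of_addHaar_eq_zero`). -/

open Set Filter Topology MeasureTheory Metric
open scoped ContDiff

namespace H48U

open Pool.Agent.Lib.PenroseSph (E3)

theorem zero_null (U : Set E3) (hU : IsOpen U) (w : E3 → ℝ) (hw : ContDiffOn ℝ 1 w U) :
    volume {y : E3 | y ∈ U ∧ w y = 0 ∧ fderiv ℝ w y ≠ 0} = 0 := by
  refine measure_null_of_locally_null _ ?_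
  rintro y0 ⟨hy0, hw0, hd0⟩
  -- a vector with `L e = 1`
  set L : E3 →L[ℝ] ℝ := fderiv ℝ w y0 with hL
  obtain ⟨e0, he0⟩ : ∃ e0, L e0 ≠ 0 := by
    by_contra hcon
    push Not at hcon
    exact hd0 (ContinuousLinearMap.ext hcon)
  set e : E3 := (L e0)⁻¹ • e0 with he
  have hLe : L e = 1 := by
    rw [he, map_smul, smul_eq_mul, inv_mul_cancel₀ he0]
  -- the map
  have hwa : ContDiffAt ℝ 1 w y0 := hw.contDiffAt (hU.mem_nhds hy0)
  set Ψ : E3 → E3 := fun y => y + (w y - L y) • e with hΨ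
  have hΨc : ContDiffAt ℝ 1 Ψ y0 :=
    contDiffAt_id.add ((hwa.sub L.contDiff.contDiffAt).smul contDiffAt_const)
  have hwd : HasFDerivAt w L y0 := (hwa.differentiableAt one_ne_zero).hasFDerivAt
  have hΨd : HasFDerivAt Ψ ((ContinuousLinearEquiv.refl ℝ E3 : E3 ≃L[ℝ] E3) : E3 →L[ℝ] E3) y0 := by
    have h1 : HasFDerivAt (fun y => w y - L y) (L - L) y0 := hwd.sub L.hasFDerivAt
    have h2 := (hasFDerivAt_id y0).add (h1.smul_const e)
    refine h2.congr_fderiv ?_
    ext v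
    simp
  set ψ := hΨc.localInverse hΨd one_ne_zero with hψ
  have hψc : ContDiffAt ℝ 1 ψ (Ψ y0) := hΨc.to_localInverse hΨd one_ne_zero
  have hleft : ∀ᶠ y in 𝓝 y0, ψ (Ψ y) = y :=
    (hΨc.hasStrictFDerivAt' hΨd one_ne_zero).eventually_left_inverse
  have hdiff : ∀ᶠ z in 𝓝 (Ψ y0), DifferentiableAt ℝ ψ z := by
    have := hψc.eventually (by simp)
    exact this.mono (fun z hz => hz.differentiableAt one_ne_zero)
  have hpre : ∀ᶠ y in 𝓝 y0, DifferentiableAt ℝ ψ (Ψ y) :=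
    hΨc.continuousAt.eventually hdiff
  -- the null set
  have hker : (volume : Measure E3) ((LinearMap.ker (L : E3 →ₗ[ℝ] ℝ) : Submodule ℝ E3) : Set E3) = 0 := by
    refine Measure.addHaar_submodule _ _ ?_
    intro htop
    have : e ∈ LinearMap.ker (L : E3 →ₗ[ℝ] ℝ) := by rw [htop]; trivial
    rw [LinearMap.mem_ker] at this
    have h2 : L e = 0 := this
    rw [hLe] at h2
    exact one_ne_zero h2
  set T : Set E3 := {z | DifferentiableAt ℝ ψ z ∧ L z = 0} with hT
  have hT0 : volume T = 0 := by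
    refine measure_mono_null ?_ hker
    intro z hz
    have : L z = 0 := hz.2
    exact LinearMap.mem_ker.2 this
  have himg : volume (ψ '' T) = 0 := by
    refine addHaar_image_eq_zero_of_differentiableOn_of_addHaar_eq_zero _ ?_ hT0
    intro z hz
    exact hz.1.differentiableWithinAt
  refine ⟨{y | (y ∈ U ∧ w y = 0 ∧ fderiv ℝ w y ≠ 0) ∧ (ψ (Ψ y) = y ∧ DifferentiableAt ℝ ψ (Ψ y))},
    ?_, ?_⟩
  · have h1 : ∀ᶠ y in 𝓝[{y : E3 | y ∈ U ∧ w y = 0 ∧ fderiv ℝ w y ≠ 0}] y0,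
        (ψ (Ψ y) = y ∧ DifferentiableAt ℝ ψ (Ψ y)) :=
      (hleft.and hpre).filter_mono nhdsWithin_le_nhds
    have h2 : ∀ᶠ y in 𝓝[{y : E3 | y ∈ U ∧ w y = 0 ∧ fderiv ℝ w y ≠ 0}] y0,
        (y ∈ U ∧ w y = 0 ∧ fderiv ℝ w y ≠ 0) := eventually_mem_nhdsWithin
    exact h2.and h1
  · refine measure_mono_null ?_ himg
    rintro y ⟨⟨hyU, hwy, _⟩, hy1, hy2⟩
    refine ⟨Ψ y, ⟨hy2, ?_⟩, hy1⟩
    show L (y + (w y - L y) • e) = 0
    rw [map_add, map_smul, hLe, hwy, smul_eq_mul]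
    ring

end H48U
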