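import Pool.Agent.Lib.H48U.Defs

set_option autoImplicit false

/-! # H48U, chunk E5 (M): the map `fm`

PROOF. `grad θ x` is the gradient: `fderiv ℝ θ x v = ⟪grad θ x, v⟫` (`pd`, `EuclideanSpace.basisFun`). On `V` the gradient
is nonzero and smooth, `3 (θ x - c) + 1 > 1`, so `fm` is smooth. `‖fm x‖ = (3 (θ x - c) + 1)^(1/3)`, so
`‖fm x‖ ^ 3 = 3 (θ x - c) + 1`. `fm_perp`: `‖fm‖²` is a function of `θ` with positive derivative, so
`⟪fm x, fm'(x) v⟫ = 0` gives `fderiv θ x v = 0`, and `fm x` is a positive multiple of the gradient. -/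

open Set Filter Topology MeasureTheory Metric
open scoped ContDiff

namespace H48U

open Pool.Agent.Lib.PenroseSph (E3 pd)

/-- The open set where everything is smooth and regular. -/
def Vreg (θ : E3 → ℝ) (c d : ℝ) : Set E3 := {x | (c < θ x ∧ θ x < d) ∧ fderiv ℝ θ x ≠ 0}

theorem inner_grad (θ : E3 → ℝ) (x v : E3) : inner ℝ (grad θ x) v = fderiv ℝ θ x v := by
  have h1 : v = ∑ i, v i • (EuclideanSpace.single i (1 : ℝ) : E3) := by
    ext j
    fin_cases j <;> simp [Fin.sum_univ_three]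
  conv_rhs => rw [h1]
  rw [map_sum, PiLp.inner_apply]
  refine Finset.sum_congr rfl (fun i _ => ?_)
  rw [map_smul, smul_eq_mul]
  simp [grad, pd]

theorem norm_grad (θ : E3 → ℝ) (x : E3) : ‖grad θ x‖ = Real.sqrt (∑ i, pd i θ x ^ 2) := by
  rw [EuclideanSpace.norm_eq]
  congr 1
  refine Finset.sum_congr rfl (fun i _ => ?_)
  rw [Real.norm_eq_abs, sq_abs]
  rfl

theorem grad_ne (θ : E3 → ℝ) (x : E3) : grad θ x ≠ 0 ↔ fderiv ℝ θ x ≠ 0 := by
  rw [not_iff_not]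
  constructor
  · intro h
    ext v
    rw [← inner_grad, h, inner_zero_left]
    rfl
  · intro h
    have h1 := inner_grad θ x (grad θ x)
    rw [h] at h1
    exact (inner_self_eq_zero (𝕜 := ℝ)).1 h1

theorem e5_open (θ : E3 → ℝ) (c d : ℝ) (hc : Continuous θ) : IsOpen {x | c < θ x ∧ θ x < d} :=
  (isOpen_lt continuous_const hc).inter (isOpen_lt hc continuous_const)

theorem isOpen_Vreg (θ : E3 → ℝ) (c d : ℝ) (hc : Continuous θ)
    (hs : ContDiffOn ℝ ∞ θ {x | c < θ x ∧ θ x < d}) : IsOpen (Vreg θ c d) := by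
  have h1 := e5_open θ c d hc
  have h2 : ContinuousOn (fderiv ℝ θ) {x | c < θ x ∧ θ x < d} :=
    hs.continuousOn_fderiv_of_isOpen h1 (by simp)
  have h3 := h2.isOpen_inter_preimage h1 (isOpen_compl_singleton (x := (0 : E3 →L[ℝ] ℝ)))
  exact h3

theorem e5_sub (θ : E3 → ℝ) (c d : ℝ) : Vreg θ c d ⊆ {x | c < θ x ∧ θ x < d} := fun _ hx => hx.1

theorem e5_grad_smooth (θ : E3 → ℝ) (c d : ℝ) (hc : Continuous θ)
    (hs : ContDiffOn ℝ ∞ θ {x | c < θ x ∧ θ x < d}) :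
    ContDiffOn ℝ 1 (grad θ) {x | c < θ x ∧ θ x < d} := by
  have h1 := e5_open θ c d hc
  have h2 : ContDiffOn ℝ 1 (fderiv ℝ θ) {x | c < θ x ∧ θ x < d} :=
    (contDiffOn_infty.1 hs 2).fderiv_of_isOpen h1 (by norm_num)
  rw [contDiffOn_euclidean]
  intro i
  exact h2.clm_apply contDiffOn_const

theorem e5_pos {θ : E3 → ℝ} {c d : ℝ} {x : E3} (hx : x ∈ Vreg θ c d) : 0 < 3 * (θ x - c) + 1 := by
  have := hx.1.1
  linarith

theorem fm_smooth (θ : E3 → ℝ) (c d : ℝ) (hc : Continuous θ) (hs : ContDiffOn ℝ ∞ θ {x | c < θ x ∧ θ x < d}) :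
    ContDiffOn ℝ 1 (fm θ c) (Vreg θ c d) := by
  have h1 : ContDiffOn ℝ 1 (grad θ) (Vreg θ c d) := (e5_grad_smooth θ c d hc hs).mono (e5_sub θ c d)
  have h2 : ContDiffOn ℝ 1 θ (Vreg θ c d) :=
    contDiffOn_infty.1 (hs.mono (e5_sub θ c d)) 1
  have hne : ∀ x ∈ Vreg θ c d, grad θ x ≠ 0 := fun x hx => (grad_ne θ x).2 hx.2
  have h3 : ContDiffOn ℝ 1 (fun x => 3 * (θ x - c) + 1) (Vreg θ c d) :=
    (contDiffOn_const.mul (h2.sub contDiffOn_const)).add contDiffOn_const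
  have h4 : ContDiffOn ℝ 1 (fun x => (3 * (θ x - c) + 1) ^ (1 / 3 : ℝ)) (Vreg θ c d) :=
    h3.rpow_const_of_ne (fun x hx => (e5_pos hx).ne')
  have h5 : ContDiffOn ℝ 1 (fun x => ‖grad θ x‖⁻¹) (Vreg θ c d) :=
    (h1.norm ℝ hne).inv (fun x hx => norm_ne_zero_iff.2 (hne x hx))
  exact (h4.mul h5).smul h1

theorem fm_norm (θ : E3 → ℝ) (c d : ℝ) (x : E3) (hx : x ∈ Vreg θ c d) : ‖fm θ c x‖ ^ 3 = 3 * (θ x - c) + 1 := by
  have hne : grad θ x ≠ 0 := (grad_ne θ x).2 hx.2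
  have hp := e5_pos hx
  have h0 : ‖grad θ x‖ ≠ 0 := norm_ne_zero_iff.2 hne
  have h1 : ‖fm θ c x‖ = (3 * (θ x - c) + 1) ^ (1 / 3 : ℝ) := by
    rw [fm, norm_smul, norm_mul, norm_inv, norm_norm, mul_assoc, inv_mul_cancel₀ h0, mul_one,
      Real.norm_eq_abs, abs_of_pos (Real.rpow_pos_of_pos hp _)]
  rw [h1, ← Real.rpow_natCast, ← Real.rpow_mul hp.le]
  norm_num

theorem fm_perp (θ : E3 → ℝ) (c d : ℝ) (hc : Continuous θ) (hs : ContDiffOn ℝ ∞ θ {x | c < θ x ∧ θ x < d}) (x : E3)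
    (hx : x ∈ Vreg θ c d) (v : E3) (h : inner ℝ (fm θ c x) (fderiv ℝ (fm θ c) x v) = (0 : ℝ)) :
    inner ℝ (fm θ c x) v = (0 : ℝ) := by
  have hVo := isOpen_Vreg θ c d hc hs
  have hfd : HasFDerivAt (fm θ c) (fderiv ℝ (fm θ c) x) x :=
    (((fm_smooth θ c d hc hs).contDiffAt (hVo.mem_nhds hx)).differentiableAt one_ne_zero).hasFDerivAt
  have hθd : HasFDerivAt θ (fderiv ℝ θ x) x :=
    (((hs.contDiffAt ((e5_open θ c d hc).mem_nhds hx.1)).differentiableAt (by simp))).hasFDerivAt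
  have hp := e5_pos hx
  -- the curve
  have hc1 : HasDerivAt (fun t : ℝ => x + t • v) v 0 := by
    simpa using ((hasDerivAt_id (0 : ℝ)).smul_const v).const_add x
  have hx0 : x + (0 : ℝ) • v = x := by simp
  have hθ1 : HasDerivAt (fun t : ℝ => θ (x + t • v)) (fderiv ℝ θ x v) 0 := by
    have : HasFDerivAt θ (fderiv ℝ θ x) (x + (0 : ℝ) • v) := by rw [hx0]; exact hθd
    exact this.comp_hasDerivAt (0 : ℝ) hc1
  have hf1 : HasDerivAt (fun t : ℝ => fm θ c (x + t • v)) (fderiv ℝ (fm θ c) x v) 0 := by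
    have : HasFDerivAt (fm θ c) (fderiv ℝ (fm θ c) x) (x + (0 : ℝ) • v) := by rw [hx0]; exact hfd
    exact this.comp_hasDerivAt (0 : ℝ) hc1
  have hn1 : HasDerivAt (fun t : ℝ => (inner ℝ (fm θ c (x + t • v)) (fm θ c (x + t • v)) : ℝ))
      (0 : ℝ) 0 := by
    have h1 := hf1.inner ℝ hf1
    refine h1.congr_deriv ?_
    rw [hx0, real_inner_comm (fm θ c x) (fderiv ℝ (fm θ c) x v), h]
    simp
  have hn2 := hn1.pow 3
  have hθ2 : HasDerivAt (fun t : ℝ => (3 * (θ (x + t • v) - c) + 1) ^ 2)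
      (2 * (3 * (θ x - c) + 1) * (3 * fderiv ℝ θ x v)) 0 := by
    have h1 := (((hθ1.sub_const c).const_mul 3).add_const 1).pow 2
    refine h1.congr_deriv ?_
    rw [hx0]
    norm_num
  have hev : (fun t : ℝ => (3 * (θ (x + t • v) - c) + 1) ^ 2) =ᶠ[𝓝 0]
      (fun t : ℝ => (inner ℝ (fm θ c (x + t • v)) (fm θ c (x + t • v)) : ℝ)) ^ 3 := by
    have hcont : ContinuousAt (fun t : ℝ => x + t • v) 0 := hc1.continuousAt
    have hmem : ∀ᶠ t in 𝓝 (0 : ℝ), x + t • v ∈ Vreg θ c d := by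
      refine hcont.eventually ?_
      show ∀ᶠ y in 𝓝 (x + (0 : ℝ) • v), y ∈ Vreg θ c d
      rw [hx0]
      exact hVo.mem_nhds hx
    refine hmem.mono (fun t ht => ?_)
    have h1 := fm_norm θ c d (x + t • v) ht
    show (3 * (θ (x + t • v) - c) + 1) ^ 2
      = (inner ℝ (fm θ c (x + t • v)) (fm θ c (x + t • v)) : ℝ) ^ 3
    rw [real_inner_self_eq_norm_sq, ← h1]
    ring
  have hθ3 := hn2.congr_of_eventuallyEq hev
  have huniq := hθ2.unique hθ3
  have hz : 2 * (3 * (θ x - c) + 1) * (3 * fderiv ℝ θ x v) = 0 := by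
    rw [huniq]; simp
  have hz2 : fderiv ℝ θ x v = 0 := by
    have h1 : (2 * (3 * (θ x - c) + 1)) ≠ 0 := by positivity
    have h2 := (mul_eq_zero.1 hz).resolve_left h1
    linarith
  rw [fm, inner_smul_left, inner_grad, hz2, mul_zero]

end H48U
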